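import Mathlib
import Pool.Agent.Lib.P9700a.Defs

/-!
# Definitions for the virtually residually-`p` case of MP_9700b3_al

* `RKS r A`: every subgroup contained in `A` is generated by at most `r` elements.
* `pw m N`: the subgroup generated by the `m`-th powers of the elements of `N`.
* `NAS e X`: every normal abelian section `M / N` of `X` is generated by at most `e` elements.
* `VV p X`: the elements which act trivially on every normal abelian section of exponent dividing `p ^ 2`.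
* `Fil p L`: a chain of normal subgroups `L 0 ≥ L 1 ≥ ...` of finite index with trivial intersection, strongly central, in which
  the `p`-th powers of `L i` fill `L (i+1) / L (i+2)`.
* `Stb p L i0 D`: from `i0` on all factors have order `p ^ D` and taking `p`-th powers is injective on them.
-/

set_option autoImplicit false

open scoped commutatorElement

namespace P9700d

/-- every subgroup contained in `A` is generated by at most `r` elements -/
def RKS {X : Type*} [Group X] (r : ℕ) (A : Subgroup X) : Prop :=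
  ∀ K : Subgroup X, K ≤ A → ∃ s : Finset X, s.card ≤ r ∧ Subgroup.closure (s : Set X) = K

/-- the subgroup generated by the `m`-th powers of the elements of `N` -/
def pw {X : Type*} [Group X] (m : ℕ) (N : Subgroup X) : Subgroup X :=
  Subgroup.closure ((fun x => x ^ m) '' (N : Set X))

theorem pow_mem_pw {X : Type*} [Group X] {m : ℕ} {N : Subgroup X} {x : X} (hx : x ∈ N) :
    x ^ m ∈ pw m N :=
  Subgroup.subset_closure ⟨x, hx, rfl⟩

theorem pw_le {X : Type*} [Group X] (m : ℕ) (N : Subgroup X) : pw m N ≤ N := by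
  unfold pw
  rw [Subgroup.closure_le]
  rintro _ ⟨x, hx, rfl⟩
  exact N.pow_mem hx m

theorem pw_mono {X : Type*} [Group X] (m : ℕ) {N N' : Subgroup X} (h : N ≤ N') : pw m N ≤ pw m N' :=
  Subgroup.closure_mono (Set.image_mono h)

theorem pw_le_iff {X : Type*} [Group X] (m : ℕ) (N K : Subgroup X) :
    pw m N ≤ K ↔ ∀ x ∈ N, x ^ m ∈ K := by
  unfold pw
  rw [Subgroup.closure_le]
  constructor
  · intro h x hx
    exact h ⟨x, hx, rfl⟩
  · rintro h _ ⟨x, hx, rfl⟩
    exact h x hx

instance pw_normal {X : Type*} [Group X] (m : ℕ) (N : Subgroup X) [hN : N.Normal] : (pw m N).Normal := by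
  refine ⟨fun n hn g => ?_⟩
  have h : (pw m N).map (MulAut.conj g).toMonoidHom ≤ pw m N := by
    unfold pw
    rw [MonoidHom.map_closure, Subgroup.closure_le]
    rintro _ ⟨_, ⟨x, hx, rfl⟩, rfl⟩
    refine Subgroup.subset_closure ⟨g * x * g⁻¹, hN.conj_mem x hx g, ?_⟩
    change (g * x * g⁻¹) ^ m = g * x ^ m * g⁻¹
    rw [conj_pow]
  exact h ⟨n, hn, rfl⟩

/-- every normal abelian section `M / N` of `X` is generated by at most `e` elements -/
def NAS (e : ℕ) (X : Type*) [Group X] : Prop :=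
  ∀ M N : Subgroup X, M.Normal → N.Normal → N ≤ M → ⁅M, M⁆ ≤ N →
    ∃ s : Finset X, s.card ≤ e ∧ Subgroup.closure (s : Set X) ⊔ N = M

/-- the elements `g` with `[M, g] ≤ N` for all normal abelian sections `M / N` of exponent dividing `p ^ 2` -/
def VV (p : ℕ) (X : Type*) [Group X] : Subgroup X where
  carrier := {g | ∀ M N : Subgroup X, M.Normal → N.Normal → N ≤ M → ⁅M, M⁆ ≤ N →
    (∀ x ∈ M, x ^ (p ^ 2) ∈ N) → ∀ m ∈ M, ⁅m, g⁆ ∈ N}
  one_mem' := by
    intro M N _ _ _ _ _ m _
    rw [commutatorElement_one_right]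
    exact N.one_mem
  mul_mem' := by
    intro g h hg hh M N hM hN h1 h2 h3 m hm
    have e : ⁅m, g * h⁆ = ⁅m, g⁆ * (g * ⁅m, h⁆ * g⁻¹) := by
      simp only [commutatorElement_def]
      group
    rw [e]
    exact N.mul_mem (hg M N hM hN h1 h2 h3 m hm)
      (hN.conj_mem _ (hh M N hM hN h1 h2 h3 m hm) g)
  inv_mem' := by
    intro g hg M N hM hN h1 h2 h3 m hm
    have e : ⁅m, g⁻¹⁆ = g⁻¹ * ⁅m, g⁆⁻¹ * g⁻¹⁻¹ := by
      simp only [commutatorElement_def]
      group
    rw [e]
    exact hN.conj_mem _ (N.inv_mem (hg M N hM hN h1 h2 h3 m hm)) g⁻¹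

theorem mem_VV {p : ℕ} {X : Type*} [Group X] {g : X} :
    g ∈ VV p X ↔ ∀ M N : Subgroup X, M.Normal → N.Normal → N ≤ M → ⁅M, M⁆ ≤ N →
      (∀ x ∈ M, x ^ (p ^ 2) ∈ N) → ∀ m ∈ M, ⁅m, g⁆ ∈ N := Iff.rfl

instance VV_normal (p : ℕ) (X : Type*) [Group X] : (VV p X).Normal := by
  refine ⟨fun n hn g => ?_⟩
  rw [mem_VV] at hn ⊢
  intro M N hM hN h1 h2 h3 m hm
  have h4 : g⁻¹ * m * g ∈ M := by
    have := hM.conj_mem m hm g⁻¹
    rwa [inv_inv] at this
  have h5 := hN.conj_mem _ (hn M N hM hN h1 h2 h3 _ h4) g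
  have e : ⁅m, g * n * g⁻¹⁆ = g * ⁅g⁻¹ * m * g, n⁆ * g⁻¹ := by
    simp only [commutatorElement_def]
    group
  rw [e]
  exact h5

/-- a filtration by normal subgroups of finite index with trivial intersection, strongly central, in
which the `p`-th powers of `L i` fill `L (i+1)` modulo `L (i+2)` -/
structure Fil {G : Type*} [Group G] (p : ℕ) (L : ℕ → Subgroup G) : Prop where
  norm : ∀ i, (L i).Normal
  fi : ∀ i, (L i).FiniteIndex
  anti : ∀ i, L (i + 1) ≤ L i
  comm : ∀ i j, ⁅L i, L j⁆ ≤ L (i + j + 2)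
  pow : ∀ i, ∀ x ∈ L i, x ^ p ∈ L (i + 1)
  surj : ∀ i, ∀ y ∈ L (i + 1), ∃ x ∈ L i, ∃ z ∈ L (i + 2), y = x ^ p * z
  int : ∀ g, (∀ i, g ∈ L i) → g = 1

theorem Fil.anti' {G : Type*} [Group G] {p : ℕ} {L : ℕ → Subgroup G} (h : Fil p L) {i j : ℕ}
    (hij : i ≤ j) : L j ≤ L i := antitone_nat_of_succ_le h.anti hij

/-- from `i0` on all factors have order `p ^ D` and taking `p`-th powers is injective on them -/
structure Stb {G : Type*} [Group G] (p : ℕ) (L : ℕ → Subgroup G) (i0 D : ℕ) : Prop where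
  card : ∀ i, i0 ≤ i → (L (i + 1)).relIndex (L i) = p ^ D
  inj : ∀ i, i0 ≤ i → ∀ x ∈ L i, x ^ p ∈ L (i + 2) → x ∈ L (i + 1)

end P9700d
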