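import Mathlib
import Pool.Agent.Lib.P9700d.Defs

/-!
# Counting in abelian sections

* `relIndex_le_pow`: the image of `M` in `X ⧸ N` is abelian, of exponent dividing `m`, generated by the images of the elements of `s`; so every element
  is a product `∏_{x ∈ s} x ^ (a x)` with `0 ≤ a x < m`: a surjection from `s → Fin m`. (`N.relIndex M` is the cardinality of the quotient
  `M ⧸ N.subgroupOf M`.)
* `index_le_of_cent`: the map `g ↦ (g x g⁻¹ N)_{x ∈ s}`, `X → (s → M / N)`. If `g` and `h` have the same image, `k = h⁻¹ g` satisfies `⁅x, k⁆ ∈ N` for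
  all `x ∈ s`, hence for all `x ∈ M = closure s ⊔ N` (the set of these `x` is a subgroup containing `N`, because `N` is normal), so `k ∈ C`. So `X ⧸ C`
  injects into `s → M / N`.
-/

set_option autoImplicit false

open scoped commutatorElement

namespace P9700d

namespace CntAux

theorem gen {X : Type*} [Group X] (M N : Subgroup X) (hN : N.Normal) (s : Finset X)
    (hs : Subgroup.closure (s : Set X) ⊔ N = M) :
    ∃ T : Finset (↥M ⧸ N.subgroupOf M), T.card ≤ s.card ∧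
      Subgroup.closure (T : Set (↥M ⧸ N.subgroupOf M)) = ⊤ := by
  classical
  have hsM : ∀ x ∈ s, x ∈ M := fun x hx => hs ▸
    (le_sup_left : _ ≤ Subgroup.closure (s : Set X) ⊔ N) (Subgroup.subset_closure hx)
  let T : Finset (↥M ⧸ N.subgroupOf M) :=
    s.attach.image fun x => QuotientGroup.mk' (N.subgroupOf M) ⟨x.1, hsM x.1 x.2⟩
  refine ⟨T, Finset.card_image_le.trans (le_of_eq s.card_attach), ?_⟩
  let H : Subgroup X := ((Subgroup.closure (T : Set (↥M ⧸ N.subgroupOf M))).comap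
    (QuotientGroup.mk' (N.subgroupOf M))).map M.subtype
  have hH : M ≤ H := by
    rw [← hs]
    refine sup_le ((Subgroup.closure_le H).2 fun x hx => ?_) fun y hy => ?_
    · refine ⟨⟨x, hsM x hx⟩, ?_, rfl⟩
      refine Subgroup.subset_closure (Finset.mem_coe.2 (Finset.mem_image.2 ?_))
      exact ⟨⟨x, hx⟩, Finset.mem_attach _ _, rfl⟩
    · have hyM : y ∈ M := hs ▸ (le_sup_right : _ ≤ Subgroup.closure (s : Set X) ⊔ N) hy
      refine ⟨⟨y, hyM⟩, ?_, rfl⟩
      have h1 : QuotientGroup.mk' (N.subgroupOf M) ⟨y, hyM⟩ = 1 :=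
        (QuotientGroup.eq_one_iff _).2 (Subgroup.mem_subgroupOf.2 hy)
      exact Subgroup.mem_comap.2 (h1 ▸ Subgroup.one_mem _)
  rw [eq_top_iff]
  intro q _
  obtain ⟨⟨y, hy⟩, rfl⟩ := QuotientGroup.mk'_surjective (N.subgroupOf M) q
  obtain ⟨z, hz1, hz2⟩ := hH hy
  have h2 : z = ⟨y, hy⟩ := Subtype.ext hz2
  rw [h2] at hz1
  exact hz1

end CntAux

open CntAux

theorem relIndex_le_pow {X : Type*} [Group X] (M N : Subgroup X) (hN : N.Normal) (hNM : N ≤ M)
    (hab : ⁅M, M⁆ ≤ N) (m : ℕ) (hm : 0 < m) (hexp : ∀ x ∈ M, x ^ m ∈ N) (s : Finset X)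
    (hs : Subgroup.closure (s : Set X) ⊔ N = M) :
    N.relIndex M ≠ 0 ∧ N.relIndex M ≤ m ^ s.card := by
  obtain ⟨T, hT1, hT2⟩ := gen M N hN s hs
  letI : CommGroup (↥M ⧸ N.subgroupOf M) :=
    { (inferInstance : Group (↥M ⧸ N.subgroupOf M)) with
      mul_comm := by
        intro a b
        obtain ⟨x, rfl⟩ := QuotientGroup.mk'_surjective (N.subgroupOf M) a
        obtain ⟨y, rfl⟩ := QuotientGroup.mk'_surjective (N.subgroupOf M) b
        rw [← map_mul, ← map_mul]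
        refine QuotientGroup.eq.2 (Subgroup.mem_subgroupOf.2 ?_)
        have h1 : ((x * y)⁻¹ * (y * x) : ↥M).1 = ⁅(y.1)⁻¹, (x.1)⁻¹⁆ := by
          simp only [Subgroup.coe_mul, Subgroup.coe_inv, commutatorElement_def, inv_inv,
            mul_inv_rev]
          group
        rw [h1]
        exact hab (Subgroup.commutator_mem_commutator (M.inv_mem y.2) (M.inv_mem x.2)) }
  haveI : Group.FG (↥M ⧸ N.subgroupOf M) := ⟨⟨T, hT2⟩⟩
  have h1 : ∀ g : ↥M ⧸ N.subgroupOf M, g ^ m = 1 := by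
    intro g
    obtain ⟨x, rfl⟩ := QuotientGroup.mk'_surjective (N.subgroupOf M) g
    rw [← map_pow]
    exact (QuotientGroup.eq_one_iff _).2 (Subgroup.mem_subgroupOf.2 (hexp x.1 x.2))
  have h2 := card_dvd_exponent_pow_rank' (↥M ⧸ N.subgroupOf M) h1
  have h3 : Group.rank (↥M ⧸ N.subgroupOf M) ≤ s.card := (Group.rank_le hT2).trans hT1
  have h4 : 0 < m ^ Group.rank (↥M ⧸ N.subgroupOf M) := Nat.pow_pos hm
  have h5 : N.relIndex M = Nat.card (↥M ⧸ N.subgroupOf M) := rfl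
  rw [h5]
  exact ⟨fun h => h4.ne' (Nat.eq_zero_of_zero_dvd (h ▸ h2)),
    (Nat.le_of_dvd h4 h2).trans (Nat.pow_le_pow_right hm h3)⟩

theorem index_le_of_cent {X : Type*} [Group X] (M N C : Subgroup X) (hM : M.Normal) (hN : N.Normal)
    (hNM : N ≤ M) (hfin : N.relIndex M ≠ 0) (s : Finset X)
    (hs : Subgroup.closure (s : Set X) ⊔ N = M) (hC : ∀ g, (∀ m ∈ M, ⁅m, g⁆ ∈ N) → g ∈ C) :
    C.index ≠ 0 ∧ C.index ≤ (N.relIndex M) ^ s.card := by
  classical
  have hsM : ∀ x ∈ s, x ∈ M := fun x hx => hs ▸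
    (le_sup_left : _ ≤ Subgroup.closure (s : Set X) ⊔ N) (Subgroup.subset_closure hx)
  haveI : (N.subgroupOf M).FiniteIndex := ⟨hfin⟩
  let f : X → (↥s → ↥M ⧸ N.subgroupOf M) := fun g x =>
    QuotientGroup.mk ⟨g * x.1 * g⁻¹, hM.conj_mem x.1 (hsM x.1 x.2) g⟩
  have hf : ∀ g h, f g = f h → h⁻¹ * g ∈ C := by
    intro g h hgh
    apply hC
    have h1 : ∀ x ∈ s, ⁅x, h⁻¹ * g⁆ ∈ N := by
      intro x hx
      have h2 := Subgroup.mem_subgroupOf.1 (QuotientGroup.eq.1 (congrFun hgh ⟨x, hx⟩))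
      have h3 : (g * x * g⁻¹)⁻¹ * (h * x * h⁻¹) ∈ N := h2
      have h4 := hN.conj_mem _ (N.inv_mem (hN.conj_mem _ (N.inv_mem (hN.conj_mem _ h3 h⁻¹)) 1)) 1
      have h5 := N.inv_mem (hN.conj_mem _ (N.inv_mem (hN.conj_mem _ h3 h⁻¹)) x)
      have h6 : ⁅x, h⁻¹ * g⁆ =
          (x * (h⁻¹ * ((g * x * g⁻¹)⁻¹ * (h * x * h⁻¹)) * h⁻¹⁻¹)⁻¹ * x⁻¹)⁻¹ := by
        simp only [commutatorElement_def]
        group
      rw [h6]
      exact h5
    let K : Subgroup X :=
      { carrier := {m | ⁅m, h⁻¹ * g⁆ ∈ N}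
        one_mem' := by
          change ⁅(1 : X), h⁻¹ * g⁆ ∈ N
          rw [commutatorElement_one_left]
          exact N.one_mem
        mul_mem' := by
          intro a b ha hb
          change ⁅a * b, h⁻¹ * g⁆ ∈ N
          have h2 : ⁅a * b, h⁻¹ * g⁆ = a * ⁅b, h⁻¹ * g⁆ * a⁻¹ * ⁅a, h⁻¹ * g⁆ := by
            simp only [commutatorElement_def]
            group
          rw [h2]
          exact N.mul_mem (hN.conj_mem _ hb a) ha
        inv_mem' := by
          intro a ha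
          change ⁅a⁻¹, h⁻¹ * g⁆ ∈ N
          have h2 : ⁅a⁻¹, h⁻¹ * g⁆ = a⁻¹ * ⁅a, h⁻¹ * g⁆⁻¹ * a⁻¹⁻¹ := by
            simp only [commutatorElement_def]
            group
          rw [h2]
          exact hN.conj_mem _ (N.inv_mem ha) a⁻¹ }
    have hK : M ≤ K := by
      rw [← hs]
      refine sup_le ((Subgroup.closure_le K).2 fun x hx => h1 x hx) fun y hy => ?_
      change ⁅y, h⁻¹ * g⁆ ∈ N
      have h2 : ⁅y, h⁻¹ * g⁆ = y * ((h⁻¹ * g) * y⁻¹ * (h⁻¹ * g)⁻¹) := by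
        simp only [commutatorElement_def]
        group
      rw [h2]
      exact N.mul_mem hy (hN.conj_mem _ (N.inv_mem hy) _)
    exact fun m hm => hK hm
  have hinj : Function.Injective fun a : X ⧸ C => f a.out := by
    intro a b hab
    have h1 := hf _ _ hab
    rw [← QuotientGroup.out_eq' a, ← QuotientGroup.out_eq' b]
    exact (QuotientGroup.eq.2 h1).symm
  haveI : Finite (X ⧸ C) := Finite.of_injective _ hinj
  have h1 : Nat.card (X ⧸ C) ≤ Nat.card (↥s → ↥M ⧸ N.subgroupOf M) :=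
    Nat.card_le_card_of_injective _ hinj
  rw [Nat.card_fun, Nat.card_eq_fintype_card (α := ↥s), Fintype.card_coe] at h1
  have h2 : C.index = Nat.card (X ⧸ C) := rfl
  rw [h2]
  exact ⟨Nat.card_pos.ne', h1⟩

end P9700d
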