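import Mathlib

/-!
# Stabilisation of a directed family of subgroups of bounded index

Choose `N0 ∈ 𝒩`, `N0 ≤ N1`, with `(U N0).relIndex L` as large as possible (it is bounded by `c`). For `N ∈ 𝒩` take `N' ∈ 𝒩` with `N' ≤ N`, `N' ≤ N0`: `U N' ≤ U N0 ≤ L`, and
`(U N').relIndex L = (U N').relIndex (U N0) * (U N0).relIndex L` (`Subgroup.relIndex_mul_relIndex`), so by maximality (and both nonzero) `(U N').relIndex (U N0) = 1`, `U N0 ≤ U N'` (`Subgroup.relIndex_eq_one`)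
`≤ U N`.
-/

set_option autoImplicit false

namespace P9700d

theorem exists_stab {G : Type*} [Group G] (𝒩 : Set (Subgroup G))
    (hdir : ∀ N ∈ 𝒩, ∀ N' ∈ 𝒩, ∃ N'' ∈ 𝒩, N'' ≤ N ∧ N'' ≤ N') (U : Subgroup G → Subgroup G)
    (hU : ∀ N ∈ 𝒩, ∀ N' ∈ 𝒩, N ≤ N' → U N ≤ U N') (L : Subgroup G) (c : ℕ) (N1 : Subgroup G)
    (hN1 : N1 ∈ 𝒩)
    (hL : ∀ N ∈ 𝒩, N ≤ N1 → U N ≤ L ∧ (U N).relIndex L ≠ 0 ∧ (U N).relIndex L ≤ c) :
    ∃ N0 ∈ 𝒩, N0 ≤ N1 ∧ ∀ N ∈ 𝒩, U N0 ≤ U N := by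
  classical
  let P : ℕ → Prop := fun n => ∃ N ∈ 𝒩, N ≤ N1 ∧ (U N).relIndex L = n
  have hP : P ((U N1).relIndex L) := ⟨N1, hN1, le_refl _, rfl⟩
  have hbd : ∀ n, P n → n ≤ c := by
    rintro n ⟨N, hN, hle, rfl⟩
    exact (hL N hN hle).2.2
  obtain ⟨N0, hN0, hle, hmax⟩ : P (Nat.findGreatest P c) :=
    Nat.findGreatest_spec (hbd _ hP) hP
  refine ⟨N0, hN0, hle, fun N hN => ?_⟩
  obtain ⟨N', hN', h1, h2⟩ := hdir N hN N0 hN0
  have hP' : P ((U N').relIndex L) := ⟨N', hN', h2.trans hle, rfl⟩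
  have hU0 : U N' ≤ U N0 := hU N' hN' N0 hN0 h2
  have h3 := Subgroup.relIndex_mul_relIndex (U N') (U N0) L hU0 (hL N0 hN0 hle).1
  have h4 : (U N').relIndex L ≤ (U N0).relIndex L := by
    rw [hmax]
    exact Nat.le_findGreatest (hbd _ hP') hP'
  have hpos := (hL N0 hN0 hle).2.1
  have hpos' := (hL N' hN' (h2.trans hle)).2.1
  have h5 : (U N').relIndex (U N0) = 1 := by
    rw [← h3] at h4 hpos'
    have h6 : (U N').relIndex (U N0) ≠ 0 := fun h => hpos' (by rw [h, zero_mul])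
    by_contra h7
    have h8 : 2 ≤ (U N').relIndex (U N0) := by omega
    have h9 : 2 * (U N0).relIndex L ≤ (U N').relIndex (U N0) * (U N0).relIndex L :=
      Nat.mul_le_mul_right _ h8
    omega
  exact (Subgroup.relIndex_eq_one.1 h5).trans (hU N' hN' N hN h1)

end P9700d
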