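import Mathlib
import Pool.Agent.Lib.P9700d.Defs

/-!
# The action of a finite `p`-group on an elementary abelian normal subgroup has small exponent
-/

set_option autoImplicit false

namespace P9700d

namespace ExpAux

theorem pow_eq_one {p : ℕ} [hp : Fact p.Prime] {V : Type*} [AddCommGroup V] [Module (ZMod p) V]
    [Module.Finite (ZMod p) V] (α : Module.End (ZMod p) V) (m : ℕ) (h : α ^ (p ^ m) = 1) (t : ℕ)
    (ht : Module.finrank (ZMod p) V ≤ p ^ t) : α ^ (p ^ t) = 1 := by
  rcases subsingleton_or_nontrivial V with hV | hV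
  · exact Subsingleton.elim _ _
  have : CharP (Module.End (ZMod p) V) p :=
    charP_of_injective_algebraMap (algebraMap (ZMod p) (Module.End (ZMod p) V)).injective p
  have h1 : (α - 1) ^ (p ^ m) = 0 := by
    rw [sub_pow_char_pow_of_commute _ _ (Commute.one_right _), h, one_pow, sub_self]
  have h2 : IsNilpotent (α - 1) := ⟨_, h1⟩
  have h3 : (α - 1) ^ Module.finrank (ZMod p) V = 0 := by
    have h4 := LinearMap.aeval_self_charpoly (α - 1)
    rw [(LinearMap.isNilpotent_iff_charpoly (α - 1)).1 h2] at h4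
    simpa using h4
  have h5 : (α - 1) ^ (p ^ t) = 0 := pow_eq_zero_of_le ht h3
  rw [sub_pow_char_pow_of_commute _ _ (Commute.one_right _), one_pow, sub_eq_zero] at h5
  exact h5

theorem add_pow_eq_one' {p : ℕ} [hp : Fact p.Prime] {V : Type*} [AddCommGroup V]
    [Module (ZMod p) V] [Finite V] (n : ℕ) (hn : Nat.card V = p ^ n) (α : AddMonoid.End V) (m : ℕ)
    (h : α ^ (p ^ m) = 1) (t : ℕ) (ht : n ≤ p ^ t) : α ^ (p ^ t) = 1 := by
  have hMF : Module.Finite (ZMod p) V := Module.Finite.of_finite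
  have hfr : Module.finrank (ZMod p) V = n := by
    have h1 := Module.natCard_eq_pow_finrank (K := ZMod p) (V := V)
    rw [hn, Nat.card_zmod] at h1
    exact (Nat.pow_right_injective hp.out.two_le h1).symm
  let β : Module.End (ZMod p) V := AddMonoidHom.toZModLinearMap p α
  have hβ : ∀ (k : ℕ) (x : V), (β ^ k) x = (α ^ k) x := by
    intro k
    induction k with
    | zero => intro x; simp
    | succ k ih =>
      intro x
      rw [pow_succ, pow_succ, Module.End.mul_apply, ih]
      rfl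
  have h1 : β ^ (p ^ m) = 1 := by
    refine LinearMap.ext fun x => ?_
    rw [hβ, h]
    rfl
  have h2 := pow_eq_one β m h1 t (by rw [hfr]; exact ht)
  refine AddMonoidHom.ext fun x => ?_
  have h3 := hβ (p ^ t) x
  rw [h2] at h3
  exact h3.symm

theorem add_pow_eq_one {p : ℕ} [hp : Fact p.Prime] {V : Type*} [AddCommGroup V] [Finite V]
    (hexp : ∀ x : V, p • x = 0) (n : ℕ) (hn : Nat.card V = p ^ n) (α : AddMonoid.End V) (m : ℕ)
    (h : α ^ (p ^ m) = 1) (t : ℕ) (ht : n ≤ p ^ t) : α ^ (p ^ t) = 1 :=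
  @add_pow_eq_one' p hp V _ (AddCommGroup.zmodModule hexp) _ n hn α m h t ht

theorem mul_pow_eq_one {p : ℕ} [hp : Fact p.Prime] {V : Type*} [CommGroup V] [Finite V]
    (hexp : ∀ x : V, x ^ p = 1) (n : ℕ) (hn : Nat.card V = p ^ n) (α : MulAut V) (m : ℕ)
    (h : α ^ (p ^ m) = 1) (t : ℕ) (ht : n ≤ p ^ t) : α ^ (p ^ t) = 1 := by
  have : Finite (Additive V) := inferInstanceAs (Finite V)
  let γ : AddMonoid.End (Additive V) := MonoidHom.toAdditive α.toMonoidHom
  have hk : ∀ (k : ℕ) (x : V), (γ ^ k) (Additive.ofMul x) = Additive.ofMul ((α ^ k) x) := by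
    intro k
    induction k with
    | zero => intro x; simp
    | succ k ih =>
      intro x
      have e : (γ ^ (k + 1)) (Additive.ofMul x) = (γ ^ k) (Additive.ofMul (α x)) := by
        rw [pow_succ]
        rfl
      rw [e, ih, pow_succ]
      rfl
  have h1 := add_pow_eq_one (V := Additive V) (p := p)
    (fun x => congrArg Additive.ofMul (hexp (Additive.toMul x))) n
    (by rw [← hn]; exact Nat.card_congr Additive.toMul) γ m (by
      refine AddMonoidHom.ext fun x => ?_
      have := hk (p ^ m) (Additive.toMul x)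
      rw [h] at this
      exact this) t ht
  refine MulEquiv.ext fun x => ?_
  have h2 := hk (p ^ t) x
  rw [h1] at h2
  exact (Additive.ofMul.injective h2).symm

end ExpAux

theorem pow_cent {X : Type*} [Group X] {p : ℕ} [Fact p.Prime] (hX : IsPGroup p X)
    (E : Subgroup X) (hE : E.Normal) (hcomm : ∀ x ∈ E, ∀ y ∈ E, x * y = y * x)
    (hexp : ∀ x ∈ E, x ^ p = 1) (n : ℕ) (hn : Nat.card E = p ^ n) (t : ℕ) (ht : n ≤ p ^ t)
    (a x : X) (hx : x ∈ E) : a ^ (p ^ t) * x = x * a ^ (p ^ t) := by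
  have hp : p.Prime := Fact.out
  let iC : CommGroup E := { (inferInstance : Group E) with
    mul_comm := fun x y => Subtype.ext (hcomm x.1 x.2 y.1 y.2) }
  have hf : Finite E := Nat.finite_of_card_ne_zero (by rw [hn]; exact pow_ne_zero _ hp.ne_zero)
  obtain ⟨m, hm⟩ := hX a
  have h1 := ExpAux.mul_pow_eq_one (V := E) (p := p) (fun x => Subtype.ext (hexp x.1 x.2)) n hn
    (MulAut.conjNormal a) m (by rw [← map_pow, hm, map_one]) t ht
  rw [← map_pow] at h1
  have h4 := congrArg (fun z : MulAut E => (z ⟨x, hx⟩ : X)) h1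
  have h5 : a ^ p ^ t * x * (a ^ p ^ t)⁻¹ = x := h4
  exact mul_inv_eq_iff_eq_mul.mp h5

end P9700d
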