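import Mathlib
import Pool.Agent.Lib.P9700d.Defs

/-!
# A maximal abelian normal subgroup of a finite `p`-group is its own centralizer

Take `M` maximal (largest cardinality) among the abelian normal subgroups (`⊥` is one). `C = {g : g centralizes M}` is a normal subgroup. If some
`g ∈ C` is not in `M`, the image of `C` in the finite `p`-group `X ⧸ M` is a nontrivial normal subgroup, so it meets the centre nontrivially (conjugation
action of `X ⧸ M` on it, `IsPGroup.card_modEq_card_fixedPoints`: the number of fixed points is divisible by `p` and positive): there is `x ∈ C`, `x ∉ M`, with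
`g x g⁻¹ x⁻¹ ∈ M` for all `g`. Then `M ⊔ zpowers x` is normal, abelian (`x` centralizes `M`) and larger than `M`: contradiction.
-/

set_option autoImplicit false

open scoped commutatorElement

namespace P9700d

namespace MaxAbAux

theorem deep {X : Type*} [Group X] (hX : Group.IsNilpotent X) (M C : Subgroup X) [C.Normal]
    (h : ∃ g ∈ C, g ∉ M) : ∃ x ∈ C, x ∉ M ∧ ∀ g : X, x * g * x⁻¹ * g⁻¹ ∈ M := by
  obtain ⟨c, hc⟩ := Subgroup.nilpotent_iff_lowerCentralSeries.1 hX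
  classical
  by_contra hcon
  push Not at hcon
  have key : ∀ n, ∃ x ∈ C, x ∉ M ∧ x ∈ Subgroup.lowerCentralSeries (⊤ : Subgroup X) n := by
    intro n
    induction n with
    | zero =>
      obtain ⟨g, hg, hgM⟩ := h
      exact ⟨g, hg, hgM, by simp⟩
    | succ n ih =>
      obtain ⟨x, hx, hxM, hxn⟩ := ih
      obtain ⟨g, hg⟩ := hcon x hx hxM
      refine ⟨x * g * x⁻¹ * g⁻¹, ?_, hg, ?_⟩
      · have h1 : g * x⁻¹ * g⁻¹ ∈ C := ‹C.Normal›.conj_mem _ (C.inv_mem hx) g
        have h2 := C.mul_mem hx h1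
        have h3 : x * (g * x⁻¹ * g⁻¹) = x * g * x⁻¹ * g⁻¹ := by group
        rwa [h3] at h2
      · rw [Subgroup.lowerCentralSeries_succ]
        exact Subgroup.commutator_mem_commutator hxn (Subgroup.mem_top g)
  obtain ⟨x, -, hxM, hx⟩ := key c
  rw [hc, Subgroup.mem_bot] at hx
  exact hxM (hx ▸ M.one_mem)

end MaxAbAux

open MaxAbAux in
theorem exists_max_ab {X : Type*} [Group X] [Finite X] {p : ℕ} [Fact p.Prime] (hX : IsPGroup p X) :
    ∃ M : Subgroup X, M.Normal ∧ (∀ x ∈ M, ∀ y ∈ M, x * y = y * x) ∧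
      ∀ g : X, (∀ x ∈ M, x * g = g * x) → g ∈ M := by
  classical
  let S : Set (Subgroup X) := {M | M.Normal ∧ ∀ x ∈ M, ∀ y ∈ M, x * y = y * x}
  have hS : S.Nonempty := ⟨⊥, inferInstance, fun x hx y hy => by
    rw [Subgroup.mem_bot.1 hx, Subgroup.mem_bot.1 hy]⟩
  obtain ⟨M, hM, hmax⟩ := (Set.toFinite S).exists_maximal hS
  obtain ⟨hMn, hMc⟩ := hM
  refine ⟨M, hMn, hMc, fun g hg => ?_⟩
  by_contra hgM
  have hnil : Group.IsNilpotent X := hX.isNilpotent
  obtain ⟨x, hxC, hxM, hx⟩ := deep hnil M (Subgroup.centralizer (M : Set X))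
    ⟨g, Subgroup.mem_centralizer_iff.2 hg, hgM⟩
  rw [Subgroup.mem_centralizer_iff] at hxC
  have hmem : ∀ y, y ∈ M ⊔ Subgroup.zpowers x ↔ ∃ m ∈ M, ∃ k : ℤ, m * x ^ k = y := by
    intro y
    rw [← SetLike.mem_coe, Subgroup.normal_mul, Set.mem_mul]
    constructor
    · rintro ⟨m, hm, z, hz, rfl⟩
      obtain ⟨k, rfl⟩ := Subgroup.mem_zpowers_iff.1 hz
      exact ⟨m, hm, k, rfl⟩
    · rintro ⟨m, hm, k, rfl⟩
      exact ⟨m, hm, x ^ k, Subgroup.zpow_mem_zpowers x k, rfl⟩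
  have hxm : ∀ m ∈ M, ∀ k : ℤ, m * x ^ k = x ^ k * m := fun m hm k =>
    ((show Commute m x from hxC m hm).zpow_right k)
  have hle : M ≤ M ⊔ Subgroup.zpowers x := le_sup_left
  have hxin : x ∈ M ⊔ Subgroup.zpowers x := (hmem x).2 ⟨1, M.one_mem, 1, by simp⟩
  have hnorm : (M ⊔ Subgroup.zpowers x).Normal := by
    refine ⟨fun y hy g => ?_⟩
    obtain ⟨m, hm, k, rfl⟩ := (hmem y).1 hy
    have h1 : g * x * g⁻¹ ∈ M ⊔ Subgroup.zpowers x := by
      have h2 : x⁻¹ * (x * g * x⁻¹ * g⁻¹)⁻¹ * x ∈ M := by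
        have := hMn.conj_mem _ (M.inv_mem (hx g)) x⁻¹
        rwa [inv_inv] at this
      have h3 : g * x * g⁻¹ = x * (x⁻¹ * (x * g * x⁻¹ * g⁻¹)⁻¹ * x) := by group
      rw [h3]
      exact mul_mem hxin (hle h2)
    have h4 : g * (m * x ^ k) * g⁻¹ = (g * m * g⁻¹) * (g * x * g⁻¹) ^ k := by
      rw [conj_zpow]
      group
    rw [h4]
    exact mul_mem (hle (hMn.conj_mem m hm g)) (zpow_mem h1 k)
  have hcomm : ∀ a ∈ M ⊔ Subgroup.zpowers x, ∀ b ∈ M ⊔ Subgroup.zpowers x, a * b = b * a := by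
    intro a ha b hb
    obtain ⟨m, hm, k, rfl⟩ := (hmem a).1 ha
    obtain ⟨n, hn, l, rfl⟩ := (hmem b).1 hb
    have c1 : Commute m n := hMc m hm n hn
    have c2 : Commute m (x ^ l) := hxm m hm l
    have c3 : Commute (x ^ k) n := (hxm n hn k).symm
    have c4 : Commute (x ^ k) (x ^ l) := (Commute.refl x).zpow_zpow k l
    exact (c1.mul_right c2).mul_left (c3.mul_right c4)
  have := hmax (y := M ⊔ Subgroup.zpowers x) ⟨hnorm, hcomm⟩ hle
  exact hxM (this hxin)

end P9700d
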