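import Mathlib
import Pool.Agent.Lib.P9700d.Defs
import Pool.Agent.Lib.P9700d.MaxAb
import Pool.Agent.Lib.P9700d.Cnt

/-!
# The order of a finite `p`-group of given exponent and rank

Let `M` be the abelian normal subgroup of `exists_max_ab`, generated by `s`, `s.card ≤ e`. `|M| ≤ (p^k)^e` (`relIndex_le_pow` with `N = ⊥`, `m = p^k`), and
`|X : M| ≤ |M|^e` (`index_le_of_cent` with `N = ⊥`, `C = M`). So `|X| ≤ |M|^(e+1) ≤ p^(k e (e+1))`. (Raise the exponent from `s.card` to `e` with `Nat.pow_le_pow_right`.)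
-/

set_option autoImplicit false

namespace P9700d

theorem card_le_of_exp {X : Type*} [Group X] [Finite X] {p : ℕ} [Fact p.Prime] (hX : IsPGroup p X)
    (e k : ℕ)
    (hgen : ∀ M : Subgroup X, M.Normal → (∀ x ∈ M, ∀ y ∈ M, x * y = y * x) →
      ∃ s : Finset X, s.card ≤ e ∧ Subgroup.closure (s : Set X) = M)
    (hexp : ∀ x : X, x ^ (p ^ k) = 1) : Nat.card X ≤ p ^ (k * e * (e + 1)) := by
  have hp : p.Prime := Fact.out
  obtain ⟨M, hMn, hMc, hMs⟩ := exists_max_ab hX
  obtain ⟨s, hs, hsM⟩ := hgen M hMn hMc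
  have hsup : Subgroup.closure (s : Set X) ⊔ (⊥ : Subgroup X) = M := by rw [hsM, sup_bot_eq]
  have hab : ⁅M, M⁆ ≤ (⊥ : Subgroup X) := by
    rw [Subgroup.commutator_le]
    intro a ha b hb
    rw [Subgroup.mem_bot, commutatorElement_eq_one_iff_mul_comm]
    exact hMc a ha b hb
  have hpk : 0 < p ^ k := Nat.pow_pos hp.pos
  obtain ⟨h1, h2⟩ := relIndex_le_pow M ⊥ inferInstance bot_le hab (p ^ k) hpk
    (fun x _ => by rw [hexp x]; exact Subgroup.one_mem _) s hsup
  obtain ⟨_, h4⟩ := index_le_of_cent M ⊥ M hMn inferInstance bot_le h1 s hsup (fun g hg => hMs g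
    fun x hx => commutatorElement_eq_one_iff_mul_comm.1 (Subgroup.mem_bot.1 (hg x hx)))
  rw [Subgroup.relIndex_bot_left] at h2 h4
  have hM0 : 0 < Nat.card M := Nat.card_pos
  have h5 : Nat.card M ≤ p ^ (k * e) := by
    refine h2.trans ?_
    rw [pow_mul]
    exact Nat.pow_le_pow_right hpk hs
  have h6 : Nat.card X = Nat.card M * M.index := (Subgroup.card_mul_index M).symm
  have h7 : M.index ≤ (Nat.card M) ^ e := h4.trans (Nat.pow_le_pow_right hM0 hs)
  calc Nat.card X = Nat.card M * M.index := h6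
    _ ≤ Nat.card M * (Nat.card M) ^ e := Nat.mul_le_mul le_rfl h7
    _ = (Nat.card M) ^ (e + 1) := by rw [pow_succ]; ring
    _ ≤ (p ^ (k * e)) ^ (e + 1) := Nat.pow_le_pow_left h5 _
    _ = p ^ (k * e * (e + 1)) := by rw [← pow_mul]

end P9700d
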