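import Mathlib
import Pool.Agent.Lib.P9700d.Defs
import Pool.Agent.Lib.P9700d.Ord
import Pool.Agent.Lib.P9700d.Cnt
import Pool.Agent.Lib.P9700d.ExpA
import Pool.Agent.Lib.P9700a.Cover

/-!
# Elementary abelian normal subgroups of a product of two `p`-groups of rank `r`

Use the objects of `P9700a/Cover.lean` (namespace `P9700a.CoverAux`) with `N = E`: `HH A B E = {(a, b) ∈ A × B : a b⁻¹ ∈ E}`, `dl (a, b) = a b⁻¹ ∈ E`, `dl_surj` (onto `E`),
`dl_mul : dl (h h') = (a dl(h') a⁻¹) dl(h)`, `H1` = the pairs with `a ∈ centralizer E`, `dlH : H1 →* E` the restriction of `dl`.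

(1) `E0 = range of dlH`. Every subgroup of `A × B` is generated by `≤ 2 r` elements (extension argument as in `P9700a.FR.of_ker_range`: image in `A`, kernel in `B`), hence so are
    `H1` and its image `E0`; `E0` has exponent `p`: `|E0| ≤ p^(2r)` (`relIndex_le_pow` with `N = ⊥`, `m = p`).
(2) `[HH : H1] ≤ |A / C_A(E)|` where `C_A(E) = A ⊓ centralizer E`. The group `Y = A ⧸ (C_A(E)).subgroupOf A` is a finite `p`-group, all its subgroups are generated by `≤ r` elements
    (`RKS r A`), and `y^(p^t) = 1` for `t = Nat.clog p n` (`pow_cent`, `Nat.le_pow_clog`). So `|Y| ≤ p^(t r (r+1))` (`card_le_of_exp`).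
(3) `E` is the union over the cosets `q ∈ HH / H1` of `dl(q.out) * (a_q E0 a_q⁻¹)` (see the proof of `FR_of_cent`), so `p^n = |E| ≤ [HH : H1] |E0| ≤ p^(t r (r+1)) p^(2r)`.
    Compare exponents (`Nat.pow_le_pow_iff_right`).
-/

set_option autoImplicit false

namespace P9700d

namespace EBAux

open P9700a P9700a.RankAux P9700a.CoverAux

/-- every subgroup is generated by at most `m` elements -/
def GR (m : ℕ) (G : Type*) [Group G] : Prop :=
  ∀ K : Subgroup G, ∃ s : Finset G, s.card ≤ m ∧ Subgroup.closure (s : Set G) = K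

theorem GR.of_injective {G H : Type*} [Group G] [Group H] {m : ℕ} (f : G →* H)
    (hf : Function.Injective f) (h : GR m H) : GR m G := by
  intro K
  obtain ⟨s, hs1, hs2⟩ := h (K.map f)
  obtain ⟨s', h1, h2⟩ := lift_inj f hf K s hs2
  exact ⟨s', h1.trans hs1, h2⟩

theorem GR.of_surjective {G H : Type*} [Group G] [Group H] {m : ℕ} (f : G →* H)
    (hf : Function.Surjective f) (h : GR m G) : GR m H := by
  classical
  intro K
  obtain ⟨s, hs1, hs2⟩ := h (K.comap f)
  refine ⟨s.image f, Finset.card_image_le.trans hs1, ?_⟩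
  rw [Finset.coe_image, ← MonoidHom.map_closure, hs2, Subgroup.map_comap_eq_self_of_surjective hf]

theorem GR.of_rks {X : Type*} [Group X] {r : ℕ} {A : Subgroup X} (h : RKS r A) : GR r A := by
  intro K
  obtain ⟨s, hs1, hs2⟩ := h (K.map A.subtype) (Subgroup.map_subtype_le K)
  obtain ⟨s', h1, h2⟩ := lift_inj A.subtype (Subgroup.subtype_injective A) K s hs2
  exact ⟨s', h1.trans hs1, h2⟩

theorem GR.prod {G H : Type*} [Group G] [Group H] {m n : ℕ} (hG : GR m G) (hH : GR n H) :
    GR (m + n) (G × H) := by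
  classical
  intro K
  obtain ⟨s1, h1, h2⟩ := hG (K.map (MonoidHom.fst G H))
  obtain ⟨sQ, h3, h4, h5⟩ := lift_set (MonoidHom.fst G H) K s1 h2
  set L : Subgroup (G × H) := K ⊓ (MonoidHom.fst G H).ker with hL
  obtain ⟨s2, h6, h7⟩ := hH (L.map (MonoidHom.snd G H))
  obtain ⟨sN, h8, h9, h10⟩ := lift_set (MonoidHom.snd G H) L s2 h7
  have hQK : Subgroup.closure (sQ : Set (G × H)) ≤ K := by
    rw [Subgroup.closure_le]
    intro x hx
    exact h4 x (Finset.mem_coe.1 hx)
  have hNL : Subgroup.closure (sN : Set (G × H)) ≤ L := by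
    rw [Subgroup.closure_le]
    intro x hx
    exact h9 x (Finset.mem_coe.1 hx)
  have hLN : L ≤ Subgroup.closure (sN : Set (G × H)) := by
    intro x hx
    have hx1 : MonoidHom.snd G H x ∈ L.map (MonoidHom.snd G H) := Subgroup.mem_map_of_mem _ hx
    rw [← h7, ← h10, ← MonoidHom.map_closure] at hx1
    obtain ⟨w, hw1, hw2⟩ := Subgroup.mem_map.1 hx1
    have hw3 := hNL hw1
    have e1 : w.1 = 1 := hw3.2
    have e2 : x.1 = 1 := hx.2
    have e3 : w.2 = x.2 := hw2
    have e4 : x = w := Prod.ext (e2.trans e1.symm) e3.symm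
    rw [e4]
    exact hw1
  refine ⟨sQ ∪ sN, ?_, le_antisymm ?_ ?_⟩
  · refine (Finset.card_union_le _ _).trans ?_
    omega
  · rw [Finset.coe_union, Subgroup.closure_union, sup_le_iff]
    exact ⟨hQK, hNL.trans inf_le_left⟩
  · intro x hx
    rw [Finset.coe_union, Subgroup.closure_union]
    have hx1 : MonoidHom.fst G H x ∈ K.map (MonoidHom.fst G H) := Subgroup.mem_map_of_mem _ hx
    rw [← h2, ← h5, ← MonoidHom.map_closure] at hx1
    obtain ⟨w, hw1, hw2⟩ := Subgroup.mem_map.1 hx1
    have e : x = w * (w⁻¹ * x) := by group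
    rw [e]
    refine Subgroup.mul_mem_sup hw1 (hLN ⟨K.mul_mem (K.inv_mem (hQK hw1)) hx, ?_⟩)
    change MonoidHom.fst G H (w⁻¹ * x) = 1
    rw [map_mul, map_inv, hw2, inv_mul_cancel]

end EBAux

open EBAux P9700a P9700a.RankAux P9700a.CoverAux

theorem le_of_card {X : Type*} [Group X] [Finite X] {p : ℕ} [Fact p.Prime] (hX : IsPGroup p X)
    (A B : Subgroup X) (r : ℕ) (hA : RKS r A) (hB : RKS r B)
    (hAB : ∀ g : X, ∃ a ∈ A, ∃ b ∈ B, g = a * b) (E : Subgroup X) (hE : E.Normal)
    (hcomm : ∀ x ∈ E, ∀ y ∈ E, x * y = y * x) (hexp : ∀ x ∈ E, x ^ p = 1) (n : ℕ)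
    (hn : Nat.card E = p ^ n) : n ≤ 2 * r + r * (r + 1) * Nat.clog p n := by
  classical
  have := hE
  have hp : 1 < p := (Fact.out : p.Prime).one_lt
  set t := Nat.clog p n with ht
  have hnt : n ≤ p ^ t := Nat.le_pow_clog hp n
  -- the image of `H1`
  set E0 : Subgroup E := (dlH hcomm : H1 A B E →* E).range with hE0
  have hGRH1 : GR (r + r) (H1 A B E) :=
    GR.of_injective ((HH A B E).subtype.comp (H1 A B E).subtype)
      ((Subgroup.subtype_injective _).comp (Subgroup.subtype_injective _))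
      (GR.prod (GR.of_rks hA) (GR.of_rks hB))
  have hGRE0 : GR (r + r) E0 :=
    GR.of_surjective (dlH hcomm : H1 A B E →* E).rangeRestrict
      (MonoidHom.rangeRestrict_surjective _) hGRH1
  have hcE0 : Nat.card E0 ≤ p ^ (r + r) := by
    obtain ⟨s, hs1, hs2⟩ := hGRE0 ⊤
    have hs3 : Subgroup.closure ((s.image E0.subtype : Finset E) : Set E) = E0 := by
      rw [Finset.coe_image, ← MonoidHom.map_closure, hs2, ← MonoidHom.range_eq_map,
        Subgroup.range_subtype]
    have h1 := relIndex_le_pow (X := E) E0 ⊥ inferInstance bot_le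
      (by
        rw [Subgroup.commutator_le]
        intro a _ b _
        rw [Subgroup.mem_bot, commutatorElement_eq_one_iff_mul_comm]
        exact Subtype.ext (hcomm _ a.2 _ b.2))
      p (by omega)
      (by
        intro x _
        rw [Subgroup.mem_bot]
        exact Subtype.ext (hexp _ x.2))
      (s.image E0.subtype) (by rw [sup_bot_eq]; exact hs3)
    have h2 := h1.2
    rw [Subgroup.relIndex_bot_left] at h2
    refine h2.trans (Nat.pow_le_pow_right (by omega) ?_)
    exact Finset.card_image_le.trans hs1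
  -- the index of `H1`
  have hY : Nat.card (A ⧸ (Subgroup.centralizer (E : Set X)).subgroupOf A) ≤
      p ^ (t * r * (r + 1)) := by
    have hYp : IsPGroup p (A ⧸ (Subgroup.centralizer (E : Set X)).subgroupOf A) :=
      (hX.to_subgroup A).to_quotient _
    have hGRY : GR r (A ⧸ (Subgroup.centralizer (E : Set X)).subgroupOf A) :=
      GR.of_surjective (QuotientGroup.mk' _) (QuotientGroup.mk'_surjective _) (GR.of_rks hA)
    refine card_le_of_exp hYp r t (fun M _ _ => hGRY M) ?_
    intro y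
    obtain ⟨a, rfl⟩ := QuotientGroup.mk'_surjective _ y
    rw [← map_pow, QuotientGroup.mk'_apply, QuotientGroup.eq_one_iff, Subgroup.mem_subgroupOf,
      Subgroup.mem_centralizer_iff]
    intro x hx
    have h3 := pow_cent hX E hE hcomm hexp n hn t hnt (a : X) x hx
    rw [Subgroup.coe_pow]
    exact h3.symm
  have hidx : (H1 A B E).index ≤ p ^ (t * r * (r + 1)) := by
    unfold H1
    rw [Subgroup.index_comap]
    have hle : (pr A B E).range ≤ A := by
      rintro _ ⟨h, rfl⟩
      rw [pr_coe]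
      exact h.1.1.2
    refine le_trans (Subgroup.relIndex_le_of_le_right hle ?_) ?_
    · exact Subgroup.index_ne_zero_of_finite
    · exact hY
  -- the covering
  have hsur : Function.Surjective (fun x : (HH A B E ⧸ H1 A B E) × E0 =>
      (MulAut.conjNormal (pr A B E x.1.out) (x.2 : E) : E) * dl A B E x.1.out) := by
    intro m
    obtain ⟨h, rfl⟩ := dl_surj A B E hAB m
    set q : HH A B E ⧸ H1 A B E := (h : HH A B E ⧸ H1 A B E) with hq
    have h1 : q.out⁻¹ * h ∈ H1 A B E := by
      rw [← QuotientGroup.eq, hq]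
      exact Quotient.out_eq' _
    have h2 : h = q.out * (q.out⁻¹ * h) := by group
    refine ⟨(q, ⟨dl A B E (q.out⁻¹ * h), ⟨⟨_, h1⟩, rfl⟩⟩), ?_⟩
    apply Subtype.ext
    conv_rhs => rw [h2]
    rw [dl_mul]
    change ((MulAut.conjNormal (pr A B E q.out) (dl A B E (q.out⁻¹ * h)) : E) : X) *
      (dl A B E q.out : X) = _
    rw [MulAut.conjNormal_apply, pr_coe]
  have hcard := Nat.card_le_card_of_surjective _ hsur
  rw [Nat.card_prod, hn] at hcard
  have h5 : p ^ n ≤ p ^ (t * r * (r + 1) + (r + r)) := by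
    rw [pow_add]
    refine hcard.trans (Nat.mul_le_mul ?_ hcE0)
    exact hidx
  have h6 := (Nat.pow_le_pow_iff_right hp).1 h5
  nlinarith [h6]

end P9700d
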