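import Mathlib
import Pool.Agent.Lib.P9700d.Defs

/-!
# The family of normal subgroups of `p`-power index in a normal subgroup of finite index

`G1 = G0.normalCore` (normal, finite index, `≤ G0`). `𝒩 = {N : N normal in G, N ≤ G1, N.relIndex G1 is a power of p}`. `S` = the preimage in `G` of a Sylow `p`-subgroup of the finite group `G ⧸ G1`: `G1 ≤ S`, `G1.relIndex S` is a power of `p`,
`p ∤ S.index`. For `N ∈ 𝒩`: `N.relIndex S = N.relIndex G1 * G1.relIndex S` (`Subgroup.relIndex_mul_relIndex`), a power of `p`. `G1 ∈ 𝒩`. `N ⊓ N' ∈ 𝒩`: `G1 ⧸ (N ⊓ N')` embeds into `G1 ⧸ N × G1 ⧸ N'` (or: it is finite and every element has `p`-power order).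
Intersection: let `g ≠ 1`. If `g ∉ G1`, use `N = G1`. If `g ∈ G1 ≤ G0`, take `N0` normal in `G0`, of index `p^k`, `g ∉ N0`; `N1` = the image of `N0` in `G`, intersected with `G1`; `y^(p^k) ∈ N1` for all `y ∈ G1`, `N1` has finite index in `G`.
`N = N1.normalCore`: normal, finite index, `N ≤ G1`, `g ∉ N`; for `y ∈ G1` and `x ∈ G`: `(x⁻¹ y x)^(p^k) ∈ N1` because `G1` is normal, so `y^(p^k) ∈ N`: the finite group `G1 ⧸ N` has exponent dividing `p^k`, so `N.relIndex G1` is a power of `p`.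
-/

set_option autoImplicit false

namespace P9700d

namespace FamAux

theorem relIndex_dvd {G : Type*} [Group G] {N N' G1 : Subgroup G} (hN' : N'.Normal) (h : N ≤ G1) :
    N'.relIndex N ∣ N'.relIndex G1 := by
  have : (N'.subgroupOf G1).Normal := hN'.subgroupOf G1
  rw [← Subgroup.relIndex_subgroupOf h]
  exact Subgroup.relIndex_dvd_index_of_normal _ _

theorem inf_pow {G : Type*} [Group G] {p : ℕ} (hp : p.Prime) {N N' G1 : Subgroup G} (hN' : N'.Normal)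
    (h : N ≤ G1) (h1 : ∃ k : ℕ, N.relIndex G1 = p ^ k) (h2 : ∃ k : ℕ, N'.relIndex G1 = p ^ k) :
    ∃ k : ℕ, (N ⊓ N').relIndex G1 = p ^ k := by
  obtain ⟨k, hk⟩ := h1
  obtain ⟨l, hl⟩ := h2
  have h3 := relIndex_dvd hN' h
  rw [hl, Nat.dvd_prime_pow hp] at h3
  obtain ⟨m, -, hm⟩ := h3
  refine ⟨m + k, ?_⟩
  rw [← Subgroup.relIndex_mul_relIndex (N ⊓ N') N G1 inf_le_left h, Subgroup.inf_relIndex_left, hm, hk,
    pow_add]

theorem core_pow {G : Type*} [Group G] {p : ℕ} [Fact p.Prime] {N G1 : Subgroup G} [N.Normal] [N.FiniteIndex]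
    (k : ℕ) (h : ∀ y ∈ G1, y ^ (p ^ k) ∈ N) : ∃ k : ℕ, N.relIndex G1 = p ^ k := by
  have hpg : IsPGroup p (G1 ⧸ N.subgroupOf G1) := by
    intro q
    obtain ⟨y, rfl⟩ := QuotientGroup.mk_surjective q
    refine ⟨k, ?_⟩
    rw [← QuotientGroup.mk_pow, QuotientGroup.eq_one_iff, Subgroup.mem_subgroupOf]
    exact h y y.2
  exact (IsPGroup.iff_card.1 hpg)

end FamAux

open FamAux in
theorem exists_fam {G : Type*} [Group G] {p : ℕ} [Fact p.Prime] (G0 : Subgroup G)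
    (hfi : G0.FiniteIndex)
    (hres : ∀ g : G0, g ≠ 1 → ∃ N : Subgroup G0, N.Normal ∧ (∃ k : ℕ, N.index = p ^ k) ∧ g ∉ N) :
    ∃ (G1 S : Subgroup G) (𝒩 : Set (Subgroup G)), G1.Normal ∧ G1.FiniteIndex ∧ G1 ≤ S ∧
      ¬ p ∣ S.index ∧ 𝒩.Nonempty ∧ (∀ N ∈ 𝒩, ∀ N' ∈ 𝒩, N ⊓ N' ∈ 𝒩) ∧
      (∀ N ∈ 𝒩, N.Normal ∧ N.FiniteIndex ∧ N ≤ G1 ∧ ∃ k : ℕ, N.relIndex S = p ^ k) ∧
      (∀ g, (∀ N ∈ 𝒩, g ∈ N) → g = 1) := by
  have hp : p.Prime := Fact.out
  obtain ⟨P⟩ : Nonempty (Sylow p (G ⧸ G0.normalCore)) := inferInstance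
  have hmk : Function.Surjective (QuotientGroup.mk' G0.normalCore) := QuotientGroup.mk'_surjective _
  have hbot : (⊥ : Subgroup (G ⧸ G0.normalCore)).comap (QuotientGroup.mk' G0.normalCore) = G0.normalCore := by
    rw [MonoidHom.comap_bot, QuotientGroup.ker_mk']
  have hG1S : G0.normalCore ≤ (P : Subgroup (G ⧸ G0.normalCore)).comap (QuotientGroup.mk' G0.normalCore) := by
    exact hbot.symm.le.trans (Subgroup.comap_mono bot_le)
  have hrelS : ∃ k : ℕ, G0.normalCore.relIndex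
      ((P : Subgroup (G ⧸ G0.normalCore)).comap (QuotientGroup.mk' G0.normalCore)) = p ^ k := by
    obtain ⟨k, hk⟩ := IsPGroup.iff_card.1 P.2
    refine ⟨k, ?_⟩
    have h := Subgroup.relIndex_comap (⊥ : Subgroup (G ⧸ G0.normalCore)) (QuotientGroup.mk' G0.normalCore)
      ((P : Subgroup (G ⧸ G0.normalCore)).comap (QuotientGroup.mk' G0.normalCore))
    rw [hbot, Subgroup.relIndex_bot_left, Subgroup.map_comap_eq_self_of_surjective hmk] at h
    rw [h]
    exact hk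
  refine ⟨G0.normalCore, (P : Subgroup (G ⧸ G0.normalCore)).comap (QuotientGroup.mk' G0.normalCore),
    {N | N.Normal ∧ N ≤ G0.normalCore ∧ ∃ k : ℕ, N.relIndex G0.normalCore = p ^ k}, inferInstance, inferInstance,
    hG1S, ?_, ⟨G0.normalCore, inferInstance, le_rfl, 0, by rw [Subgroup.relIndex_self, pow_zero]⟩, ?_, ?_, ?_⟩
  · rw [Subgroup.index_comap_of_surjective _ hmk]
    exact P.not_dvd_index
  · rintro N ⟨h1, h2, h3⟩ N' ⟨h1', h2', h3'⟩
    exact ⟨inferInstance, inf_le_left.trans h2, inf_pow hp h1' h2 h3 h3'⟩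
  · rintro N ⟨h1, h2, k, h3⟩
    obtain ⟨l, hl⟩ := hrelS
    refine ⟨h1, ⟨?_⟩, h2, k + l, ?_⟩
    · rw [← Subgroup.relIndex_mul_index h2, h3]
      exact mul_ne_zero (pow_ne_zero _ hp.ne_zero) Subgroup.FiniteIndex.index_ne_zero
    · rw [← Subgroup.relIndex_mul_relIndex N G0.normalCore _ h2 hG1S, h3, hl, pow_add]
  · intro g hg
    by_contra hg1
    have hgG1 : g ∈ G0.normalCore :=
      hg _ ⟨inferInstance, le_rfl, 0, by rw [Subgroup.relIndex_self, pow_zero]⟩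
    have hgG0 : g ∈ G0 := G0.normalCore_le hgG1
    obtain ⟨N0, hN0, ⟨k, hk⟩, hgN0⟩ := hres ⟨g, hgG0⟩ (fun h => hg1 (congrArg Subtype.val h))
    have hfi1 : (N0.map G0.subtype).FiniteIndex := ⟨by
      rw [Subgroup.index_map_subtype, hk]
      exact mul_ne_zero (pow_ne_zero _ hp.ne_zero) Subgroup.FiniteIndex.index_ne_zero⟩
    have hN : (N0.map G0.subtype ⊓ G0.normalCore).normalCore ∈
        {N : Subgroup G | N.Normal ∧ N ≤ G0.normalCore ∧ ∃ k : ℕ, N.relIndex G0.normalCore = p ^ k} := by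
      refine ⟨inferInstance, (Subgroup.normalCore_le _).trans inf_le_right, core_pow k fun y hy b => ?_⟩
      rw [← conj_pow]
      have hz : b * y * b⁻¹ ∈ G0.normalCore := (inferInstance : G0.normalCore.Normal).conj_mem y hy b
      refine ⟨⟨⟨b * y * b⁻¹, G0.normalCore_le hz⟩ ^ (p ^ k), ?_, rfl⟩, G0.normalCore.pow_mem hz _⟩
      have := Subgroup.pow_index_mem N0 (⟨b * y * b⁻¹, G0.normalCore_le hz⟩ : G0)
      rwa [hk] at this
    have h1 := Subgroup.normalCore_le _ (hg _ hN)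
    obtain ⟨z, hz, hzg⟩ := h1.1
    exact hgN0 (by
      have : z = ⟨g, hgG0⟩ := Subtype.ext hzg
      rwa [this] at hz)

end P9700d
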