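import Mathlib
import Pool.Agent.Lib.P9700d.Defs
import Pool.Agent.Lib.P9700d.DirS

/-!
# Construction of the filtration

`𝒩`: a directed family of normal subgroups of finite index contained in `V`, with trivial intersection. For a subgroup `L` put `cl L = ⨅ N ∈ 𝒩, (pw p L ⊔ N)`. Define `L 0 = V`, `L (i+1) = cl (L i)`.

CLAIM (by induction on `i`): `L i` is normal, of finite index, `L i ≤ V`, and it contains some `N1 ∈ 𝒩`. For `N ∈ 𝒩`, `N ≤ N1`: `pw p (L i) ⊔ N ≤ L i` has relative index `≤ p^e` in `L i` (`hrk`), nonzero because `N` has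
finite index. By `exists_stab` (`U N = pw p (L i) ⊔ N`, monotone in `N`) there is `N0 ∈ 𝒩`, `N0 ≤ N1`, with `pw p (L i) ⊔ N0 ≤ pw p (L i) ⊔ N` for all `N ∈ 𝒩`, so `L (i+1) = pw p (L i) ⊔ N0`, and also
`L (i+1) = pw p (L i) ⊔ N` for every `N ∈ 𝒩` with `N ≤ N0` (*). So `L (i+1)` is normal, of finite index, contains `N0`, and `L (i+1) ≤ L i`.

`pow`: `x ∈ L i ⇒ x^p ∈ pw p (L i) ≤ L (i+1)`.
`comm`, `j = 0`: `⁅L i, V⁆ ≤ L (i+2)`: by (*) choose `N ∈ 𝒩` small, `N ≤ L i`, with `L (i+2) = pw p (L (i+1)) ⊔ N`; `⁅L i, V⁆ ≤ pw (p^2) (L i) ⊔ N` (`hPE`) and `x^(p^2) = (x^p)^p ∈ pw p (L (i+1))` for `x ∈ L i`.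
`comm`, induction on `j` (for all `i`): let `⁅L i, L j⁆ ≤ L (i+j+2)` for all `i`; show `⁅L i, L (j+1)⁆ ≤ L (i+j+3)`. The `y ∈ G` with `⁅g, y⁆ ∈ L (i+j+3)` for all `g ∈ L i` form a subgroup (`L (i+j+3)` normal; cf. `VV` in Defs.lean); it contains
some `N ∈ 𝒩` (those `N ≤ L (i+j+3)`, normal), so by (*) it is enough that it contains `x^p`, `x ∈ L j`. Put `g x g⁻¹ = x z`, `z = x⁻¹ g x g⁻¹ ∈ ⁅L j, L i⁆ ≤ L (i+j+2)`. `⁅x, z⁆ ∈ ⁅L j, L (i+j+2)⁆ ≤ L (i+2j+4) ≤ L (i+j+3)` (`Subgroup.commutator_comm`,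
antitone): modulo the normal subgroup `L (i+j+3)` `x` and `z` commute, so `g x^p g⁻¹ = (x z)^p ≡ x^p z^p ≡ x^p`, as `z^p ∈ L (i+j+3)`. So `⁅g, x^p⁆ = g x^p g⁻¹ x^(-p) ∈ L (i+j+3)`.
`surj`: by (*) `L (i+1) = pw p (L i) ⊔ N` with `N ≤ L (i+2)`, `N ∈ 𝒩`. Modulo `L (i+2)` the elements of `L i` commute (`⁅L i, L i⁆ ≤ L (2i+2) ≤ L (i+2)`), so products and inverses of `p`-th powers of elements of `L i` are again
`p`-th powers of elements of `L i` modulo `L (i+2)` (closure induction).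
`int`: let `g ∈ L i` for all `i` and `N ∈ 𝒩`; show `g ∈ N` (then `hint`). `(L i ⊔ N).relIndex`: if `L i ⊔ N ≠ N`, i.e. `¬ L i ≤ N`, then `L (i+1) ⊔ N < L i ⊔ N`: `L (i+1) ⊔ N = pw p (L i) ⊔ N` by the definition of `cl` (`L (i+1) ≤ pw p (L i) ⊔ N`
and `≥` clear), and `(L i ⊔ N) / N` is a nontrivial finite `p`-group (`hp`), so it has a subgroup of index `p`, normal (`Sylow`/nilpotent), which contains all `p`-th powers. As `G / N` is finite, `L i ≤ N` for some `i`.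
-/

set_option autoImplicit false

open scoped commutatorElement

namespace P9700d

namespace FilEAux

variable {G : Type*} [Group G] {p : ℕ}

/-- the stable closure -/
def cl (p : ℕ) (𝒩 : Set (Subgroup G)) (L : Subgroup G) : Subgroup G := ⨅ N ∈ 𝒩, (pw p L ⊔ N)

theorem cl_le {𝒩 : Set (Subgroup G)} {N : Subgroup G} (hN : N ∈ 𝒩) (L : Subgroup G) :
    cl p 𝒩 L ≤ pw p L ⊔ N := iInf₂_le N hN

theorem le_cl {𝒩 : Set (Subgroup G)} {K L : Subgroup G} (h : ∀ N ∈ 𝒩, K ≤ pw p L ⊔ N) :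
    K ≤ cl p 𝒩 L := le_iInf₂ h

/-- the chain -/
def LL (p : ℕ) (𝒩 : Set (Subgroup G)) (V : Subgroup G) : ℕ → Subgroup G
  | 0 => V
  | i + 1 => cl p 𝒩 (LL p 𝒩 V i)

/-- the inductive property -/
structure Pr (V : Subgroup G) (𝒩 : Set (Subgroup G)) (L : Subgroup G) : Prop where
  norm : L.Normal
  fi : L.FiniteIndex
  le : L ≤ V
  ex : ∃ N ∈ 𝒩, N ≤ L

theorem step (e : ℕ) {V : Subgroup G} {𝒩 : Set (Subgroup G)}
    (hdir : ∀ N ∈ 𝒩, ∀ N' ∈ 𝒩, ∃ N'' ∈ 𝒩, N'' ≤ N ∧ N'' ≤ N') (hnorm : ∀ N ∈ 𝒩, N.Normal)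
    (hfi : ∀ N ∈ 𝒩, N.FiniteIndex)
    (hrk : ∀ N ∈ 𝒩, ∀ M : Subgroup G, M.Normal → N ≤ M → M ≤ V →
      (pw p M ⊔ N).relIndex M ≤ p ^ e) {L : Subgroup G} (h : Pr V 𝒩 L) :
    Pr V 𝒩 (cl p 𝒩 L) ∧ cl p 𝒩 L ≤ L ∧
      ∃ N0 ∈ 𝒩, ∀ N ∈ 𝒩, N ≤ N0 → cl p 𝒩 L = pw p L ⊔ N := by
  obtain ⟨N1, hN1, hN1L⟩ := h.ex
  have hmono : ∀ N ∈ 𝒩, ∀ N' ∈ 𝒩, N ≤ N' → pw p L ⊔ N ≤ pw p L ⊔ N' :=
    fun N _ N' _ hNN => sup_le_sup_left hNN _
  have hN : ∀ N ∈ 𝒩, N ≤ N1 → (pw p L ⊔ N) ≤ L ∧ (pw p L ⊔ N).relIndex L ≠ 0 ∧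
      (pw p L ⊔ N).relIndex L ≤ p ^ e := by
    intro N hN hle
    refine ⟨sup_le (pw_le p L) (hle.trans hN1L), ?_, hrk N hN L h.norm (hle.trans hN1L) h.le⟩
    have := hfi N hN
    have : (pw p L ⊔ N).FiniteIndex := Subgroup.finiteIndex_of_le (le_sup_right : N ≤ _)
    have := Subgroup.isFiniteRelIndex_of_finiteIndex (H := pw p L ⊔ N) (K := L)
    exact Subgroup.relIndex_ne_zero
  obtain ⟨N0, hN0, hN01, hst⟩ := exists_stab 𝒩 hdir (fun N => pw p L ⊔ N) hmono L (p ^ e) N1 hN1 hN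
  have heq : cl p 𝒩 L = pw p L ⊔ N0 := le_antisymm (cl_le hN0 L) (le_cl hst)
  refine ⟨⟨?_, ?_, ?_, N0, hN0, ?_⟩, ?_, N0, hN0, ?_⟩
  · rw [heq]
    have := h.norm
    have := hnorm N0 hN0
    infer_instance
  · rw [heq]
    have := hfi N0 hN0
    exact Subgroup.finiteIndex_of_le (le_sup_right : N0 ≤ _)
  · rw [heq]
    exact (hN N0 hN0 hN01).1.trans h.le
  · rw [heq]
    exact le_sup_right
  · rw [heq]
    exact (hN N0 hN0 hN01).1
  · intro N hN' hle
    rw [heq]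
    exact le_antisymm (hst N hN') (hmono N hN' N0 hN0 hle)

theorem pw_map {X Y : Type*} [Group X] [Group Y] (f : X →* Y) (m : ℕ) (M : Subgroup X) :
    pw m (M.map f) = (pw m M).map f := by
  unfold pw
  rw [MonoidHom.map_closure]
  congr 1
  ext y
  constructor
  · rintro ⟨_, ⟨x, hx, rfl⟩, rfl⟩
    refine ⟨x ^ m, ⟨x, hx, rfl⟩, ?_⟩
    exact map_pow f x m
  · rintro ⟨_, ⟨x, hx, rfl⟩, rfl⟩
    refine ⟨f x, ⟨x, hx, rfl⟩, ?_⟩
    exact (map_pow f x m).symm

/-- a finite `p`-group generated by its `p`-th powers is trivial -/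
theorem pgroup_triv [hp : Fact p.Prime] {X : Type*} [Group X] [Finite X] (hX : IsPGroup p X)
    (h : pw p (⊤ : Subgroup X) = ⊤) : Nat.card X = 1 := by
  obtain ⟨n, hn⟩ := IsPGroup.iff_card.1 hX
  rcases Nat.eq_zero_or_pos n with h0 | h0
  · rw [hn, h0, pow_zero]
  · exfalso
    obtain ⟨m, rfl⟩ : ∃ m, n = m + 1 := ⟨n - 1, by omega⟩
    obtain ⟨K, hK⟩ := Sylow.exists_subgroup_card_pow_prime p (G := X) (n := m)
      (by rw [hn]; exact pow_dvd_pow p (Nat.le_succ m))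
    have hidx : K.index = p := by
      have h1 := K.card_mul_index
      rw [hn, hK, pow_succ] at h1
      exact Nat.eq_of_mul_eq_mul_left (pow_pos hp.out.pos m) h1
    have hKn : K.Normal := by
      apply Subgroup.normal_of_index_eq_minFac_card
      rw [hidx, hn, Nat.Prime.pow_minFac hp.out (Nat.succ_ne_zero m)]
    have h2 : pw p (⊤ : Subgroup X) ≤ K := by
      rw [pw_le_iff]
      intro x _
      have := K.pow_index_mem x
      rwa [hidx] at this
    rw [h, top_le_iff] at h2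
    rw [h2, Subgroup.index_top] at hidx
    exact hp.out.one_lt.ne hidx

theorem le_of_le_pw [Fact p.Prime] {L N : Subgroup G} [hN : N.Normal] [N.FiniteIndex]
    (hp : ∀ v ∈ L, ∃ k : ℕ, v ^ (p ^ k) ∈ N) (h : L ≤ pw p L ⊔ N) : L ≤ N := by
  have : Finite (G ⧸ N) := Subgroup.finite_quotient_of_finiteIndex
  set H : Subgroup (G ⧸ N) := L.map (QuotientGroup.mk' N) with hH
  have hHp : IsPGroup p H := by
    rintro ⟨_, x, hx, rfl⟩
    obtain ⟨k, hk⟩ := hp x hx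
    refine ⟨k, ?_⟩
    apply Subtype.ext
    change (QuotientGroup.mk' N x) ^ (p ^ k) = 1
    rw [← map_pow]
    exact (QuotientGroup.eq_one_iff _).2 hk
  have hNb : N.map (QuotientGroup.mk' N) = ⊥ := by
    rw [Subgroup.map_eq_bot_iff, QuotientGroup.ker_mk']
  have hHpw : H ≤ pw p H := by
    have h1 := Subgroup.map_mono (f := QuotientGroup.mk' N) h
    rw [Subgroup.map_sup, hNb, sup_bot_eq] at h1
    rw [hH, pw_map]
    exact h1
  have htop : pw p (⊤ : Subgroup H) = ⊤ := by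
    have h3 : (pw p (⊤ : Subgroup H)).map H.subtype = H := by
      rw [← pw_map, ← MonoidHom.range_eq_map, Subgroup.range_subtype]
      exact le_antisymm (pw_le p H) hHpw
    apply Subgroup.map_injective H.subtype_injective
    rw [h3, ← MonoidHom.range_eq_map, Subgroup.range_subtype]
  have hc := pgroup_triv hHp htop
  have hbot : H = ⊥ := Subgroup.card_eq_one.1 hc
  rw [hH, Subgroup.map_eq_bot_iff, QuotientGroup.ker_mk'] at hbot
  exact hbot

/-- a power of `x z` when `x` and `z` commute modulo a normal subgroup -/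
theorem mk_mul_pow {H : Subgroup G} [hH : H.Normal] {x z : G} (h : ⁅x, z⁆ ∈ H) (n : ℕ) :
    QuotientGroup.mk' H ((x * z) ^ n) =
      QuotientGroup.mk' H (x ^ n) * QuotientGroup.mk' H (z ^ n) := by
  have hc : Commute (QuotientGroup.mk' H x) (QuotientGroup.mk' H z) := by
    rw [← commutatorElement_eq_one_iff_commute, ← map_commutatorElement]
    exact (QuotientGroup.eq_one_iff _).2 h
  rw [map_pow, map_mul, hc.mul_pow, map_pow, map_pow]

theorem mem_of_mk {H : Subgroup G} [hH : H.Normal] {x : G} (h : QuotientGroup.mk' H x = 1) :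
    x ∈ H := (QuotientGroup.eq_one_iff x).1 h

theorem mk_of_mem {H : Subgroup G} [hH : H.Normal] {x : G} (h : x ∈ H) :
    QuotientGroup.mk' H x = 1 := (QuotientGroup.eq_one_iff x).2 h

/-- the elements that commute with `A` modulo `H` -/
def CC (A H : Subgroup G) (hH : H.Normal) : Subgroup G where
  carrier := {y | ∀ g ∈ A, ⁅g, y⁆ ∈ H}
  one_mem' := by
    intro g _
    rw [commutatorElement_one_right]
    exact H.one_mem
  mul_mem' := by
    intro y z hy hz g hg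
    have e : ⁅g, y * z⁆ = ⁅g, y⁆ * (y * ⁅g, z⁆ * y⁻¹) := by
      simp only [commutatorElement_def]
      group
    rw [e]
    exact H.mul_mem (hy g hg) (hH.conj_mem _ (hz g hg) y)
  inv_mem' := by
    intro y hy g hg
    have e : ⁅g, y⁻¹⁆ = y⁻¹ * ⁅g, y⁆⁻¹ * y⁻¹⁻¹ := by
      simp only [commutatorElement_def]
      group
    rw [e]
    exact hH.conj_mem _ (H.inv_mem (hy g hg)) y⁻¹

end FilEAux

open FilEAux

theorem exists_fil {G : Type*} [Group G] {p : ℕ} [Fact p.Prime] (e : ℕ) (V : Subgroup G)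
    (hVn : V.Normal) (hVi : V.FiniteIndex) (𝒩 : Set (Subgroup G)) (hne : 𝒩.Nonempty)
    (hdir : ∀ N ∈ 𝒩, ∀ N' ∈ 𝒩, ∃ N'' ∈ 𝒩, N'' ≤ N ∧ N'' ≤ N') (hnorm : ∀ N ∈ 𝒩, N.Normal)
    (hfi : ∀ N ∈ 𝒩, N.FiniteIndex) (hV : ∀ N ∈ 𝒩, N ≤ V)
    (hp : ∀ N ∈ 𝒩, ∀ v ∈ V, ∃ k : ℕ, v ^ (p ^ k) ∈ N) (hint : ∀ g, (∀ N ∈ 𝒩, g ∈ N) → g = 1)
    (hPE : ∀ N ∈ 𝒩, ∀ M : Subgroup G, M.Normal → N ≤ M → M ≤ V → ⁅M, V⁆ ≤ pw (p ^ 2) M ⊔ N)
    (hrk : ∀ N ∈ 𝒩, ∀ M : Subgroup G, M.Normal → N ≤ M → M ≤ V →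
      (pw p M ⊔ N).relIndex M ≤ p ^ e) :
    ∃ L : ℕ → Subgroup G, L 0 = V ∧ Fil p L := by
  classical
  set L := LL p 𝒩 V with hL
  have hPr : ∀ i, Pr V 𝒩 (L i) := by
    intro i
    induction i with
    | zero =>
      obtain ⟨N, hN⟩ := hne
      exact ⟨hVn, hVi, le_refl _, N, hN, hV N hN⟩
    | succ i ih => exact (step e hdir hnorm hfi hrk ih).1
  have hanti1 : ∀ i, L (i + 1) ≤ L i := fun i => (step e hdir hnorm hfi hrk (hPr i)).2.1
  have hanti : ∀ {i j}, i ≤ j → L j ≤ L i := fun hij => antitone_nat_of_succ_le hanti1 hij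
  have hcl : ∀ i, ∀ N ∈ 𝒩, L (i + 1) ≤ pw p (L i) ⊔ N := fun i N hN => cl_le hN (L i)
  have hstar : ∀ i k, ∃ N ∈ 𝒩, N ≤ L k ∧ L (i + 1) = pw p (L i) ⊔ N := by
    intro i k
    obtain ⟨N0, hN0, h0⟩ := (step e hdir hnorm hfi hrk (hPr i)).2.2
    obtain ⟨N1, hN1, h1⟩ := (hPr k).ex
    obtain ⟨N, hN, h2, h3⟩ := hdir N0 hN0 N1 hN1
    exact ⟨N, hN, h3.trans h1, h0 N hN h2⟩
  have hpow : ∀ i, ∀ x ∈ L i, x ^ p ∈ L (i + 1) := by
    intro i x hx
    obtain ⟨N, hN, _, h1⟩ := hstar i i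
    rw [h1]
    exact (le_sup_left : pw p (L i) ≤ _) (pow_mem_pw hx)
  have hcomm : ∀ j i, ⁅L i, L j⁆ ≤ L (i + j + 2) := by
    intro j
    induction j with
    | zero =>
      intro i
      obtain ⟨N, hN, hNi, h1⟩ := hstar (i + 1) i
      have h2 := hPE N hN (L i) (hPr i).norm hNi (hPr i).le
      have h3 : pw (p ^ 2) (L i) ≤ pw p (L (i + 1)) := by
        rw [pw_le_iff]
        intro x hx
        rw [pow_two, pow_mul]
        exact pow_mem_pw (hpow i x hx)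
      change ⁅L i, V⁆ ≤ L (i + 1 + 1)
      rw [h1]
      exact h2.trans (sup_le_sup_right h3 N)
    | succ j ih =>
      intro i
      have hH : (L (i + j + 3)).Normal := (hPr _).norm
      obtain ⟨N, hN, hNi, h1⟩ := hstar j (i + j + 3)
      have h2 : L (j + 1) ≤ CC (L i) (L (i + j + 3)) hH := by
        rw [h1]
        apply sup_le
        · rw [pw_le_iff]
          intro x hx g hg
          have hz1 : ⁅x⁻¹, g⁆ ∈ L (i + j + 2) := by
            apply ih i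
            rw [Subgroup.commutator_comm]
            exact Subgroup.commutator_mem_commutator ((L j).inv_mem hx) hg
          have hz2 : ⁅x, ⁅x⁻¹, g⁆⁆ ∈ L (i + j + 3) := by
            have h3 := ih (i + j + 2)
            have h4 : ⁅x, ⁅x⁻¹, g⁆⁆ ∈ ⁅L (i + j + 2), L j⁆ := by
              rw [Subgroup.commutator_comm]
              exact Subgroup.commutator_mem_commutator hx hz1
            exact hanti (by omega) (h3 h4)
          have hz3 : ⁅x⁻¹, g⁆ ^ p ∈ L (i + j + 3) := hpow _ _ hz1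
          apply mem_of_mk
          have e1 : ⁅g, x ^ p⁆ = (x * ⁅x⁻¹, g⁆) ^ p * (x ^ p)⁻¹ := by
            have e2 : x * ⁅x⁻¹, g⁆ = g * x * g⁻¹ := by
              simp only [commutatorElement_def]
              group
            rw [e2, conj_pow, commutatorElement_def]
          rw [e1, map_mul, mk_mul_pow hz2, mk_of_mem hz3, mul_one, ← map_mul, mul_inv_cancel,
            map_one]
        · intro y hy g _
          apply hNi
          have hNn := hnorm N hN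
          have h5 : ⁅g, y⁆ = (g * y * g⁻¹) * y⁻¹ := by rw [commutatorElement_def]
          rw [h5]
          exact N.mul_mem (hNn.conj_mem y hy g) (N.inv_mem hy)
      rw [Subgroup.commutator_le]
      intro g hg y hy
      exact h2 hy g hg
  have hsurj : ∀ i, ∀ y ∈ L (i + 1), ∃ x ∈ L i, ∃ z ∈ L (i + 2), y = x ^ p * z := by
    intro i
    have hH : (L (i + 2)).Normal := (hPr _).norm
    obtain ⟨N, hN, hNi, h1⟩ := hstar i (i + 2)
    have hcm : ∀ x ∈ L i, ∀ x' ∈ L i, ⁅x, x'⁆ ∈ L (i + 2) := by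
      intro x hx x' hx'
      exact hanti (by omega) (hcomm i i (Subgroup.commutator_mem_commutator hx hx'))
    let S : Subgroup G :=
      { carrier := {y | ∃ x ∈ L i, ∃ z ∈ L (i + 2), y = x ^ p * z}
        one_mem' := ⟨1, (L i).one_mem, 1, (L (i + 2)).one_mem, by simp⟩
        mul_mem' := by
          rintro _ _ ⟨x, hx, z, hz, rfl⟩ ⟨x', hx', z', hz', rfl⟩
          refine ⟨x * x', (L i).mul_mem hx hx',
            ((x * x') ^ p)⁻¹ * (x ^ p * z * (x' ^ p * z')), ?_, by group⟩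
          apply mem_of_mk
          rw [map_mul, map_inv, mk_mul_pow (hcm x hx x' hx'), map_mul, map_mul, map_mul,
            mk_of_mem hz, mk_of_mem hz', mul_one, mul_one, inv_mul_cancel]
        inv_mem' := by
          rintro _ ⟨x, hx, z, hz, rfl⟩
          refine ⟨x⁻¹, (L i).inv_mem hx, (x⁻¹ ^ p)⁻¹ * (x ^ p * z)⁻¹, ?_, by group⟩
          apply mem_of_mk
          rw [map_mul, map_inv, map_inv, map_mul, mk_of_mem hz, mul_one, inv_pow, map_inv, inv_inv,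
            mul_inv_cancel] }
    intro y hy
    have h2 : L (i + 1) ≤ S := by
      rw [h1]
      apply sup_le
      · rw [pw_le_iff]
        intro x hx
        exact ⟨x, hx, 1, (L (i + 2)).one_mem, by simp⟩
      · intro z hz
        exact ⟨1, (L i).one_mem, z, hNi hz, by simp⟩
    exact h2 hy
  refine ⟨L, rfl, ⟨fun i => (hPr i).norm, fun i => (hPr i).fi, hanti1, fun i j => hcomm j i, hpow,
    hsurj, ?_⟩⟩
  intro g hg
  apply hint
  intro N hN
  have hNn := hnorm N hN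
  have hNf := hfi N hN
  have hex : ∃ i, L i ≤ N := by
    by_contra hcon
    push Not at hcon
    have hlt : ∀ i, L (i + 1) ⊔ N < L i ⊔ N := by
      intro i
      refine lt_of_le_of_ne (sup_le_sup_right (hanti1 i) N) ?_
      intro heq
      apply hcon i
      apply le_of_le_pw (p := p) (fun v hv => hp N hN v ((hPr i).le hv))
      calc L i ≤ L i ⊔ N := le_sup_left
        _ = L (i + 1) ⊔ N := heq.symm
        _ ≤ pw p (L i) ⊔ N := sup_le (hcl i N hN) le_sup_right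
    have hidx : ∀ i, i < (L i ⊔ N).index := by
      intro i
      induction i with
      | zero =>
        have : (L 0 ⊔ N).FiniteIndex := Subgroup.finiteIndex_of_le (le_sup_right : N ≤ _)
        exact Nat.pos_of_ne_zero Subgroup.FiniteIndex.index_ne_zero
      | succ i ih =>
        have : (L (i + 1) ⊔ N).FiniteIndex := Subgroup.finiteIndex_of_le (le_sup_right : N ≤ _)
        have := Subgroup.index_strictAnti (hlt i)
        omega
    have h1 := hidx N.index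
    have h2 : (L N.index ⊔ N).index ≤ N.index := Subgroup.index_antitone le_sup_right
    omega
  obtain ⟨i, hi⟩ := hex
  exact hi (hg i)

end P9700d
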