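import Mathlib
import Pool.Agent.Lib.P9700a.Defs
import Pool.Agent.Lib.P9700a.Rank
import Pool.Agent.Lib.P9700a.Cover
import Pool.Agent.Lib.P9700b.MainV
import Pool.Agent.Lib.P9700c.FinC

/-!
# From a representation with small kernel to the group

* `fr_vs_of_linear`: linear groups of characteristic zero (restatement of `main_plat`).
* `fr_vs_of_range`: the same for the image of a representation.
* `final`: the kernel of the representation centralises a normal subgroup `L` of finite index.
-/

set_option autoImplicit false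

universe u v

namespace P9700d

open P9700a

theorem fr_vs_of_linear {F : Type u} [Field F] [CharZero F] {n : ℕ} {G : Type v} [Group G]
    (ρ : G →* Matrix.GeneralLinearGroup (Fin n) F) (hρ : Function.Injective ρ)
    (A B : Subgroup G) (hA : FR A) (hB : FR B) (hAB : ∀ g : G, ∃ a ∈ A, ∃ b ∈ B, g = a * b) :
    FR G ∧ VS G := by
  let E := AlgebraicClosure F
  let ε : G →* Matrix.GeneralLinearGroup (Fin n) E :=
    (Matrix.GeneralLinearGroup.map (algebraMap F E)).comp ρ
  have hε : Function.Injective ε := by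
    intro x y h
    refine hρ (Units.ext ?_)
    have h1 := congrArg (fun z : Matrix.GeneralLinearGroup (Fin n) E =>
      (z : Matrix (Fin n) (Fin n) E)) h
    ext i j
    have h2 := congrFun (congrFun h1 i) j
    exact (algebraMap F E).injective h2
  let σ : G →* Module.End E (Fin n → E) :=
    ((Matrix.toLinAlgEquiv' : Matrix (Fin n) (Fin n) E ≃ₐ[E] _) : _ →* _).comp
      ((Units.coeHom (Matrix (Fin n) (Fin n) E)).comp ε)
  have hσ : ∀ g : G, σ g = Matrix.toLin' ((ε g : Matrix (Fin n) (Fin n) E)) := fun g => rfl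
  have hσi : Function.Injective σ := by
    intro x y h
    rw [hσ, hσ] at h
    exact hε (Units.ext (Matrix.toLin'.injective h))
  exact main_plat E G (Fin n → E) σ hσi A B hA hB hAB

theorem fr_vs_of_range {F : Type u} [Field F] [CharZero F] {n : ℕ} {G : Type v} [Group G]
    (ρ : G →* Matrix.GeneralLinearGroup (Fin n) F)
    (A B : Subgroup G) (hA : FR A) (hB : FR B) (hAB : ∀ g : G, ∃ a ∈ A, ∃ b ∈ B, g = a * b) :
    FR ρ.range ∧ VS ρ.range := by
  refine fr_vs_of_linear ρ.range.subtype ρ.range.subtype_injective (A.map ρ.rangeRestrict)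
    (B.map ρ.rangeRestrict) ?_ ?_ ?_
  · exact FR.of_surjective (ρ.rangeRestrict.subgroupMap A) (MonoidHom.subgroupMap_surjective _ _) hA
  · exact FR.of_surjective (ρ.rangeRestrict.subgroupMap B) (MonoidHom.subgroupMap_surjective _ _) hB
  · intro g
    obtain ⟨x, rfl⟩ := ρ.rangeRestrict_surjective g
    obtain ⟨a, ha, b, hb, rfl⟩ := hAB x
    exact ⟨_, Subgroup.mem_map_of_mem _ ha, _, Subgroup.mem_map_of_mem _ hb, map_mul _ _ _⟩

/-- a normal abelian subgroup of finite rank modulo which everything is fine -/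
theorem VS_of_finite {G : Type*} [Group G] [Finite G] : VS G :=
  ⟨⊥, inferInstance, inferInstance⟩

theorem final {F : Type u} [Field F] [CharZero F] {n : ℕ} {G : Type v} [Group G]
    (ρ : G →* Matrix.GeneralLinearGroup (Fin n) F)
    (A B : Subgroup G) (hA : FR A) (hB : FR B) (hAB : ∀ g : G, ∃ a ∈ A, ∃ b ∈ B, g = a * b)
    (L : Subgroup G) (hLn : L.Normal) (hLi : L.FiniteIndex)
    (hker : ∀ g, ρ g = 1 → ∀ x ∈ L, x * g = g * x) : FR G ∧ VS G := by
  obtain ⟨h1, h2⟩ := fr_vs_of_range ρ A B hA hB hAB
  set N : Subgroup G := ρ.ker ⊓ L with hN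
  have hNn : N.Normal := inferInstance
  have hab : ∀ x ∈ N, ∀ y ∈ N, x * y = y * x := fun x hx y hy => hker y hy.1 x hx.2
  have hcent : (Subgroup.centralizer (N : Set G)).FiniteIndex := by
    refine Subgroup.finiteIndex_of_le (H := L) ?_
    intro x hx
    rw [Subgroup.mem_centralizer_iff]
    intro y hy
    exact (hker y hy.1 x hx).symm
  have hFN : FR N := FR_of_cent A B N hA hB hAB hab hcent
  constructor
  · refine FR.of_ker_range ρ ?_ h1
    have hfi : (N.subgroupOf ρ.ker).FiniteIndex := by
      have e : N.subgroupOf ρ.ker = L.subgroupOf ρ.ker := by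
        rw [hN, Subgroup.inf_subgroupOf_left]
      rw [e]
      infer_instance
    refine FR.of_finiteIndex (N.subgroupOf ρ.ker) ?_
    exact FR.of_injective (Subgroup.subgroupOfEquivOfLe (inf_le_left : N ≤ ρ.ker)).toMonoidHom
      (Subgroup.subgroupOfEquivOfLe (inf_le_left : N ≤ ρ.ker)).injective hFN
  · refine MainVAux.VS_of_two ρ.rangeRestrict (QuotientGroup.mk' L) N ?_ ?_ h2 ?_
    · intro g h3 h4
      refine ⟨?_, ?_⟩
      · exact congrArg Subtype.val h3
      · exact (QuotientGroup.eq_one_iff g).1 h4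
    · exact Group.isSolvable_of_comm fun a b => Subtype.ext (hab a.1 a.2 b.1 b.2)
    · exact VS_of_finite

end P9700d
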