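import Mathlib

/-!
# Finite abelian groups which are free over `ℤ / p^k`

`T` finite abelian, `p^k T = 0`, `|T / pT| = p^D`, `|T| = p^(D k)`. `T / pT` is a vector space over `ZMod p` of dimension `D`; lift a basis to `b : Fin D → T`. `T` is a `ZMod (p^k)`-module (`AddCommGroup.zmodModule`). The subgroup `T0` generated by the
`b i` satisfies `T0 + pT = T`, hence `T0 = T` (iterate: `T = T0 + p^j T` for all `j`, and `p^k T = 0`). So `(Fin D → ZMod (p^k)) → T`, `c ↦ ∑ c i • b i` is onto; both sides have `p^(k D)` elements, so it is bijective (`Function.Surjective.bijective_of_nat_card_le` or `Nat.bijective_iff_surjective_and_card`).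
-/

set_option autoImplicit false

namespace P9700d

namespace FreeAAux

theorem exists_basis {V : Type*} [AddCommGroup V] [Finite V] {p : ℕ} [Fact p.Prime] (D : ℕ)
    [Module (ZMod p) V] (hcard : Nat.card V = p ^ D) :
    ∃ b : Fin D → V, ∀ v : V, ∃ c : Fin D → ℕ, v = ∑ i, c i • b i := by
  classical
  haveI : Fintype V := Fintype.ofFinite _
  haveI : Module.Finite (ZMod p) V := Module.Finite.of_finite
  have hfr : Module.finrank (ZMod p) V = D := by
    have h1 := Module.card_eq_pow_finrank (K := ZMod p) (V := V)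
    rw [← Nat.card_eq_fintype_card, ← Nat.card_eq_fintype_card, hcard, Nat.card_zmod] at h1
    exact (Nat.pow_right_injective (Fact.out : p.Prime).two_le h1).symm
  let B : Module.Basis (Fin D) (ZMod p) V := Module.finBasisOfFinrankEq (ZMod p) V hfr
  refine ⟨fun i => B i, fun v => ⟨fun i => (B.repr v i).val, ?_⟩⟩
  conv_lhs => rw [← B.sum_repr v]
  refine Finset.sum_congr rfl fun i _ => ?_
  conv_lhs => rw [← ZMod.natCast_zmod_val (B.repr v i)]
  rw [Nat.cast_smul_eq_nsmul]

theorem exists_gens {T : Type*} [AddCommGroup T] [Finite T] {p : ℕ} [Fact p.Prime] (D : ℕ)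
    (P : AddSubgroup T) (hP : ∀ t : T, t ∈ P ↔ ∃ u : T, t = p • u) (hq : P.index = p ^ D) :
    ∃ b : Fin D → T, ∀ t : T, ∃ c : Fin D → ℕ, ∃ u : T, t = (∑ i, c i • b i) + p • u := by
  classical
  have hz : ∀ x : T ⧸ P, p • x = 0 := by
    intro x
    obtain ⟨t, rfl⟩ := QuotientAddGroup.mk_surjective x
    rw [← QuotientAddGroup.mk_nsmul, QuotientAddGroup.eq_zero_iff]
    exact (hP _).2 ⟨t, rfl⟩
  letI : Module (ZMod p) (T ⧸ P) := AddCommGroup.zmodModule hz
  have hcard : Nat.card (T ⧸ P) = p ^ D := hq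
  obtain ⟨B, hB⟩ := exists_basis (p := p) D hcard
  choose b hb using fun i => QuotientAddGroup.mk_surjective (B i)
  refine ⟨b, fun t => ?_⟩
  obtain ⟨c, hc⟩ := hB (t : T ⧸ P)
  have h1 : ((∑ i, c i • b i : T) : T ⧸ P) = (t : T ⧸ P) := by
    have h3 : ((∑ i, c i • b i : T) : T ⧸ P) = ∑ i, ((c i • b i : T) : T ⧸ P) := by
      have := map_sum (QuotientAddGroup.mk' P) (fun i => c i • b i) Finset.univ
      simpa using this
    rw [h3, hc]
    refine Finset.sum_congr rfl fun i _ => ?_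
    rw [QuotientAddGroup.mk_nsmul, hb]
  have h4 : -(∑ i, c i • b i) + t ∈ P := (QuotientAddGroup.eq).1 h1
  obtain ⟨u, hu⟩ := (hP _).1 h4
  refine ⟨c, u, ?_⟩
  rw [← hu]
  abel

theorem main {T : Type*} [AddCommGroup T] [Finite T] {p : ℕ} [Fact p.Prime] (k D : ℕ)
    [Module (ZMod (p ^ k)) T] (hexp : ∀ t : T, (p ^ k) • t = 0) (hcard : Nat.card T = p ^ (D * k))
    (b : Fin D → T) (hb : ∀ t : T, ∃ c : Fin D → ℕ, ∃ u : T, t = (∑ i, c i • b i) + p • u) :
    Nonempty (T ≃+ (Fin D → ZMod (p ^ k))) := by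
  classical
  let φ : (Fin D → ZMod (p ^ k)) →ₗ[ZMod (p ^ k)] T := Fintype.linearCombination (ZMod (p ^ k)) b
  have hφ : ∀ c : Fin D → ZMod (p ^ k), φ c = ∑ i, c i • b i := fun c =>
    Fintype.linearCombination_apply (ZMod (p ^ k)) b c
  have hstep : ∀ t : T, ∃ c : Fin D → ZMod (p ^ k), ∃ u : T, t = φ c + p • u := by
    intro t
    obtain ⟨c, u, h⟩ := hb t
    refine ⟨fun i => (c i : ZMod (p ^ k)), u, ?_⟩
    rw [hφ, h]
    congr 1
    refine Finset.sum_congr rfl fun i _ => ?_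
    rw [Nat.cast_smul_eq_nsmul]
  have hall : ∀ j : ℕ, ∀ t : T, ∃ c : Fin D → ZMod (p ^ k), ∃ u : T, t = φ c + p ^ j • u := by
    intro j
    induction j with
    | zero => intro t; exact ⟨0, t, by simp⟩
    | succ j ih =>
      intro t
      obtain ⟨c, u, h⟩ := ih t
      obtain ⟨c', u', h'⟩ := hstep u
      refine ⟨c + p ^ j • c', u', ?_⟩
      rw [h, h', map_add, map_nsmul, smul_add, pow_succ, mul_smul, add_assoc]
  have hsurj : Function.Surjective φ := by
    intro t
    obtain ⟨c, u, h⟩ := hall k t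
    exact ⟨c, by rw [h, hexp, add_zero]⟩
  haveI : NeZero (p ^ k) := ⟨pow_ne_zero _ (Fact.out : p.Prime).ne_zero⟩
  have hbij : Function.Bijective φ := by
    refine Function.Surjective.bijective_of_nat_card_le hsurj ?_
    rw [hcard, Nat.card_pi]
    simp only [Nat.card_zmod, Finset.prod_const, Finset.card_univ, Fintype.card_fin]
    rw [← pow_mul, mul_comm]
  exact ⟨(LinearEquiv.ofBijective φ hbij).toAddEquiv.symm⟩

end FreeAAux

theorem exists_equiv {T : Type*} [AddCommGroup T] [Finite T] {p : ℕ} [Fact p.Prime] (k D : ℕ)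
    (hk : 1 ≤ k) (hexp : ∀ t : T, (p ^ k) • t = 0) (hcard : Nat.card T = p ^ (D * k))
    (P : AddSubgroup T) (hP : ∀ t : T, t ∈ P ↔ ∃ u : T, t = p • u) (hq : P.index = p ^ D) :
    Nonempty (T ≃+ (Fin D → ZMod (p ^ k))) := by
  obtain ⟨b, hb⟩ := FreeAAux.exists_gens D P hP hq
  letI : Module (ZMod (p ^ k)) T := AddCommGroup.zmodModule hexp
  exact FreeAAux.main k D hexp hcard b hb

end P9700d
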