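import Mathlib
import Pool.Agent.Lib.P9700d.Defs

/-!
# Power structure of the sections `L k / L (2 k)`

* `pow_iter`: induction on `n` (`x^(p^(n+1)) = (x^(p^n))^p`).
* `surj_iter`: modulo the normal subgroup `L (2 k)` the group `L k` is abelian (`comm k k`). (a) Every `y ∈ L (j+1)`, `k ≤ j`, is `u^p z` with `u ∈ L j`, `z ∈ L (2 k)`: by induction on `m` it is `u^p z` with `u ∈ L j`, `z ∈ L (j+1+m)`:
  `z = v^p z'` with `v ∈ L (j+m)`, `z' ∈ L (j+2+m)` (`surj`), and `u^p v^p ≡ (u v)^p` modulo `⁅L j, L (j+m)⁆ ≤ L (2j+m+2)`, `2 j + m + 2 ≥ j + 2 + m` (so all is absorbed in an element of `L (j+2+m)`); take `m` with `j+1+m ≥ 2k`.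
  (b) induction on `n`: `y ∈ L (k+n+1)` is `u^p z` with `u ∈ L (k+n)`, `u = x^(p^n) z'` with `x ∈ L k`, `z' ∈ L (2 k)`, and `u^p ≡ x^(p^(n+1)) (z')^p` modulo `L (2 k)`.
* `card_sec`: `(L (k+m)).relIndex (L k) = p ^ (D * m)` by `Subgroup.relIndex_mul_relIndex`, induction on `m`; `m = k`.
* `pow_not_mem`: `x ∈ L s`, `x ∉ L (s+1)`, `s ≥ i0` ⇒ `x^p ∈ L (s+1)`, `x^p ∉ L (s+2)`: contrapositive of `inj`.
-/

set_option autoImplicit false

open scoped commutatorElement

namespace P9700d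

theorem pow_iter {G : Type*} [Group G] {p : ℕ} {L : ℕ → Subgroup G} (h : Fil p L) (i n : ℕ) (x : G)
    (hx : x ∈ L i) : x ^ (p ^ n) ∈ L (i + n) := by
  induction n with
  | zero => simpa using hx
  | succ n ih =>
    have := h.pow (i + n) _ ih
    rw [← pow_mul, ← pow_succ] at this
    exact this

namespace PowFAux

theorem step {G : Type*} [Group G] {p : ℕ} {L : ℕ → Subgroup G} (h : Fil p L) (j m : ℕ) (y : G)
    (hy : y ∈ L (j + 1)) : ∃ u ∈ L j, ∃ z ∈ L (j + 1 + m), y = u ^ p * z := by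
  induction m with
  | zero => exact ⟨1, (L j).one_mem, y, hy, by simp⟩
  | succ m ih =>
    obtain ⟨u, hu, z, hz, rfl⟩ := ih
    have hz' : z ∈ L (j + m + 1) := by
      have e : j + 1 + m = j + m + 1 := by omega
      rwa [e] at hz
    obtain ⟨v, hv, z', hz1, rfl⟩ := h.surj (j + m) z hz'
    have hn := h.norm (j + m + 2)
    have hvj : v ∈ L j := h.anti' (by omega) hv
    have hc : ⁅u, v⁆ ∈ L (j + m + 2) := by
      have h1 : ⁅u, v⁆ ∈ ⁅L j, L (j + m)⁆ := Subgroup.commutator_mem_commutator hu hv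
      exact h.anti' (by omega) (h.comm j (j + m) h1)
    have hcm : Commute (QuotientGroup.mk' (L (j + m + 2)) u) (QuotientGroup.mk' (L (j + m + 2)) v) := by
      rw [← commutatorElement_eq_one_iff_commute, ← map_commutatorElement]
      exact (QuotientGroup.eq_one_iff _).2 hc
    refine ⟨u * v, (L j).mul_mem hu hvj, ((u * v) ^ p)⁻¹ * (u ^ p * (v ^ p * z')), ?_, ?_⟩
    · have e : j + 1 + (m + 1) = j + m + 2 := by omega
      rw [e]
      rw [← QuotientGroup.eq_one_iff]
      change QuotientGroup.mk' (L (j + m + 2)) _ = 1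
      rw [map_mul, map_inv, map_pow, map_mul, map_mul, map_mul, map_pow, map_pow, hcm.mul_pow,
        show QuotientGroup.mk' (L (j + m + 2)) z' = 1 from (QuotientGroup.eq_one_iff _).2 hz1]
      simp
    · group

end PowFAux

theorem surj_iter {G : Type*} [Group G] {p : ℕ} {L : ℕ → Subgroup G} (h : Fil p L) (k n : ℕ) (y : G)
    (hy : y ∈ L (k + n)) : ∃ x ∈ L k, ∃ z ∈ L (2 * k), y = x ^ (p ^ n) * z := by
  induction n generalizing y with
  | zero => exact ⟨y, hy, 1, (L _).one_mem, by simp⟩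
  | succ n ih =>
    obtain ⟨u, hu, z, hz, rfl⟩ := PowFAux.step h (k + n) k y hy
    obtain ⟨x, hx, z', hz', rfl⟩ := ih u hu
    have hn := h.norm (2 * k)
    have hz2 : z ∈ L (2 * k) := h.anti' (by omega) hz
    refine ⟨x, hx, (x ^ (p ^ (n + 1)))⁻¹ * ((x ^ p ^ n * z') ^ p * z), ?_, by group⟩
    rw [← QuotientGroup.eq_one_iff]
    change QuotientGroup.mk' (L (2 * k)) _ = 1
    rw [map_mul, map_inv, map_pow, map_mul, map_pow, map_mul, map_pow,
      show QuotientGroup.mk' (L (2 * k)) z' = 1 from (QuotientGroup.eq_one_iff _).2 hz',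
      show QuotientGroup.mk' (L (2 * k)) z = 1 from (QuotientGroup.eq_one_iff _).2 hz2,
      mul_one, mul_one, ← pow_mul, ← pow_succ]
    simp

theorem card_sec {G : Type*} [Group G] {p : ℕ} {L : ℕ → Subgroup G} (h : Fil p L) {i0 D : ℕ}
    (hs : Stb p L i0 D) (k m : ℕ) (hk : i0 ≤ k) : (L (k + m)).relIndex (L k) = p ^ (D * m) := by
  induction m with
  | zero => simp
  | succ m ih =>
    rw [← Subgroup.relIndex_mul_relIndex (L (k + (m + 1))) (L (k + m)) (L k) (h.anti' (by omega))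
      (h.anti' (by omega)), ih]
    have := hs.card (k + m) (by omega)
    rw [show k + (m + 1) = k + m + 1 by omega, this, ← pow_add]
    congr 1
    ring

end P9700d
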