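import Mathlib
import Pool.Agent.Lib.P9700d.Defs
import Pool.Agent.Lib.P9700d.PowF

/-!
# The kernel centralises `L i0`

Let `x ∈ L i0` and `z = x⁻¹ (g x g⁻¹)`, so `g x g⁻¹ = x z`, `z ∈ L i0` (`L i0` normal). Suppose `z ≠ 1`. By `int` and `anti` there is `s ≥ i0` with `z ∈ L s`, `z ∉ L (s+1)`.
CLAIM: for every `j` there is `zj ∈ L (s+j)`, `zj ∉ L (s+j+1)` with `g x^(p^j) g⁻¹ = x^(p^j) zj`. Induction: `xj = x^(p^j) ∈ L (i0+j)` (`pow_iter`), `⁅xj, zj⁆ ∈ L (i0+s+2j+2) ≤ L (s+j+2)`; modulo the normal subgroup `L (s+j+2)` `xj` and `zj` commute, so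
`g xj^p g⁻¹ = (xj zj)^p = xj^p zj^p w` with `w ∈ L (s+j+2)`; `zj^p ∈ L (s+j+1)` (`pow`), `zj^p ∉ L (s+j+2)` (`inj`, `s+j ≥ i0`); `z(j+1) = zj^p w`.
Now apply the hypothesis with `n = s + 1 - i0`: there is `k ≥ i0` with `⁅y, g⁆ ∈ L (k+n)` for all `y ∈ L k`. Put `j = k - i0`, `y = x^(p^j) ∈ L k`: `⁅y, g⁆ = y (g y⁻¹ g⁻¹) = y zj⁻¹ y⁻¹`, so `zj ∈ L (k + n) = L (s + j + 1)`: contradiction. So `z = 1`.
-/

set_option autoImplicit false

open scoped commutatorElement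

namespace P9700d

theorem ker_cent {G : Type*} [Group G] {p : ℕ} {L : ℕ → Subgroup G} (h : Fil p L) {i0 D : ℕ}
    (hs : Stb p L i0 D) (g : G)
    (hg : ∀ n : ℕ, ∃ᶠ k in Filter.atTop, ∀ x ∈ L k, ⁅x, g⁆ ∈ L (k + n)) :
    ∀ x ∈ L i0, x * g = g * x := by
  intro x hx
  by_contra hne
  have hni := h.norm i0
  set z : G := x⁻¹ * (g * x * g⁻¹) with hz
  have hzi : z ∈ L i0 := (L i0).mul_mem ((L i0).inv_mem hx) (hni.conj_mem x hx g)
  have hz1 : z ≠ 1 := by
    intro hz1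
    apply hne
    have e : g * x = x * z * g := by rw [hz]; group
    rw [e, hz1, mul_one]
  -- the level of `z`
  have hex : ∃ i, z ∉ L i := by
    by_contra hcon
    push Not at hcon
    exact hz1 (h.int z hcon)
  obtain ⟨s, hs0, hzs, hzs'⟩ : ∃ s, i0 ≤ s ∧ z ∈ L s ∧ z ∉ L (s + 1) := by
    classical
    have hf := Nat.find_spec hex
    have hmin := fun m (hm : m < Nat.find hex) => Nat.find_min hex hm
    have hpos : i0 < Nat.find hex := by
      by_contra hle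
      push Not at hle
      exact hf (h.anti' hle hzi)
    refine ⟨Nat.find hex - 1, by omega, ?_, ?_⟩
    · by_contra hcon
      exact hmin _ (by omega) hcon
    · have e : Nat.find hex - 1 + 1 = Nat.find hex := by omega
      rw [e]
      exact hf
  have key : ∀ j : ℕ, ∃ zj ∈ L (s + j), zj ∉ L (s + j + 1) ∧
      g * x ^ (p ^ j) * g⁻¹ = x ^ (p ^ j) * zj := by
    intro j
    induction j with
    | zero =>
      refine ⟨z, hzs, hzs', ?_⟩
      rw [pow_zero, pow_one, hz]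
      group
    | succ j ih =>
      obtain ⟨zj, hzj, hzj', he⟩ := ih
      have hn := h.norm (s + j + 2)
      have hxj : x ^ (p ^ j) ∈ L (i0 + j) := pow_iter h i0 j x hx
      have hc : ⁅x ^ (p ^ j), zj⁆ ∈ L (s + j + 2) :=
        h.anti' (by omega) (h.comm (i0 + j) (s + j) (Subgroup.commutator_mem_commutator hxj hzj))
      have hcm : Commute (QuotientGroup.mk' (L (s + j + 2)) (x ^ (p ^ j)))
          (QuotientGroup.mk' (L (s + j + 2)) zj) := by
        rw [← commutatorElement_eq_one_iff_commute, ← map_commutatorElement]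
        exact (QuotientGroup.eq_one_iff _).2 hc
      have hw : (zj ^ p)⁻¹ * ((x ^ (p ^ (j + 1)))⁻¹ * (g * x ^ (p ^ (j + 1)) * g⁻¹)) ∈
          L (s + j + 2) := by
        have e1 : g * x ^ (p ^ (j + 1)) * g⁻¹ = (x ^ (p ^ j) * zj) ^ p := by
          rw [← he, conj_pow, ← pow_mul, ← pow_succ]
        rw [e1, ← QuotientGroup.eq_one_iff]
        change QuotientGroup.mk' (L (s + j + 2)) _ = 1
        rw [map_mul, map_mul, map_pow (QuotientGroup.mk' (L (s + j + 2))) (x ^ (p ^ j) * zj) p, map_mul,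
          hcm.mul_pow, pow_succ, pow_mul, map_inv, map_inv, map_pow, map_pow _ (x ^ p ^ j) p]
        group
      refine ⟨(x ^ (p ^ (j + 1)))⁻¹ * (g * x ^ (p ^ (j + 1)) * g⁻¹), ?_, ?_, by group⟩
      · have e2 : (x ^ (p ^ (j + 1)))⁻¹ * (g * x ^ (p ^ (j + 1)) * g⁻¹) = zj ^ p *
            ((zj ^ p)⁻¹ * ((x ^ (p ^ (j + 1)))⁻¹ * (g * x ^ (p ^ (j + 1)) * g⁻¹))) := by group
        rw [e2]
        exact (L (s + (j + 1))).mul_mem (h.pow (s + j) zj hzj) (h.anti (s + j + 1) hw)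
      · intro hcon
        apply hzj'
        apply hs.inj (s + j) (by omega) zj hzj
        have e3 : zj ^ p = ((x ^ (p ^ (j + 1)))⁻¹ * (g * x ^ (p ^ (j + 1)) * g⁻¹)) *
            ((zj ^ p)⁻¹ * ((x ^ (p ^ (j + 1)))⁻¹ * (g * x ^ (p ^ (j + 1)) * g⁻¹)))⁻¹ := by group
        rw [e3]
        exact (L (s + j + 2)).mul_mem hcon ((L (s + j + 2)).inv_mem hw)
  obtain ⟨k, hk0, hk⟩ := ((hg (s + 1 - i0)).and_eventually
    (Filter.eventually_ge_atTop i0)).exists.imp fun k hk => And.intro hk.2 hk.1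
  obtain ⟨zj, hzj, hzj', he⟩ := key (k - i0)
  have hxk : x ^ (p ^ (k - i0)) ∈ L k := by
    have := pow_iter h i0 (k - i0) x hx
    rwa [Nat.add_sub_cancel' hk0] at this
  have h1 := hk _ hxk
  apply hzj'
  have e4 : k + (s + 1 - i0) = s + (k - i0) + 1 := by omega
  rw [e4] at h1
  have hn := h.norm (s + (k - i0) + 1)
  have e5 : zj = (x ^ (p ^ (k - i0)))⁻¹ * ⁅x ^ (p ^ (k - i0)), g⁆⁻¹ *
      (x ^ (p ^ (k - i0)))⁻¹⁻¹ := by
    have e6 : zj = (x ^ (p ^ (k - i0)))⁻¹ * (g * x ^ (p ^ (k - i0)) * g⁻¹) := by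
      rw [he]; group
    rw [e6]
    simp only [commutatorElement_def]
    group
  rw [e5]
  exact hn.conj_mem _ ((L _).inv_mem h1) _

end P9700d
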