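import Mathlib
import Pool.Agent.Lib.P9700d.Defs
import Pool.Agent.Lib.P9700d.EB

/-!
# Normal abelian sections of a product of two `p`-groups of rank `r` are generated by `e(r)` elements

Let `M / N` be a normal abelian section, `N1 = N ⊔ pw p M` (normal, `N ≤ N1 ≤ M`), `X1 = X ⧸ N1` (a finite `p`-group, the product of the images of `A` and `B`, which have `RKS r`), `E` the
image of `M` in `X1`: normal, commutative (`⁅M, M⁆ ≤ N`), of exponent `p`, so `|E| = p^n` and `n ≤ e` by `le_of_card` and `he`. An elementary abelian group of order `p^n` is generated by `n`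
elements (basis over `ZMod p`); lift them to `s ⊆ M`: `closure s ⊔ N1 = M`. Finally `closure s ⊔ N = M`: put `T = closure s ⊔ N`, normal in `M` since `M / N` is abelian; `T ⊔ pw p M = M`, so in the
finite abelian `p`-group `Y = M / T` every element is a product of `p`-th powers, i.e. a `p`-th power: `y ↦ y^p` is onto, hence injective, and `Y` is trivial (no element of order `p`).
-/

set_option autoImplicit false

open scoped commutatorElement

namespace P9700d

namespace NasPAux

theorem rks_map {X Y : Type*} [Group X] [Group Y] (f : X →* Y) {r : ℕ} {A : Subgroup X}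
    (hA : RKS r A) : RKS r (A.map f) := by
  classical
  intro K hK
  obtain ⟨s, hs, hc⟩ := hA (K.comap f ⊓ A) inf_le_right
  refine ⟨s.image f, Finset.card_image_le.trans hs, ?_⟩
  rw [Finset.coe_image, ← MonoidHom.map_closure, hc]
  ext y
  constructor
  · rintro ⟨x, ⟨hx1, hx2⟩, rfl⟩
    exact hx1
  · intro hy
    obtain ⟨a, ha, rfl⟩ := hK hy
    exact ⟨a, ⟨hy, ha⟩, rfl⟩

theorem gen_le {Y : Type*} [Group Y] [Finite Y] {p : ℕ} [hp : Fact p.Prime] (H : Subgroup Y) (n : ℕ)
    (hn : Nat.card H = p ^ n) :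
    ∃ s : Finset Y, s.card ≤ n ∧ Subgroup.closure (s : Set Y) = H := by
  classical
  have key : ∀ m : ℕ, ∃ s : Finset Y, s.card ≤ m ∧ Subgroup.closure (s : Set Y) ≤ H ∧
      (Subgroup.closure (s : Set Y) = H ∨
        p ^ m ≤ Nat.card (Subgroup.closure (s : Set Y))) := by
    intro m
    induction m with
    | zero => exact ⟨∅, by simp, by simp, Or.inr (by simp)⟩
    | succ m ih =>
      obtain ⟨s, h1, h2, h3⟩ := ih
      by_cases h4 : Subgroup.closure (s : Set Y) = H
      · exact ⟨s, by omega, h2, Or.inl h4⟩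
      · have h5 := h3.resolve_left h4
        obtain ⟨x, hx1, hx2⟩ : ∃ x ∈ H, x ∉ Subgroup.closure (s : Set Y) := by
          by_contra hcon
          push Not at hcon
          exact h4 (le_antisymm h2 hcon)
        have hle : Subgroup.closure ((insert x s : Finset Y) : Set Y) ≤ H := by
          rw [Finset.coe_insert, Subgroup.closure_le]
          rintro y (rfl | hy)
          · exact hx1
          · exact h2 (Subgroup.subset_closure hy)
        have hlt : Subgroup.closure (s : Set Y) <
            Subgroup.closure ((insert x s : Finset Y) : Set Y) := by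
          refine lt_of_le_of_ne (Subgroup.closure_mono (by simp)) ?_
          intro heq
          apply hx2
          rw [heq]
          exact Subgroup.subset_closure (by simp)
        refine ⟨insert x s, (Finset.card_insert_le x s).trans (by omega), hle, Or.inr ?_⟩
        have hc1 : Nat.card (Subgroup.closure (s : Set Y)) <
            Nat.card (Subgroup.closure ((insert x s : Finset Y) : Set Y)) := by
          have := Set.ncard_lt_ncard (SetLike.coe_ssubset_coe.mpr hlt) (Set.toFinite _)
          rw [← Nat.card_coe_set_eq, ← Nat.card_coe_set_eq] at this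
          exact this
        have hdvd : Nat.card (Subgroup.closure ((insert x s : Finset Y) : Set Y)) ∣ p ^ n := by
          rw [← hn]
          exact Subgroup.card_dvd_of_le hle
        obtain ⟨j, _, hj⟩ := (Nat.dvd_prime_pow hp.out).mp hdvd
        rw [hj] at hc1 ⊢
        have hlt2 : p ^ m < p ^ j := lt_of_le_of_lt h5 hc1
        have : m < j := (Nat.pow_lt_pow_iff_right hp.out.one_lt).mp hlt2
        exact Nat.pow_le_pow_right hp.out.pos this
  obtain ⟨s, h1, h2, h3⟩ := key n
  refine ⟨s, h1, ?_⟩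
  rcases h3 with h3 | h3
  · exact h3
  · rw [← hn] at h3
    exact Subgroup.eq_of_le_of_card_ge h2 h3

/-- in a commutative group of exponent dividing `p ^ k` a subgroup which with the `p`-th powers generates
everything is everything -/
theorem top_of_pow {Q : Type*} [CommGroup Q] {p k : ℕ} (hk : ∀ q : Q, q ^ p ^ k = 1)
    (T : Subgroup Q) (hT : T ⊔ (powMonoidHom p : Q →* Q).range = ⊤) : T = ⊤ := by
  have key : ∀ j : ℕ, T ⊔ (powMonoidHom (p ^ j) : Q →* Q).range = ⊤ := by
    intro j
    induction j with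
    | zero =>
      rw [eq_top_iff]
      intro q _
      exact Subgroup.mem_sup_right ⟨q, by simp⟩
    | succ j ih =>
      rw [eq_top_iff]
      intro q _
      have hq : q ∈ T ⊔ (powMonoidHom (p ^ j) : Q →* Q).range := by rw [ih]; trivial
      obtain ⟨t, ht, _, ⟨x, rfl⟩, rfl⟩ := Subgroup.mem_sup.mp hq
      have hx : x ∈ T ⊔ (powMonoidHom p : Q →* Q).range := by rw [hT]; trivial
      obtain ⟨t', ht', _, ⟨y, rfl⟩, rfl⟩ := Subgroup.mem_sup.mp hx
      refine Subgroup.mem_sup.mpr ⟨t * t' ^ p ^ j, T.mul_mem ht (T.pow_mem ht' _),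
        _, ⟨y, rfl⟩, ?_⟩
      simp only [powMonoidHom_apply]
      rw [mul_pow, ← pow_mul, mul_assoc, pow_succ, mul_comm (p ^ j) p]
  have h := key k
  have hb : (powMonoidHom (p ^ k) : Q →* Q).range = ⊥ := by
    rw [eq_bot_iff]
    rintro _ ⟨q, rfl⟩
    rw [Subgroup.mem_bot, powMonoidHom_apply, hk]
  rwa [hb, sup_bot_eq] at h

theorem sup_of_pw {X : Type*} [Group X] [Finite X] {p : ℕ} [hp : Fact p.Prime] (hX : IsPGroup p X)
    (M N T : Subgroup X) (hN : N.Normal) (hc : ⁅M, M⁆ ≤ N) (hNT : N ≤ T) (hTM : T ≤ M)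
    (hT : T ⊔ pw p M = M) : T = M := by
  classical
  have hNM : N ≤ M := hNT.trans hTM
  have hcomm : ∀ a b : M ⧸ N.subgroupOf M, a * b = b * a := by
    intro a b
    induction a using QuotientGroup.induction_on with | _ a =>
    induction b using QuotientGroup.induction_on with | _ b =>
    rw [← QuotientGroup.mk_mul, ← QuotientGroup.mk_mul, QuotientGroup.eq]
    rw [Subgroup.mem_subgroupOf]
    have h1 : ⁅((b : X))⁻¹, ((a : X))⁻¹⁆ ∈ N :=
      hc (Subgroup.commutator_mem_commutator (M.inv_mem b.2) (M.inv_mem a.2))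
    have h2 : ((a * b)⁻¹ * (b * a) : M) = (⁅((b : X))⁻¹, ((a : X))⁻¹⁆ : X) := by
      simp only [commutatorElement_def, Subgroup.coe_mul, Subgroup.coe_inv]
      group
    rw [h2]
    exact h1
  let _ : CommGroup (M ⧸ N.subgroupOf M) :=
    { (inferInstance : Group (M ⧸ N.subgroupOf M)) with mul_comm := hcomm }
  obtain ⟨k, hk⟩ := IsPGroup.iff_card.mp hX
  have hexp : ∀ q : M ⧸ N.subgroupOf M, q ^ p ^ k = 1 := by
    intro q
    induction q using QuotientGroup.induction_on with | _ q =>
    rw [← QuotientGroup.mk_pow]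
    have : q ^ p ^ k = 1 := by
      rw [← hk]
      ext
      rw [Subgroup.coe_pow, Subgroup.coe_one]
      exact pow_card_eq_one'
    rw [this]
    rfl
  have htop := top_of_pow hexp ((T.subgroupOf M).map (QuotientGroup.mk' (N.subgroupOf M))) (by
    rw [eq_top_iff]
    intro q _
    induction q using QuotientGroup.induction_on with | _ q =>
    have hq : (q : X) ∈ T ⊔ pw p M := by rw [hT]; exact q.2
    have hle : T ⊔ pw p M ≤ (((T.subgroupOf M).map (QuotientGroup.mk' (N.subgroupOf M)) ⊔
        (powMonoidHom p : (M ⧸ N.subgroupOf M) →* (M ⧸ N.subgroupOf M)).range).comap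
          (QuotientGroup.mk' (N.subgroupOf M))).map M.subtype := by
      refine sup_le ?_ ?_
      · intro t ht
        exact ⟨⟨t, hTM ht⟩, Subgroup.mem_sup_left ⟨⟨t, hTM ht⟩, ht, rfl⟩, rfl⟩
      · rw [pw_le_iff]
        intro x hx
        exact ⟨⟨x ^ p, M.pow_mem hx p⟩, Subgroup.mem_sup_right ⟨QuotientGroup.mk ⟨x, hx⟩, rfl⟩, rfl⟩
    obtain ⟨m, hm, hmq⟩ := hle hq
    have : m = q := Subtype.ext hmq
    rw [← this]
    exact hm)
  refine le_antisymm hTM ?_
  intro m hm
  have h1 : (QuotientGroup.mk' (N.subgroupOf M)) ⟨m, hm⟩ ∈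
      (T.subgroupOf M).map (QuotientGroup.mk' (N.subgroupOf M)) := by rw [htop]; trivial
  obtain ⟨t, ht, hte⟩ := h1
  have h2 : (t⁻¹ * ⟨m, hm⟩ : M) ∈ N.subgroupOf M := by
    rw [← QuotientGroup.eq]
    exact hte
  have h3 : ((t : X))⁻¹ * m ∈ N := h2
  have h4 : m = (t : X) * (((t : X))⁻¹ * m) := by group
  rw [h4]
  exact T.mul_mem ht (hNT h3)

end NasPAux

open NasPAux

theorem nas_of_prod (r e : ℕ) {p : ℕ} [Fact p.Prime]
    (he : ∀ n : ℕ, n ≤ 2 * r + r * (r + 1) * Nat.clog p n → n ≤ e) {X : Type*} [Group X] [Finite X]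
    (hX : IsPGroup p X) (A B : Subgroup X) (hA : RKS r A) (hB : RKS r B)
    (hAB : ∀ g : X, ∃ a ∈ A, ∃ b ∈ B, g = a * b) : NAS e X := by
  classical
  intro M N hM hN hNM hc
  have := hM
  have := hN
  let N1 : Subgroup X := N ⊔ pw p M
  have hN1 : N1.Normal := Subgroup.sup_normal N (pw p M)
  have hN1M : N1 ≤ M := sup_le hNM (pw_le p M)
  let f : X →* X ⧸ N1 := QuotientGroup.mk' N1
  have hfs : Function.Surjective f := QuotientGroup.mk'_surjective N1
  have hker : f.ker = N1 := QuotientGroup.ker_mk' N1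
  have hX1 : IsPGroup p (X ⧸ N1) := hX.to_quotient N1
  have hE : (M.map f).Normal := hM.map f hfs
  obtain ⟨n, hn⟩ := IsPGroup.iff_card.mp (hX1.to_subgroup (M.map f))
  have hne : n ≤ e := by
    apply he
    refine le_of_card hX1 (A.map f) (B.map f) r (rks_map f hA) (rks_map f hB) ?_ (M.map f) hE
      ?_ ?_ n hn
    · intro g
      obtain ⟨g, rfl⟩ := hfs g
      obtain ⟨a, ha, b, hb, rfl⟩ := hAB g
      exact ⟨f a, ⟨a, ha, rfl⟩, f b, ⟨b, hb, rfl⟩, map_mul f a b⟩
    · rintro _ ⟨x, hx, rfl⟩ _ ⟨y, hy, rfl⟩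
      have h1 : ⁅x, y⁆ ∈ N1 :=
        (le_sup_left : N ≤ N1) (hc (Subgroup.commutator_mem_commutator hx hy))
      have h2 : f ⁅x, y⁆ = 1 := by
        rw [← MonoidHom.mem_ker, hker]
        exact h1
      rw [map_commutatorElement, commutatorElement_eq_one_iff_mul_comm] at h2
      exact h2
    · rintro _ ⟨x, hx, rfl⟩
      rw [← map_pow, ← MonoidHom.mem_ker, hker]
      exact (le_sup_right : pw p M ≤ N1) (pow_mem_pw hx)
  obtain ⟨s0, hs0, hs0c⟩ := gen_le (p := p) (M.map f) n hn
  let g : X ⧸ N1 → X := Function.surjInv hfs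
  have hg : ∀ y, f (g y) = y := Function.surjInv_eq hfs
  refine ⟨s0.image g, Finset.card_image_le.trans (hs0.trans hne), ?_⟩
  have hmap : (Subgroup.closure ((s0.image g : Finset X) : Set X)).map f = M.map f := by
    rw [MonoidHom.map_closure, Finset.coe_image, ← Set.image_comp]
    have : (⇑f ∘ g) '' (s0 : Set (X ⧸ N1)) = (s0 : Set (X ⧸ N1)) := by
      have h : (⇑f ∘ g) = id := funext hg
      rw [h, Set.image_id]
    rw [this, hs0c]
  have hsup : Subgroup.closure ((s0.image g : Finset X) : Set X) ⊔ N1 = M := by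
    have h := congrArg (Subgroup.comap f) hmap
    rw [Subgroup.comap_map_eq, Subgroup.comap_map_eq, hker, sup_eq_left.mpr hN1M] at h
    exact h
  refine sup_of_pw hX M N _ hN hc le_sup_right ?_ ?_
  · refine sup_le ?_ hNM
    exact le_sup_left.trans hsup.le
  · rw [sup_assoc]
    exact hsup

end P9700d
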