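import Mathlib

/-!
# Sylow subgroups of a factorised finite group are factorised (Wielandt)

`Q = A B` finite. (1) Let `Ap`, `Bp` be Sylow `p`-subgroups of `A`, `B` (as subgroups of `Q`). There are Sylow `p`-subgroups `P1 ≥ Ap`, `P2 ≥ Bp` of `Q`, and `P2 = g P1 g⁻¹` (`MulAction.exists_smul_eq`,
`Sylow` conjugacy), `g⁻¹ = a b`, i.e. `g = b⁻¹ a⁻¹`. So `P := b P2 b⁻¹ = a⁻¹ P1 a` contains `a⁻¹ Ap a` (Sylow in `A` because `a ∈ A`) and `b Bp b⁻¹` (Sylow in `B`). Rename: `Ap, Bp ≤ P`.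
(2) `|Ap Bp| = |Ap| |Bp| / |Ap ∩ Bp|` (as a set), `|Q| |A ∩ B| = |A| |B|`; `Ap ∩ Bp` is a `p`-subgroup of `A ∩ B`, so `|Ap ∩ Bp| ≤ |A ∩ B|_p` and `|Ap Bp| ≥ |A|_p |B|_p / |A ∩ B|_p = |Q|_p = |P|`. As `Ap Bp ⊆ P`,
`Ap Bp = P`. (Mathlib: `Subgroup.card_mul_index`, `Sylow.card_eq_multiplicity`; for the cardinality of a product set: the map `A × B → Q` has all non-empty fibres of size `|A ∩ B|`.)
(3) `S` is a Sylow `p`-subgroup of `Q`, so `x S x⁻¹ = P` for some `x`; put `A' = x⁻¹ Ap x`, `B' = x⁻¹ Bp x`.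
-/

set_option autoImplicit false

namespace P9700d

namespace WielAux

variable {G : Type*} [Group G]

/-- the product of two subgroups as a set -/
def pset (H K : Subgroup G) : Set G := {g | ∃ a ∈ H, ∃ b ∈ K, g = a * b}

theorem card_prod (H K : Subgroup G) :
    Nat.card (pset H K) * Nat.card (H ⊓ K : Subgroup G) = Nat.card H * Nat.card K := by
  classical
  have hch : ∀ g : pset H K, ∃ a, a ∈ H ∧ ∃ b ∈ K, (g : G) = a * b := fun g => g.2
  choose f hf1 hf2 using hch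
  rw [← Nat.card_prod, ← Nat.card_prod]
  have hk : ∀ g : pset H K, (f g)⁻¹ * (g : G) ∈ K := by
    intro g
    obtain ⟨b, hb, e⟩ := hf2 g
    rw [e, inv_mul_cancel_left]
    exact hb
  refine Nat.card_eq_of_bijective (fun y : pset H K × (H ⊓ K : Subgroup G) =>
    ((⟨f y.1 * (y.2 : G), H.mul_mem (hf1 y.1) y.2.2.1⟩ : H),
      (⟨(y.2 : G)⁻¹ * ((f y.1)⁻¹ * (y.1 : G)),
        K.mul_mem (K.inv_mem y.2.2.2) (hk y.1)⟩ : K))) ⟨?_, ?_⟩
  · rintro ⟨g, x⟩ ⟨g', x'⟩ h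
    simp only [Prod.mk.injEq, Subtype.mk.injEq] at h
    obtain ⟨h1, h2⟩ := h
    have h3 : (g : G) = g' := by
      calc (g : G) = f g * (x : G) * ((x : G)⁻¹ * ((f g)⁻¹ * (g : G))) := by group
        _ = f g' * (x' : G) * ((x' : G)⁻¹ * ((f g')⁻¹ * (g' : G))) := by rw [h1, h2]
        _ = g' := by group
    have h4 : g = g' := Subtype.ext h3
    subst h4
    have h5 : (x : G) = x' := mul_left_cancel h1
    rw [Subtype.ext h5]
  · rintro ⟨h, k⟩
    let g : pset H K := ⟨(h : G) * k, h, h.2, k, k.2, rfl⟩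
    have hx : (f g)⁻¹ * (h : G) ∈ H ⊓ K := by
      refine ⟨H.mul_mem (H.inv_mem (hf1 g)) h.2, ?_⟩
      have h1 := K.mul_mem (hk g) (K.inv_mem k.2)
      have e : (f g)⁻¹ * (g : G) * (k : G)⁻¹ = (f g)⁻¹ * (h : G) := by
        change (f g)⁻¹ * ((h : G) * k) * (k : G)⁻¹ = _
        group
      rwa [e] at h1
    refine ⟨(g, ⟨(f g)⁻¹ * (h : G), hx⟩), ?_⟩
    apply Prod.ext
    · apply Subtype.ext
      change f g * ((f g)⁻¹ * (h : G)) = h
      group
    · apply Subtype.ext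
      change ((f g)⁻¹ * (h : G))⁻¹ * ((f g)⁻¹ * ((h : G) * k)) = k
      group

theorem card_p_le [Finite G] {p : ℕ} [hp : Fact p.Prime] {D E : Subgroup G} (hD : IsPGroup p D) (x : G)
    (h : ∀ d ∈ D, x * d * x⁻¹ ∈ E) : Nat.card D ≤ p ^ (Nat.card E).factorization p := by
  obtain ⟨k, hk⟩ := (IsPGroup.iff_card).1 hD
  have h1 : D.map (MulAut.conj x).toMonoidHom ≤ E := by
    rintro _ ⟨d, hd, rfl⟩
    exact h d hd
  have h2 : Nat.card (D.map (MulAut.conj x).toMonoidHom) = Nat.card D :=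
    (Nat.card_congr (D.equivMapOfInjective (MulAut.conj x).toMonoidHom
      (MulAut.conj x).injective).toEquiv).symm
  have h3 : p ^ k ∣ Nat.card E := by
    rw [← hk, ← h2]
    exact Subgroup.card_dvd_of_le h1
  rw [hk]
  exact Nat.pow_le_pow_right hp.out.pos
    ((hp.out.pow_dvd_iff_le_factorization Nat.card_pos.ne').1 h3)

theorem card_ge [Finite G] {p : ℕ} [hp : Fact p.Prime] {A A' : Subgroup G} {g x : G}
    {P : Subgroup G} (hP : ∀ u ∈ P, u ∈ A → g * u * g⁻¹ ∈ A')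
    (Ap : Sylow p A) (hA : (Ap : Subgroup A).map A.subtype ≤ P) :
    p ^ (Nat.card A).factorization p ≤ Nat.card A' := by
  have _ := x
  rw [← Ap.card_eq_multiplicity]
  refine Nat.card_le_card_of_injective (fun u : (Ap : Subgroup A) =>
    (⟨g * ((u : A) : G) * g⁻¹, hP _ (hA ⟨(u : A), u.2, rfl⟩) (u : A).2⟩ : A')) ?_
  intro u v h
  have h1 := congrArg (fun w : A' => (w : G)) h
  simp only at h1
  have h2 : ((u : A) : G) = ((v : A) : G) := mul_left_cancel (mul_right_cancel h1)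
  exact Subtype.ext (Subtype.ext h2)

end WielAux

open WielAux in
theorem exists_sylow_prod {Q : Type*} [Group Q] [Finite Q] {p : ℕ} [Fact p.Prime] (A B : Subgroup Q)
    (hAB : ∀ g : Q, ∃ a ∈ A, ∃ b ∈ B, g = a * b) (S : Subgroup Q) (hS : IsPGroup p S)
    (hSi : ¬ p ∣ S.index) :
    ∃ (A' B' : Subgroup Q) (x : Q), A' ≤ S ∧ B' ≤ S ∧ (∀ g ∈ S, ∃ a ∈ A', ∃ b ∈ B', g = a * b) ∧
      (∀ a ∈ A', x * a * x⁻¹ ∈ A) ∧ (∀ b ∈ B', x * b * x⁻¹ ∈ B) := by
  classical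
  have hp : p.Prime := Fact.out
  let S' : Sylow p Q := hS.toSylow hSi
  have hS' : (S' : Subgroup Q) = S := rfl
  obtain ⟨Ap⟩ : Nonempty (Sylow p A) := inferInstance
  obtain ⟨Bp⟩ : Nonempty (Sylow p B) := inferInstance
  obtain ⟨P1, hP1⟩ := (Ap.isPGroup'.map A.subtype).exists_le_sylow
  obtain ⟨P2, hP2⟩ := (Bp.isPGroup'.map B.subtype).exists_le_sylow
  obtain ⟨g1, hg1⟩ := MulAction.exists_smul_eq Q P1 S'
  obtain ⟨g2, hg2⟩ := MulAction.exists_smul_eq Q P2 S'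
  obtain ⟨a, ha, b, hb, hab⟩ := hAB (g1⁻¹ * g2)
  have m1 : ∀ u ∈ P1, g1 * u * g1⁻¹ ∈ S := by
    intro u hu
    have h1 := Subgroup.smul_mem_pointwise_smul u (MulAut.conj g1) (P1 : Subgroup Q) hu
    rw [← Sylow.pointwise_smul_def, ← Sylow.smul_def, hg1] at h1
    exact h1
  have m2 : ∀ u ∈ P2, g2 * u * g2⁻¹ ∈ S := by
    intro u hu
    have h1 := Subgroup.smul_mem_pointwise_smul u (MulAut.conj g2) (P2 : Subgroup Q) hu
    rw [← Sylow.pointwise_smul_def, ← Sylow.smul_def, hg2] at h1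
    exact h1
  let x : Q := a⁻¹ * g1⁻¹
  have hx : x = b * g2⁻¹ := by
    change a⁻¹ * g1⁻¹ = b * g2⁻¹
    have h1 : b = a⁻¹ * (g1⁻¹ * g2) := by rw [hab, inv_mul_cancel_left]
    rw [h1]
    group
  let A' : Subgroup Q := S ⊓ A.comap (MulAut.conj x).toMonoidHom
  let B' : Subgroup Q := S ⊓ B.comap (MulAut.conj x).toMonoidHom
  have hA1 : ∀ y ∈ A', x * y * x⁻¹ ∈ A := fun y hy => hy.2
  have hB1 : ∀ y ∈ B', x * y * x⁻¹ ∈ B := fun y hy => hy.2
  have cA : p ^ (Nat.card A).factorization p ≤ Nat.card A' := by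
    refine card_ge (g := g1) (x := x) (P := P1) ?_ Ap hP1
    intro u hu huA
    refine ⟨m1 u hu, ?_⟩
    change x * (g1 * u * g1⁻¹) * x⁻¹ ∈ A
    have e : x * (g1 * u * g1⁻¹) * x⁻¹ = a⁻¹ * u * a := by
      change a⁻¹ * g1⁻¹ * (g1 * u * g1⁻¹) * (a⁻¹ * g1⁻¹)⁻¹ = _
      group
    rw [e]
    exact A.mul_mem (A.mul_mem (A.inv_mem ha) huA) ha
  have cB : p ^ (Nat.card B).factorization p ≤ Nat.card B' := by
    refine card_ge (g := g2) (x := x) (P := P2) ?_ Bp hP2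
    intro u hu huB
    refine ⟨m2 u hu, ?_⟩
    change x * (g2 * u * g2⁻¹) * x⁻¹ ∈ B
    have e : x * (g2 * u * g2⁻¹) * x⁻¹ = b * u * b⁻¹ := by
      rw [hx]
      group
    rw [e]
    exact B.mul_mem (B.mul_mem hb huB) (B.inv_mem hb)
  have cD : Nat.card (A' ⊓ B' : Subgroup Q) ≤
      p ^ (Nat.card (A ⊓ B : Subgroup Q)).factorization p := by
    refine card_p_le (hS.to_le (inf_le_left.trans inf_le_left)) x ?_
    intro d hd
    exact ⟨hA1 d hd.1, hB1 d hd.2⟩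
  have hall : pset A B = Set.univ := by
    ext g
    exact ⟨fun _ => Set.mem_univ g, fun _ => hAB g⟩
  have hc1 := card_prod A B
  rw [hall, Nat.card_univ] at hc1
  have hc2 := card_prod A' B'
  have hf : (Nat.card Q).factorization p + (Nat.card (A ⊓ B : Subgroup Q)).factorization p
      = (Nat.card A).factorization p + (Nat.card B).factorization p := by
    have h1 := congrArg (fun n : ℕ => n.factorization p) hc1
    rw [Nat.factorization_mul Nat.card_pos.ne' Nat.card_pos.ne',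
      Nat.factorization_mul Nat.card_pos.ne' Nat.card_pos.ne'] at h1
    exact h1
  have hSc : Nat.card S = p ^ (Nat.card Q).factorization p := S'.card_eq_multiplicity
  have hle : Nat.card S ≤ Nat.card (pset A' B') := by
    have hpos : 0 < p ^ (Nat.card (A ⊓ B : Subgroup Q)).factorization p := pow_pos hp.pos _
    refine Nat.le_of_mul_le_mul_right ?_ hpos
    rw [hSc, ← pow_add, hf, pow_add]
    calc p ^ (Nat.card A).factorization p * p ^ (Nat.card B).factorization p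
        ≤ Nat.card A' * Nat.card B' := Nat.mul_le_mul cA cB
      _ = Nat.card (pset A' B') * Nat.card (A' ⊓ B' : Subgroup Q) := hc2.symm
      _ ≤ _ := Nat.mul_le_mul_left _ cD
  have hsub : pset A' B' ⊆ (S : Set Q) := by
    rintro _ ⟨y, hy, z, hz, rfl⟩
    exact S.mul_mem hy.1 hz.1
  have heq : pset A' B' = (S : Set Q) := by
    refine Set.eq_of_subset_of_ncard_le hsub ?_ (Set.toFinite _)
    rw [← Nat.card_coe_set_eq, ← Nat.card_coe_set_eq]
    exact hle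
  refine ⟨A', B', x, inf_le_left, inf_le_left, ?_, hA1, hB1⟩
  intro g hg
  have h1 : g ∈ pset A' B' := by
    rw [heq]
    exact hg
  exact h1

end P9700d
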