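import Mathlib
import Pool.Agent.Lib.P9700d.Defs
import Pool.Agent.Lib.P9700d.NasP
import Pool.Agent.Lib.P9700d.Wiel

/-!
# Sections of Sylow subgroups of finite quotients of `G = A B`

`Q = G ⧸ N` is finite, `A'`, `B'` the images of `A`, `B`: `Q = A' B'`, `RKS r A'` and `RKS r B'` (a subgroup `K ≤ A'` of the finite group `Q` is the closure of a finite set, lift this set to `A`: the closure of the lift is a f.g. subgroup of `A`, so it is generated by `≤ r` elements,
and so is its image `K`). `S' = S.map mk'` is a `p`-subgroup (`N.relIndex S = p^k`) and `S'.index = S.index` (`N ≤ S`). `exists_sylow_prod` gives `A1, B1 ≤ S'` with `S' = A1 B1` and `x A1 x⁻¹ ≤ A'`, `x B1 x⁻¹ ≤ B'`, so `RKS r A1`, `RKS r B1` (conjugate). Apply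
`nas_of_prod` to the group `S'` and `A1.subgroupOf S'`, `B1.subgroupOf S'`; transport `NAS e` along the isomorphism `S ⧸ N.subgroupOf S ≃* S'` (first isomorphism theorem for the restriction of `mk'` to `S`).
-/

set_option autoImplicit false

namespace P9700d

namespace NasSAux

theorem rks_mono {X : Type*} [Group X] {r : ℕ} {A A' : Subgroup X} (h : RKS r A) (hA : A' ≤ A) :
    RKS r A' := fun K hK => h K (hK.trans hA)

theorem rks_quot {G Q : Type*} [Group G] [Group Q] [Finite Q] (f : G →* Q) {A : Subgroup G} {r : ℕ}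
    (hA : ∀ K : Subgroup G, K ≤ A → K.FG →
      ∃ s : Finset G, s.card ≤ r ∧ Subgroup.closure (s : Set G) = K) : RKS r (A.map f) := by
  classical
  have := Fintype.ofFinite Q
  intro K hK
  have hch : ∀ k : K, ∃ a ∈ A, f a = k := fun k => Subgroup.mem_map.1 (hK k.2)
  choose a ha hfa using hch
  have := Fintype.ofFinite K
  let t : Finset G := Finset.univ.image a
  have ht : (f '' (t : Set G)) = (K : Set Q) := by
    ext y
    constructor
    · rintro ⟨x, hx, rfl⟩
      obtain ⟨k, _, rfl⟩ := Finset.mem_image.1 (Finset.mem_coe.1 hx)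
      rw [hfa]
      exact k.2
    · intro hy
      exact ⟨a ⟨y, hy⟩, Finset.mem_coe.2 (Finset.mem_image_of_mem _ (Finset.mem_univ _)), hfa _⟩
  obtain ⟨s, hs, hc⟩ := hA (Subgroup.closure (t : Set G)) (by
    rw [Subgroup.closure_le]
    intro x hx
    obtain ⟨k, _, rfl⟩ := Finset.mem_image.1 (Finset.mem_coe.1 hx)
    exact ha k) ⟨t, rfl⟩
  refine ⟨s.image f, Finset.card_image_le.trans hs, ?_⟩
  rw [Finset.coe_image, ← MonoidHom.map_closure, hc, MonoidHom.map_closure, ht,
    Subgroup.closure_eq]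

theorem rks_subgroupOf {X : Type*} [Group X] {r : ℕ} {A S : Subgroup X} (h : RKS r A) :
    RKS r (A.subgroupOf S) := by
  classical
  intro K hK
  have hKA : K.map S.subtype ≤ A := by
    rintro _ ⟨x, hx, rfl⟩
    exact hK hx
  obtain ⟨s, hs, hc⟩ := h _ hKA
  have hsS : ∀ x ∈ s, x ∈ S := by
    intro x hx
    have h1 : x ∈ K.map S.subtype := by
      rw [← hc]
      exact Subgroup.subset_closure hx
    obtain ⟨y, _, rfl⟩ := h1
    exact y.2
  let s' : Finset S := s.attach.image (fun x => ⟨x.1, hsS x.1 x.2⟩)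
  refine ⟨s', Finset.card_image_le.trans (by rw [Finset.card_attach]; exact hs), ?_⟩
  apply Subgroup.map_injective S.subtype_injective
  rw [MonoidHom.map_closure, ← hc]
  congr 1
  ext y
  constructor
  · rintro ⟨x, hx, rfl⟩
    obtain ⟨z, _, rfl⟩ := Finset.mem_image.1 (Finset.mem_coe.1 hx)
    exact z.2
  · intro hy
    exact ⟨⟨y, hsS y hy⟩, Finset.mem_coe.2 (Finset.mem_image.2 ⟨⟨y, hy⟩, Finset.mem_attach _ _, rfl⟩),
      rfl⟩

theorem nas_surj {X Y : Type*} [Group X] [Group Y] {e : ℕ} (f : X →* Y)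
    (hf : Function.Surjective f) (h : NAS e X) : NAS e Y := by
  classical
  intro M N hM hN hNM hc
  have := hM
  have := hN
  obtain ⟨s, hs, hs2⟩ := h (M.comap f) (N.comap f) inferInstance inferInstance
    (Subgroup.comap_mono hNM) (by
      rw [← Subgroup.map_le_iff_le_comap, Subgroup.map_commutator]
      exact (Subgroup.commutator_mono (Subgroup.map_comap_le _ _) (Subgroup.map_comap_le _ _)).trans hc)
  refine ⟨s.image f, Finset.card_image_le.trans hs, ?_⟩
  have h2 := congrArg (Subgroup.map f) hs2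
  rw [Subgroup.map_sup, MonoidHom.map_closure, Subgroup.map_comap_eq_self_of_surjective hf,
    Subgroup.map_comap_eq_self_of_surjective hf] at h2
  rw [Finset.coe_image]
  exact h2

end NasSAux

open NasSAux

theorem nas_quot {G : Type*} [Group G] {p : ℕ} [Fact p.Prime] (A B : Subgroup G) (r e : ℕ)
    (hA : ∀ K : Subgroup G, K ≤ A → K.FG → ∃ s : Finset G, s.card ≤ r ∧ Subgroup.closure (s : Set G) = K)
    (hB : ∀ K : Subgroup G, K ≤ B → K.FG → ∃ s : Finset G, s.card ≤ r ∧ Subgroup.closure (s : Set G) = K)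
    (hAB : ∀ g : G, ∃ a ∈ A, ∃ b ∈ B, g = a * b)
    (he : ∀ n : ℕ, n ≤ 2 * r + r * (r + 1) * Nat.clog p n → n ≤ e) (S N : Subgroup G)
    [N.Normal] (hNi : N.FiniteIndex) (hNS : N ≤ S) (hk : ∃ k : ℕ, N.relIndex S = p ^ k)
    (hp : ¬ p ∣ S.index) : NAS e (S ⧸ N.subgroupOf S) := by
  have := hNi
  let f : G →* G ⧸ N := QuotientGroup.mk' N
  have hfs : Function.Surjective f := QuotientGroup.mk'_surjective N
  have hker : f.ker = N := QuotientGroup.ker_mk' N
  have hfin : Finite (G ⧸ N) := inferInstance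
  have hA' : RKS r (A.map f) := rks_quot f hA
  have hB' : RKS r (B.map f) := rks_quot f hB
  let φ : S →* S.map f := f.subgroupMap S
  have hφs : Function.Surjective φ := f.subgroupMap_surjective S
  have hφk : φ.ker = N.subgroupOf S := by
    ext x
    rw [MonoidHom.mem_ker, Subgroup.mem_subgroupOf]
    constructor
    · intro h
      have h1 : f x = 1 := congrArg Subtype.val h
      have h2 : (x : G) ∈ f.ker := h1
      rwa [hker] at h2
    · intro h
      apply Subtype.ext
      have h2 : (x : G) ∈ f.ker := by rwa [hker]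
      exact h2
  let ψ : S ⧸ N.subgroupOf S ≃* S.map f :=
    (QuotientGroup.quotientMulEquivOfEq hφk).symm.trans
      (QuotientGroup.quotientKerEquivOfSurjective φ hφs)
  obtain ⟨k, hk⟩ := hk
  have hcard : Nat.card (S.map f) = p ^ k := by
    rw [← Nat.card_congr ψ.toEquiv]
    exact hk
  have hpg : IsPGroup p (S.map f) := IsPGroup.of_card hcard
  have hidx : ¬ p ∣ (S.map f).index := by
    rw [Subgroup.index_map_eq S hfs (by rw [hker]; exact hNS)]
    exact hp
  have hAB' : ∀ g : G ⧸ N, ∃ a ∈ A.map f, ∃ b ∈ B.map f, g = a * b := by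
    intro g
    obtain ⟨g, rfl⟩ := hfs g
    obtain ⟨a, ha, b, hb, rfl⟩ := hAB g
    exact ⟨f a, Subgroup.mem_map_of_mem f ha, f b, Subgroup.mem_map_of_mem f hb, map_mul f a b⟩
  obtain ⟨A1, B1, x, hA1, hB1, hprod, hxA, hxB⟩ :=
    exists_sylow_prod (A.map f) (B.map f) hAB' (S.map f) hpg hidx
  have hconj : ∀ C C1 : Subgroup (G ⧸ N), RKS r C → (∀ a ∈ C1, x * a * x⁻¹ ∈ C) → RKS r C1 := by
    intro C C1 hC hx
    refine rks_mono (NasPAux.rks_map (MulAut.conj x⁻¹).toMonoidHom hC) ?_
    intro a ha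
    refine ⟨x * a * x⁻¹, hx a ha, ?_⟩
    change x⁻¹ * (x * a * x⁻¹) * x⁻¹⁻¹ = a
    group
  have hA2 : RKS r (A1.subgroupOf (S.map f)) := rks_subgroupOf (hconj _ _ hA' hxA)
  have hB2 : RKS r (B1.subgroupOf (S.map f)) := rks_subgroupOf (hconj _ _ hB' hxB)
  have hnas : NAS e (S.map f) := nas_of_prod r e he hpg _ _ hA2 hB2 (by
    intro g
    obtain ⟨a, ha, b, hb, hg⟩ := hprod g g.2
    exact ⟨⟨a, hA1 ha⟩, ha, ⟨b, hB1 hb⟩, hb, Subtype.ext hg⟩)
  exact nas_surj ψ.symm.toMonoidHom ψ.symm.surjective hnas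

end P9700d
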