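import Mathlib

/-!
# A numerical bound

`Nat.clog p n ≤ Nat.clog 2 n` for `2 ≤ p` (`Nat.clog_anti_left`). Put `t = Nat.clog 2 n`, `c = 2 r + r (r+1)`, so `n ≤ c (1 + t)` and `2^(t-1) < n` for `n ≥ 2` (`Nat.pow_pred_clog_lt_self`).
So `2^(t-1) < c (1 + t)`, which bounds `t`: for `t ≥ 2 c + 4`, say, `2^(t-1) ≥ (t + 1)^2 / 2 ...`; any explicit bound will do (e.g. `2^(t-1) ≥ (t+1)^2 / 4 * ...` or `Nat.lt_pow_self`
applied to `u` with `t - 1 = 2 u` or `2 u + 1`: `2^(2u) = (2^u)^2 ≥ (u+1)^2`). Then `n ≤ 2^t` is bounded (`Nat.le_pow_clog`).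
-/

set_option autoImplicit false

namespace P9700d

theorem exists_bound (r : ℕ) :
    ∃ e : ℕ, ∀ p n : ℕ, 2 ≤ p → n ≤ 2 * r + r * (r + 1) * Nat.clog p n → n ≤ e := by
  refine ⟨(2 * r + r * (r + 1)) * (6 * (2 * r + r * (r + 1)) + 3) + 1, fun p n hp h => ?_⟩
  generalize hc : 2 * r + r * (r + 1) = c
  rcases Nat.lt_or_ge n 2 with hn | hn
  · omega
  have h1 : Nat.clog p n ≤ Nat.clog 2 n := Nat.clog_anti_left (by norm_num) hp
  generalize ht : Nat.clog 2 n = t at h1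
  have h2 : n ≤ c * (1 + t) := by
    have h3 : r * (r + 1) * Nat.clog p n ≤ c * t :=
      Nat.mul_le_mul (by omega) h1
    have h4 : 2 * r ≤ c := by omega
    calc n ≤ 2 * r + r * (r + 1) * Nat.clog p n := h
      _ ≤ c + c * t := Nat.add_le_add h4 h3
      _ = c * (1 + t) := by ring
  have h5 : 2 ^ (t - 1) < n := by
    have := Nat.pow_pred_clog_lt_self (b := 2) (by norm_num) (show 1 < n by omega)
    rwa [ht] at this
  have h6 : t ≤ 6 * c + 2 := by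
    obtain ⟨u, hu⟩ : ∃ u, u = (t - 1) / 2 := ⟨_, rfl⟩
    have h7 : (u + 1) * (u + 1) ≤ 2 ^ (t - 1) := by
      have h8 : u + 1 ≤ 2 ^ u := Nat.lt_two_pow_self
      calc (u + 1) * (u + 1) ≤ 2 ^ u * 2 ^ u := Nat.mul_le_mul h8 h8
        _ = 2 ^ (u + u) := (pow_add 2 u u).symm
        _ ≤ 2 ^ (t - 1) := Nat.pow_le_pow_right (by norm_num) (by omega)
    have h9 : (u + 1) * (u + 1) < 3 * c * (u + 1) := by
      calc (u + 1) * (u + 1) ≤ 2 ^ (t - 1) := h7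
        _ < n := h5
        _ ≤ c * (1 + t) := h2
        _ ≤ c * (3 * (u + 1)) := Nat.mul_le_mul_left _ (by omega)
        _ = 3 * c * (u + 1) := by ring
    have h10 : u + 1 < 3 * c := Nat.lt_of_mul_lt_mul_right h9
    omega
  calc n ≤ c * (1 + t) := h2
    _ ≤ c * (6 * c + 3) := Nat.mul_le_mul_left _ (by omega)
    _ ≤ c * (6 * c + 3) + 1 := Nat.le_succ _

end P9700d
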