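import Mathlib
import Pool.Agent.Lib.P9700d.Defs
import Pool.Agent.Lib.P9700d.PowF
import Pool.Agent.Lib.P9700d.FreeA

/-!
# The action on `L k / L (2 k)` as matrices over `ℤ / p^k`

`Q = L k ⧸ (L (2 k)).subgroupOf (L k)` is a finite abelian group (`comm k k`: `2 k + 2 ≥ 2 k`), `T = Additive Q`.
* `p^k T = 0`: `pow_iter`. `|T| = p^(D k)`: `card_sec` with `m = k`. `P = p T` is the image of `L (k+1)`: `pow` and `surj_iter` with `n = 1`; its index is `(L (k+1)).relIndex (L k) = p^D` (`k ≥ 1`). So `exists_equiv` gives `e : T ≃+ (Fin D → ZMod (p^k))`.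
* `G` acts on `L k` by conjugation (`MulAut.conjNormal`), preserving `L (2 k)`, so on `T`; transport by `e`: additive endomorphisms of `Fin D → ZMod (p^k)` are `ZMod (p^k)`-linear (`AddMonoidHom.toZModLinearMap`), take the matrix (`LinearMap.toMatrix'`, `Matrix.toLin'`): a
  monoid homomorphism `f : G →* Matrix (Fin D) (Fin D) (ZMod (p^k))`.
* if all entries of `f g - 1` are divisible by `p^n` (`n ≤ k`), then `g x g⁻¹ x⁻¹` maps into `p^n T` for all `x ∈ L k`, so `g x g⁻¹ x⁻¹ ∈ y^(p^n) L (2 k)` for some `y ∈ L k`, which is in `L (k+n)` (`pow_iter`, `2 k ≥ k + n`). `⁅x, g⁆ = x g x⁻¹ g⁻¹ = (g x g⁻¹ x⁻¹)⁻¹`.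
-/

set_option autoImplicit false

open scoped commutatorElement

namespace P9700d

namespace MatKAux

universe u

/-- the abelian section `A / B` written additively, with the conjugation action -/
theorem exists_section {G : Type u} [Group G] (A B : Subgroup G) [hA : A.Normal] [hB : B.Normal]
    (hc : ⁅A, A⁆ ≤ B) :
    ∃ (T : Type u) (_ : AddCommGroup T) (π : A → T) (ρ : G →* AddMonoid.End T),
      (∀ x y : A, π (x * y) = π x + π y) ∧ Function.Surjective π ∧ (∀ x : A, π x = 0 ↔ (x : G) ∈ B) ∧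
      (∀ (g : G) (x : A), ρ g (π x) = π (MulAut.conjNormal g x)) ∧ Nat.card T = B.relIndex A := by
  let N : Subgroup A := B.subgroupOf A
  have hN : N.Normal := inferInstance
  letI : CommGroup (A ⧸ N) :=
    { (inferInstance : Group (A ⧸ N)) with
      mul_comm := by
        intro a b
        obtain ⟨x, rfl⟩ := QuotientGroup.mk_surjective a
        obtain ⟨y, rfl⟩ := QuotientGroup.mk_surjective b
        change ((x * y : A) : A ⧸ N) = ((y * x : A) : A ⧸ N)
        rw [QuotientGroup.eq]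
        change (((x * y)⁻¹ * (y * x) : A) : G) ∈ B
        have h1 : ⁅((y : G))⁻¹, ((x : G))⁻¹⁆ ∈ ⁅A, A⁆ :=
          Subgroup.commutator_mem_commutator (A.inv_mem y.2) (A.inv_mem x.2)
        have h2 : (((x * y)⁻¹ * (y * x) : A) : G) = ⁅((y : G))⁻¹, ((x : G))⁻¹⁆ := by
          simp only [commutatorElement_def, Subgroup.coe_mul, Subgroup.coe_inv]
          group
        rw [h2]
        exact hc h1 }
  have hpres : ∀ g : G, N ≤ N.comap (MulAut.conjNormal g : MulAut A).toMonoidHom := by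
    intro g x hx
    change ((MulAut.conjNormal g x : A) : G) ∈ B
    rw [MulAut.conjNormal_apply]
    exact hB.conj_mem _ hx g
  let ρ0 : G → AddMonoid.End (Additive (A ⧸ N)) := fun g =>
    MonoidHom.toAdditive (QuotientGroup.map N N (MulAut.conjNormal g : MulAut A).toMonoidHom (hpres g))
  have hρ0 : ∀ (g : G) (x : A), ρ0 g (Additive.ofMul (x : A ⧸ N)) =
      Additive.ofMul ((MulAut.conjNormal g x : A) : A ⧸ N) := fun g x => rfl
  refine ⟨Additive (A ⧸ N), inferInstance, fun x => Additive.ofMul (x : A ⧸ N),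
    { toFun := ρ0, map_one' := ?_, map_mul' := ?_ }, ?_, ?_, ?_, ?_, ?_⟩
  · apply AddMonoidHom.ext
    intro t
    obtain ⟨x, hx⟩ := QuotientGroup.mk_surjective (Additive.toMul t)
    have ht : t = Additive.ofMul (x : A ⧸ N) := by rw [hx]; rfl
    rw [ht]
    refine (hρ0 1 x).trans ?_
    rw [map_one]
    rfl
  · intro g g'
    apply AddMonoidHom.ext
    intro t
    obtain ⟨x, hx⟩ := QuotientGroup.mk_surjective (Additive.toMul t)
    have ht : t = Additive.ofMul (x : A ⧸ N) := by rw [hx]; rfl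
    change ρ0 (g * g') t = ρ0 g (ρ0 g' t)
    rw [ht, hρ0, hρ0, hρ0, map_mul]
    rfl
  · intro x y
    rfl
  · intro t
    obtain ⟨x, hx⟩ := QuotientGroup.mk_surjective (Additive.toMul t)
    exact ⟨x, by change Additive.ofMul (x : A ⧸ N) = t; rw [hx]; rfl⟩
  · intro x
    change ((x : A ⧸ N) = 1) ↔ _
    rw [QuotientGroup.eq_one_iff]
    exact Iff.rfl
  · intro g x
    exact hρ0 g x
  · rfl

/-- additive endomorphisms of `T ≃+ (ZMod m)^D` as matrices -/
theorem exists_matrix {T : Type*} [AddCommGroup T] {D m : ℕ} (e : T ≃+ (Fin D → ZMod m)) :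
    ∃ F : AddMonoid.End T →* Matrix (Fin D) (Fin D) (ZMod m),
      ∀ (φ : AddMonoid.End T) (t : T), e (φ t) = (F φ).mulVec (e t) := by
  classical
  let conj : AddMonoid.End T → ((Fin D → ZMod m) →ₗ[ZMod m] (Fin D → ZMod m)) := fun φ =>
    AddMonoidHom.toZModLinearMap m
      ((e.toAddMonoidHom.comp φ).comp e.symm.toAddMonoidHom)
  have hconj : ∀ φ v, conj φ v = e (φ (e.symm v)) := fun φ v => rfl
  refine ⟨{ toFun := fun φ => LinearMap.toMatrix' (conj φ), map_one' := ?_, map_mul' := ?_ }, ?_⟩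
  · have h1 : conj 1 = LinearMap.id := by
      apply LinearMap.ext
      intro v
      rw [hconj]
      simp
    change LinearMap.toMatrix' (conj 1) = 1
    rw [h1, LinearMap.toMatrix'_id]
  · intro φ ψ
    have h1 : conj (φ * ψ) = (conj φ).comp (conj ψ) := by
      apply LinearMap.ext
      intro v
      rw [LinearMap.comp_apply, hconj, hconj, hconj]
      simp
    change LinearMap.toMatrix' (conj (φ * ψ)) = LinearMap.toMatrix' (conj φ) * LinearMap.toMatrix' (conj ψ)
    rw [h1, LinearMap.toMatrix'_comp]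
  · intro φ t
    change e (φ t) = (LinearMap.toMatrix' (conj φ)).mulVec (e t)
    rw [LinearMap.toMatrix'_mulVec, hconj]
    simp

theorem div_of_entries {T : Type*} [AddCommGroup T] {D m q : ℕ} (e : T ≃+ (Fin D → ZMod m))
    (M : Matrix (Fin D) (Fin D) (ZMod m)) (hM : ∀ a b, ∃ c : ZMod m, (M - 1) a b = (q : ZMod m) * c)
    (t s : T) (hs : e s = M.mulVec (e t)) : ∃ u : T, s = q • u + t := by
  classical
  choose c hc using hM
  refine ⟨e.symm (fun a => ∑ b, c a b * e t b), ?_⟩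
  apply e.injective
  rw [map_add, map_nsmul, e.apply_symm_apply, hs]
  have h1 : M = (M - 1) + 1 := by abel
  conv_lhs => rw [h1]
  rw [Matrix.add_mulVec, Matrix.one_mulVec]
  congr 1
  funext a
  rw [Matrix.mulVec, dotProduct, Pi.smul_apply, nsmul_eq_mul, Finset.mul_sum]
  refine Finset.sum_congr rfl fun b _ => ?_
  rw [hc, mul_assoc]

end MatKAux

theorem exists_mat {G : Type*} [Group G] {p : ℕ} [Fact p.Prime] {L : ℕ → Subgroup G} (h : Fil p L)
    {i0 D : ℕ} (hi0 : 1 ≤ i0) (hs : Stb p L i0 D) (k : ℕ) (hk : i0 ≤ k) :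
    ∃ f : G →* Matrix (Fin D) (Fin D) (ZMod (p ^ k)),
      ∀ g : G, ∀ n : ℕ, n ≤ k → (∀ a b, ∃ c : ZMod (p ^ k), (f g - 1) a b = (p : ZMod (p ^ k)) ^ n * c) →
        ∀ x ∈ L k, ⁅x, g⁆ ∈ L (k + n) := by
  have hk1 : 1 ≤ k := hi0.trans hk
  haveI : (L k).Normal := h.norm k
  haveI : (L (2 * k)).Normal := h.norm _
  have hcom : ⁅L k, L k⁆ ≤ L (2 * k) := (h.comm k k).trans (h.anti' (by omega))
  obtain ⟨T, hT, π, ρ, hadd, hsurj, hker, hρ, hcard⟩ :=
    MatKAux.exists_section (L k) (L (2 * k)) hcom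
  have hπ1 : π 1 = 0 := by
    rw [hker]
    exact (L (2 * k)).one_mem
  have hπinv : ∀ x, π x⁻¹ = -π x := by
    intro x
    have h1 := hadd x x⁻¹
    rw [mul_inv_cancel, hπ1] at h1
    exact (neg_eq_of_add_eq_zero_right h1.symm).symm
  have hπpow : ∀ (x : L k) (n : ℕ), π (x ^ n) = n • π x := by
    intro x n
    induction n with
    | zero => rw [pow_zero, hπ1, zero_smul]
    | succ n ih => rw [pow_succ, hadd, ih, succ_nsmul]
  have heq : ∀ x y : L k, π x = π y → (x : G) * (y : G)⁻¹ ∈ L (2 * k) := by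
    intro x y hxy
    have h1 : π (x * y⁻¹) = 0 := by rw [hadd, hπinv, hxy, add_neg_cancel]
    exact (hker _).1 h1
  have hcard' : Nat.card T = p ^ (D * k) := by
    rw [hcard, two_mul]
    exact card_sec h hs k k hk
  have hp0 : p ≠ 0 := (Fact.out : p.Prime).ne_zero
  haveI : Finite T := Nat.finite_of_card_ne_zero (by rw [hcard']; exact pow_ne_zero _ hp0)
  have hexp : ∀ t : T, (p ^ k) • t = 0 := by
    intro t
    obtain ⟨x, rfl⟩ := hsurj t
    rw [← hπpow, hker]
    have h1 := pow_iter h k k (x : G) x.2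
    rw [← two_mul] at h1
    exact h1
  let P : AddSubgroup T := (nsmulAddMonoidHom (α := T) p).range
  have hP : ∀ t : T, t ∈ P ↔ ∃ u : T, t = p • u := by
    intro t
    constructor
    · rintro ⟨u, hu⟩
      exact ⟨u, hu.symm⟩
    · rintro ⟨u, hu⟩
      exact ⟨u, hu.symm⟩
  have hPmem : ∀ x : L k, π x ∈ P ↔ (x : G) ∈ L (k + 1) := by
    intro x
    rw [hP]
    constructor
    · rintro ⟨u, hu⟩
      obtain ⟨y, rfl⟩ := hsurj u
      rw [← hπpow] at hu
      have h1 := heq _ _ hu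
      have h2 : ((y ^ p : L k) : G) ∈ L (k + 1) := h.pow k _ y.2
      have h3 := (L (k + 1)).mul_mem (h.anti' (by omega) h1) h2
      rwa [inv_mul_cancel_right] at h3
    · intro hx
      obtain ⟨y, hy, z, hz, hyz⟩ := surj_iter h k 1 (x : G) hx
      have hzk : z ∈ L k := h.anti' (by omega) hz
      refine ⟨π ⟨y, hy⟩, ?_⟩
      have h1 : x = (⟨y, hy⟩ : L k) ^ p * ⟨z, hzk⟩ := by
        apply Subtype.ext
        rw [hyz, pow_one]
        rfl
      have h2 : π ⟨z, hzk⟩ = 0 := (hker _).2 hz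
      rw [h1, hadd, hπpow, h2, add_zero]
  have hq : P.index = p ^ D := by
    let πh : Additive (L k) →+ T :=
      { toFun := fun x => π (Additive.toMul x), map_zero' := hπ1, map_add' := fun x y => hadd _ _ }
    have hπh : Function.Surjective πh := fun t => by
      obtain ⟨x, hx⟩ := hsurj t
      exact ⟨Additive.ofMul x, hx⟩
    have h1 : (P.comap πh).index = P.index := P.index_comap_of_surjective hπh
    have h2 : P.comap πh = Subgroup.toAddSubgroup ((L (k + 1)).subgroupOf (L k)) := by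
      ext x
      change π (Additive.toMul x) ∈ P ↔ ((Additive.toMul x : L k) : G) ∈ L (k + 1)
      exact hPmem _
    rw [← h1, h2]
    exact hs.card k hk
  obtain ⟨e⟩ := exists_equiv k D hk1 hexp hcard' P hP hq
  obtain ⟨F, hF⟩ := MatKAux.exists_matrix e
  refine ⟨F.comp ρ, ?_⟩
  intro g n hn hdiv x hx
  have hdiv' : ∀ a b, ∃ c : ZMod (p ^ k), (F (ρ g) - 1) a b = ((p ^ n : ℕ) : ZMod (p ^ k)) * c := by
    intro a b
    obtain ⟨c, hc⟩ := hdiv a b
    exact ⟨c, by rw [Nat.cast_pow]; exact hc⟩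
  obtain ⟨u, hu⟩ := MatKAux.div_of_entries e (F (ρ g)) hdiv' (π ⟨x, hx⟩) (ρ g (π ⟨x, hx⟩)) (hF _ _)
  obtain ⟨y, rfl⟩ := hsurj u
  rw [hρ, ← hπpow, ← hadd] at hu
  have h1 := heq _ _ hu
  have h2 : ((y ^ (p ^ n) : L k) : G) ∈ L (k + n) := pow_iter h k n _ y.2
  have h3 : g * x * g⁻¹ * (((y ^ (p ^ n) : L k) : G) * x)⁻¹ ∈ L (k + n) := h.anti' (by omega) h1
  have h4 := (L (k + n)).mul_mem h3 h2
  have hnorm := h.norm (k + n)
  have h5 : g * x * g⁻¹ * x⁻¹ ∈ L (k + n) := by
    have e1 : g * x * g⁻¹ * (((y ^ (p ^ n) : L k) : G) * x)⁻¹ * ((y ^ (p ^ n) : L k) : G) =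
        g * x * g⁻¹ * x⁻¹ := by
      group
    rwa [e1] at h4
  have h6 : ⁅x, g⁆ = (g * x * g⁻¹ * x⁻¹)⁻¹ := by
    rw [commutatorElement_def]
    group
  rw [h6]
  exact (L (k + n)).inv_mem h5

end P9700d
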