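import Mathlib

/-!
# A field of characteristic zero from the rings `ℤ / p^k`

`R = Π k, ZMod (p^k)`, `𝒰 = Filter.hyperfilter ℕ` (`≤ cofinite = atTop`). `𝔮 = {r : ∀ n, ∀ᶠ k in 𝒰, p^n ∣ r k}` is an ideal. It is prime: if `r, s ∉ 𝔮` there are `n, m` with `p^n ∤ r k` and `p^m ∤ s k` for `𝒰`-almost all `k` (ultrafilter), and then `p^(n+m) ∤ r k * s k` for
these `k` with `k ≥ n + m`: take `x = (r k).val`, `y = (s k).val`; for `j ≤ k`, `(p : ZMod (p^k))^j ∣ (x : ZMod (p^k))` iff `p^j ∣ x` in `ℕ` (a common multiple argument with `p^k`), and `p^(n+m) ∣ x y` implies `p^n ∣ x` or `p^m ∣ y`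
(`Nat.Prime` multiplicities; e.g. `Prime.pow_dvd_of_dvd_mul_left` style or `padicValNat`). `1 ∉ 𝔮` (`n = 1`, `k ≥ 1`).
`F = FractionRing (R ⧸ 𝔮)`; `φ` the composite; `φ r = 0` iff `r ∈ 𝔮`. Characteristic zero: a natural number `m ≠ 0` is not in `𝔮`: `p^n ∣ m` in `ZMod (p^k)` with `n ≤ k` gives `p^n ∣ m` in `ℕ`, impossible for `p^n > m`.
-/

set_option autoImplicit false

namespace P9700d

namespace RingFAux

variable {p : ℕ} [hp : Fact p.Prime]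

lemma dvd_val_iff {k j : ℕ} (hjk : j ≤ k) (z : ZMod (p ^ k)) :
    (p : ZMod (p ^ k)) ^ j ∣ z ↔ p ^ j ∣ z.val := by
  have hne : NeZero (p ^ k) := ⟨pow_ne_zero _ hp.out.ne_zero⟩
  constructor
  · rintro ⟨c, rfl⟩
    have h1 : (p : ZMod (p ^ k)) ^ j * c = ((p ^ j * c.val : ℕ) : ZMod (p ^ k)) := by
      rw [Nat.cast_mul, Nat.cast_pow, ZMod.natCast_zmod_val]
    rw [h1, ZMod.val_natCast, Nat.dvd_mod_iff (pow_dvd_pow p hjk)]
    exact dvd_mul_right _ _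
  · rintro ⟨c, hc⟩
    refine ⟨(c : ZMod (p ^ k)), ?_⟩
    rw [← ZMod.natCast_zmod_val z, hc, Nat.cast_mul, Nat.cast_pow]

lemma nat_dvd {a b n m : ℕ} (h : p ^ (n + m) ∣ a * b) : p ^ n ∣ a ∨ p ^ m ∣ b := by
  by_cases ha : a = 0
  · left
    rw [ha]
    exact dvd_zero _
  by_cases hb : b = 0
  · right
    rw [hb]
    exact dvd_zero _
  rw [padicValNat_dvd_iff_le (mul_ne_zero ha hb), padicValNat.mul ha hb] at h
  rw [padicValNat_dvd_iff_le ha, padicValNat_dvd_iff_le hb]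
  omega

lemma zmod_dvd {k n m : ℕ} (hk : n + m ≤ k) {r s : ZMod (p ^ k)}
    (h : (p : ZMod (p ^ k)) ^ (n + m) ∣ r * s) :
    (p : ZMod (p ^ k)) ^ n ∣ r ∨ (p : ZMod (p ^ k)) ^ m ∣ s := by
  rw [dvd_val_iff hk, ZMod.val_mul, Nat.dvd_mod_iff (pow_dvd_pow p hk)] at h
  rw [dvd_val_iff (by omega : n ≤ k), dvd_val_iff (by omega : m ≤ k)]
  exact nat_dvd h

/-- the ideal -/
def qq (p : ℕ) (𝒰 : Ultrafilter ℕ) : Ideal (∀ k : ℕ, ZMod (p ^ k)) where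
  carrier := {r | ∀ n : ℕ, ∀ᶠ k in (𝒰 : Filter ℕ), (p : ZMod (p ^ k)) ^ n ∣ r k}
  zero_mem' := fun n => Filter.Eventually.of_forall fun k => dvd_zero _
  add_mem' := by
    intro a b ha hb n
    filter_upwards [ha n, hb n] with k h1 h2
    exact dvd_add h1 h2
  smul_mem' := by
    intro c a ha n
    filter_upwards [ha n] with k h1
    exact dvd_mul_of_dvd_right h1 _

omit hp in
lemma mem_qq {𝒰 : Ultrafilter ℕ} {r : ∀ k : ℕ, ZMod (p ^ k)} :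
    r ∈ qq p 𝒰 ↔ ∀ n : ℕ, ∀ᶠ k in (𝒰 : Filter ℕ), (p : ZMod (p ^ k)) ^ n ∣ r k := Iff.rfl

lemma nat_notMem {𝒰 : Ultrafilter ℕ} (hU : (𝒰 : Filter ℕ) ≤ Filter.atTop) {m : ℕ} (hm : m ≠ 0) :
    (m : ∀ k : ℕ, ZMod (p ^ k)) ∉ qq p 𝒰 := by
  intro h
  rw [mem_qq] at h
  have h1 := h m
  have h2 : ∀ᶠ k in (𝒰 : Filter ℕ), m ≤ k := hU (Filter.eventually_ge_atTop m)
  obtain ⟨k, h3, h4⟩ := (h1.and h2).exists
  rw [dvd_val_iff h4] at h3
  have hlt : m < p ^ m := Nat.lt_pow_self hp.out.one_lt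
  have h5 : ((m : ∀ k : ℕ, ZMod (p ^ k)) k).val = m := by
    have h6 : (m : ∀ k : ℕ, ZMod (p ^ k)) k = (m : ZMod (p ^ k)) := rfl
    rw [h6, ZMod.val_natCast]
    exact Nat.mod_eq_of_lt (lt_of_lt_of_le hlt (Nat.pow_le_pow_right hp.out.pos h4))
  rw [h5] at h3
  exact absurd (Nat.le_of_dvd (Nat.pos_of_ne_zero hm) h3) (by omega)

lemma prime_qq {𝒰 : Ultrafilter ℕ} (hU : (𝒰 : Filter ℕ) ≤ Filter.atTop) : (qq p 𝒰).IsPrime := by
  refine ⟨?_, ?_⟩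
  · rw [Ideal.ne_top_iff_one]
    have h := nat_notMem (p := p) hU (m := 1) one_ne_zero
    rw [Nat.cast_one] at h
    exact h
  · intro r s hrs
    by_contra hcon
    push Not at hcon
    obtain ⟨hr, hs⟩ := hcon
    rw [mem_qq] at hr hs hrs
    push Not at hr hs
    obtain ⟨n, hn⟩ := hr
    obtain ⟨m, hm⟩ := hs
    have h1 : ∀ᶠ k in (𝒰 : Filter ℕ), ¬ (p : ZMod (p ^ k)) ^ n ∣ r k :=
      Ultrafilter.eventually_not.2 (by simpa using hn)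
    have h2 : ∀ᶠ k in (𝒰 : Filter ℕ), ¬ (p : ZMod (p ^ k)) ^ m ∣ s k :=
      Ultrafilter.eventually_not.2 (by simpa using hm)
    have h3 : ∀ᶠ k in (𝒰 : Filter ℕ), n + m ≤ k := hU (Filter.eventually_ge_atTop _)
    obtain ⟨k, h4, h5, h6, h7⟩ := (h1.and (h2.and (h3.and (hrs (n + m))))).exists
    rcases zmod_dvd h6 h7 with h8 | h8
    · exact h4 h8
    · exact h5 h8

end RingFAux

open RingFAux

theorem exists_field (p : ℕ) [Fact p.Prime] :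
    ∃ (F : Type) (_ : Field F) (_ : CharZero F) (φ : (∀ k : ℕ, ZMod (p ^ k)) →+* F)
      (𝒰 : Ultrafilter ℕ), (𝒰 : Filter ℕ) ≤ Filter.atTop ∧
        ∀ r : (∀ k : ℕ, ZMod (p ^ k)), φ r = 0 → ∀ n : ℕ, ∀ᶠ k in (𝒰 : Filter ℕ),
          ∃ c : ZMod (p ^ k), r k = (p : ZMod (p ^ k)) ^ n * c := by
  have hU : ((Filter.hyperfilter ℕ : Ultrafilter ℕ) : Filter ℕ) ≤ Filter.atTop := by
    rw [← Nat.cofinite_eq_atTop]
    exact Filter.hyperfilter_le_cofinite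
  have hprime := prime_qq (p := p) hU
  have hinj : Function.Injective (algebraMap ((∀ k : ℕ, ZMod (p ^ k)) ⧸ qq p (Filter.hyperfilter ℕ))
      (FractionRing ((∀ k : ℕ, ZMod (p ^ k)) ⧸ qq p (Filter.hyperfilter ℕ)))) :=
    IsFractionRing.injective _ _
  let φ : (∀ k : ℕ, ZMod (p ^ k)) →+*
      FractionRing ((∀ k : ℕ, ZMod (p ^ k)) ⧸ qq p (Filter.hyperfilter ℕ)) :=
    (algebraMap _ _).comp (Ideal.Quotient.mk (qq p (Filter.hyperfilter ℕ)))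
  have hφ : ∀ r, φ r = 0 → r ∈ qq p (Filter.hyperfilter ℕ) := by
    intro r hr
    rw [← Ideal.Quotient.eq_zero_iff_mem]
    apply hinj
    rw [map_zero]
    exact hr
  refine ⟨FractionRing ((∀ k : ℕ, ZMod (p ^ k)) ⧸ qq p (Filter.hyperfilter ℕ)), inferInstance, ?_,
    φ, Filter.hyperfilter ℕ, hU, ?_⟩
  · apply charZero_of_inj_zero
    intro m hm
    by_contra hne
    apply nat_notMem (p := p) hU hne
    apply hφ
    rw [map_natCast]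
    exact hm
  · intro r hr n
    exact mem_qq.1 (hφ r hr) n

end P9700d
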