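import Mathlib
import Pool.Agent.Lib.P9700d.Defs
import Pool.Agent.Lib.P9700d.MatK
import Pool.Agent.Lib.P9700d.RingF

/-!
# The representation over a field of characteristic zero
-/

set_option autoImplicit false

open scoped commutatorElement

namespace P9700d

theorem exists_rep {G : Type*} [Group G] {p : ℕ} [Fact p.Prime] {L : ℕ → Subgroup G} (h : Fil p L)
    {i0 D : ℕ} (hi0 : 1 ≤ i0) (hs : Stb p L i0 D) :
    ∃ (F : Type) (_ : Field F) (_ : CharZero F) (ρ : G →* Matrix.GeneralLinearGroup (Fin D) F),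
      ∀ g : G, ρ g = 1 → ∀ n : ℕ, ∃ᶠ k in Filter.atTop, ∀ x ∈ L k, ⁅x, g⁆ ∈ L (k + n) := by
  classical
  obtain ⟨F, iF, iC, φ, 𝒰, h𝒰, hφ⟩ := exists_field p
  choose f hf using fun (k : ℕ) (hk : i0 ≤ k) => exists_mat h hi0 hs k hk
  let fk : ∀ k : ℕ, G →* Matrix (Fin D) (Fin D) (ZMod (p ^ k)) :=
    fun k => if hk : i0 ≤ k then f k hk else 1
  let Φ : G →* Matrix (Fin D) (Fin D) (∀ k : ℕ, ZMod (p ^ k)) :=
    { toFun := fun g => Matrix.of fun a b k => fk k g a b
      map_one' := by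
        ext a b k
        rw [Matrix.of_apply, map_one, Matrix.one_apply, Matrix.one_apply]
        split_ifs <;> rfl
      map_mul' := by
        intro x y
        ext a b k
        rw [Matrix.of_apply, map_mul, Matrix.mul_apply, Matrix.mul_apply, Finset.sum_apply]
        rfl }
  have hΦ : ∀ g a b k, Φ g a b k = fk k g a b := fun g a b k => rfl
  let Ψ : G →* Matrix (Fin D) (Fin D) F := (φ.mapMatrix (m := Fin D)).toMonoidHom.comp Φ
  have hΨ : ∀ g a b, Ψ g a b = φ (Φ g a b) := fun g a b => rfl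
  refine ⟨F, iF, iC, Ψ.toHomUnits, ?_⟩
  intro g hg n
  have h1 : Ψ g = 1 := by
    have h2 := congrArg Units.val hg
    rwa [MonoidHom.coe_toHomUnits, Units.val_one] at h2
  have h2 : ∀ a b, φ (fun k => (fk k g - 1) a b) = 0 := by
    intro a b
    have h3 : (fun k => (fk k g - 1) a b) = Φ g a b - (1 : Matrix (Fin D) (Fin D) (∀ k : ℕ, ZMod (p ^ k))) a b := by
      funext k
      rw [Pi.sub_apply, hΦ, Matrix.sub_apply, Matrix.one_apply, Matrix.one_apply]
      split_ifs <;> rfl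
    rw [h3, map_sub, ← hΨ, h1, Matrix.one_apply, Matrix.one_apply]
    split_ifs <;> simp
  have h3 : ∀ᶠ k in (𝒰 : Filter ℕ), ∀ a b, ∃ c : ZMod (p ^ k), (fk k g - 1) a b = (p : ZMod (p ^ k)) ^ n * c := by
    rw [Filter.eventually_all]
    intro a
    rw [Filter.eventually_all]
    intro b
    exact hφ _ (h2 a b) n
  have h4 : ∀ᶠ k in (𝒰 : Filter ℕ), i0 ≤ k ∧ n ≤ k :=
    h𝒰 ((Filter.eventually_ge_atTop i0).and (Filter.eventually_ge_atTop n))
  have h5 : ∀ᶠ k in (𝒰 : Filter ℕ), ∀ x ∈ L k, ⁅x, g⁆ ∈ L (k + n) := by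
    filter_upwards [h3, h4] with k hk3 hk4
    refine hf k hk4.1 g n hk4.2 ?_
    have e : fk k = f k hk4.1 := dif_pos hk4.1
    rw [e] at hk3
    exact hk3
  exact h5.frequently.filter_mono h𝒰

end P9700d
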