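import Mathlib
import Pool.Agent.Lib.P9700d.Defs

/-!
# The factors of the filtration stabilise

`d i = (L (i+1)).relIndex (L i)`, nonzero. Taking `p`-th powers induces a surjective map `L i / L (i+1) → L (i+1) / L (i+2)` : well defined: for `x ∈ L i`, `w ∈ L (i+1)`: modulo the normal subgroup `L (i+2)` `x` and `w`
commute (`comm i (i+1)`, `2 i + 3 ≥ i + 2`) and `w^p ∈ L (i+2)`, so `(x w)^p ≡ x^p`; surjective: `surj`. So `d (i+1) ≤ d i`, and `d` is constant from some `i0` on; a surjective map between finite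
sets of the same cardinality is injective: if `x ∈ L i`, `x^p ∈ L (i+2)` then `x` and `1` have the same image, so `x ∈ L (i+1)`.
The constant value is a power of `p`: `L i ⧸ (L (i+1)).subgroupOf (L i)` is a finite group in which `x^p = 1` for all `x` (`pow`): a `p`-group (`IsPGroup`, `IsPGroup.iff_card`).
-/

set_option autoImplicit false

open scoped commutatorElement

namespace P9700d

namespace StabAux

variable {G : Type*} [Group G] {p : ℕ} {L : ℕ → Subgroup G}

/-- the factor `L i / L (i+1)` -/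
abbrev Q (L : ℕ → Subgroup G) (i : ℕ) : Type _ := ↥(L i) ⧸ (L (i + 1)).subgroupOf (L i)

/-- modulo `L (i+2)` the `p`-th power only depends on the class modulo `L (i+1)` -/
theorem pow_congr (h : Fil p L) (i : ℕ) {x y : G} (hx : x ∈ L i) (hxy : x⁻¹ * y ∈ L (i + 1)) :
    (x ^ p)⁻¹ * y ^ p ∈ L (i + 2) := by
  have := h.norm (i + 2)
  rw [← QuotientGroup.eq, QuotientGroup.mk_pow, QuotientGroup.mk_pow]
  have hy : y = x * (x⁻¹ * y) := by group
  have hc : Commute ((x : G) : G ⧸ L (i + 2)) ((x⁻¹ * y : G) : G ⧸ L (i + 2)) := by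
    have h1 : ⁅x, x⁻¹ * y⁆ ∈ L (i + 2) := by
      have h2 := h.comm i (i + 1) (Subgroup.commutator_mem_commutator hx hxy)
      exact h.anti' (by omega) h2
    have h3 : ((⁅x, x⁻¹ * y⁆ : G) : G ⧸ L (i + 2)) = 1 :=
      (QuotientGroup.eq_one_iff _).2 h1
    have h4 : ⁅((x : G) : G ⧸ L (i + 2)), ((x⁻¹ * y : G) : G ⧸ L (i + 2))⁆ = 1 := by
      rw [← h3]
      rfl
    exact commutatorElement_eq_one_iff_commute.1 h4
  have hw : ((x⁻¹ * y : G) : G ⧸ L (i + 2)) ^ p = 1 := by
    rw [← QuotientGroup.mk_pow]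
    exact (QuotientGroup.eq_one_iff _).2 (h.pow (i + 1) _ hxy)
  have hy' : ((y : G) : G ⧸ L (i + 2)) = (x : G ⧸ L (i + 2)) * ((x⁻¹ * y : G) : G ⧸ L (i + 2)) := by
    rw [← QuotientGroup.mk_mul, ← hy]
  rw [hy', hc.mul_pow, hw, mul_one]

/-- taking `p`-th powers -/
def pm (h : Fil p L) (i : ℕ) : Q L i → Q L (i + 1) :=
  Quotient.map' (fun x : ↥(L i) => (⟨(x : G) ^ p, h.pow i x x.2⟩ : ↥(L (i + 1)))) (by
    intro x y hxy
    rw [QuotientGroup.leftRel_apply] at hxy ⊢
    rw [Subgroup.mem_subgroupOf] at hxy ⊢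
    exact pow_congr h i x.2 hxy)

theorem pm_mk (h : Fil p L) (i : ℕ) (x : ↥(L i)) :
    pm h i (QuotientGroup.mk x) = QuotientGroup.mk (⟨(x : G) ^ p, h.pow i x x.2⟩ : ↥(L (i + 1))) :=
  rfl

theorem pm_surj (h : Fil p L) (i : ℕ) : Function.Surjective (pm h i) := by
  intro q
  induction q using QuotientGroup.induction_on with
  | _ y =>
    obtain ⟨x, hx, z, hz, e⟩ := h.surj i y y.2
    refine ⟨QuotientGroup.mk ⟨x, hx⟩, ?_⟩
    rw [pm_mk, QuotientGroup.eq, Subgroup.mem_subgroupOf]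
    change (x ^ p)⁻¹ * (y : G) ∈ L (i + 1 + 1)
    rw [e]
    have : (x ^ p)⁻¹ * (x ^ p * z) = z := by group
    rw [this]
    exact hz

theorem fin (h : Fil p L) (i : ℕ) : Finite (Q L i) := by
  have := h.fi (i + 1)
  infer_instance

theorem card_le (h : Fil p L) (i : ℕ) : Nat.card (Q L (i + 1)) ≤ Nat.card (Q L i) := by
  have := fin h i
  exact Nat.card_le_card_of_surjective _ (pm_surj h i)

theorem card_anti (h : Fil p L) : Antitone (fun i => Nat.card (Q L i)) :=
  antitone_nat_of_succ_le (card_le h)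

theorem card_pow [Fact p.Prime] (h : Fil p L) (i : ℕ) : ∃ D : ℕ, Nat.card (Q L i) = p ^ D := by
  have := fin h i
  have := h.norm (i + 1)
  have : ((L (i + 1)).subgroupOf (L i)).Normal := inferInstance
  refine IsPGroup.iff_card.1 ?_
  intro q
  refine ⟨1, ?_⟩
  induction q using QuotientGroup.induction_on with
  | _ x =>
    rw [pow_one, ← QuotientGroup.mk_pow, QuotientGroup.eq_one_iff, Subgroup.mem_subgroupOf]
    exact h.pow i x x.2

theorem stab {d : ℕ → ℕ} (hd : Antitone d) : ∃ i0, ∀ i, i0 ≤ i → d i = d i0 := by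
  have hex : ∃ n, ∃ i, d i = n := ⟨d 0, 0, rfl⟩
  classical
  obtain ⟨i0, hi0⟩ := Nat.find_spec hex
  refine ⟨i0, fun i hi => le_antisymm (hd hi) ?_⟩
  rw [hi0]
  exact Nat.find_min' hex ⟨i, rfl⟩

end StabAux

open StabAux

theorem exists_stb {G : Type*} [Group G] {p : ℕ} [Fact p.Prime] (L : ℕ → Subgroup G) (h : Fil p L) :
    ∃ i0 D : ℕ, 1 ≤ i0 ∧ Stb p L i0 D := by
  obtain ⟨i0, hi0⟩ := stab (card_anti h)
  obtain ⟨D, hD⟩ := card_pow h i0
  have hc : ∀ i, i0 ≤ i → Nat.card (Q L i) = p ^ D := fun i hi => (hi0 i hi).trans hD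
  refine ⟨i0 + 1, D, by omega, ?_, ?_⟩
  · intro i hi
    exact hc i (by omega)
  · intro i hi x hx hxp
    have := fin h i
    have hb : Function.Bijective (pm h i) :=
      (pm_surj h i).bijective_of_nat_card_le (by rw [hc i (by omega), hc (i + 1) (by omega)])
    have e : pm h i (QuotientGroup.mk ⟨x, hx⟩) = pm h i (QuotientGroup.mk 1) := by
      rw [pm_mk, pm_mk, QuotientGroup.eq, Subgroup.mem_subgroupOf]
      change (x ^ p)⁻¹ * (1 : G) ^ p ∈ L (i + 1 + 1)
      rw [one_pow, mul_one]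
      exact (L (i + 2)).inv_mem hxp
    have e2 := hb.1 e
    rw [QuotientGroup.eq, Subgroup.mem_subgroupOf] at e2
    have e3 : x⁻¹ * 1 ∈ L (i + 1) := e2
    rw [mul_one] at e3
    exact (L (i + 1)).inv_mem_iff.1 e3

end P9700d
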