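import Mathlib
import Pool.Agent.Lib.P9700d.Defs

/-!
# Normal subgroups inside `VV p X` are powerfully embedded

`X` a finite `p`-group, `V = VV p X`. Claim: `⁅N, V⁆ ≤ K := pw (p^2) N` for every normal subgroup `N ≤ V` of `X`. Strong induction on `Nat.card N`.

Suppose not. `D = ⁅N, V⁆ ⊔ K` is normal in `X`, `K < D ≤ N`. In the finite `p`-group `X ⧸ K` the nontrivial normal subgroup `D / K` contains a normal subgroup of `X ⧸ K` of index `p` in it (a maximal normal
subgroup `K' < D` of `X` containing `K` has index `p` in `D`: `D / K'` meets the centre of `X ⧸ K'` nontrivially, take an element of order `p` there): `K ≤ K' < D`, `K'` normal in `X`, `K'.relIndex D = p`.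
(1) If `⁅N, N⁆ ≤ K'`, then `N / K'` is a normal abelian section of exponent dividing `p^2` (`x^(p^2) ∈ K ≤ K'`), so by the definition of `V`, `⁅N, V⁆ ≤ K'` and `D ≤ K'`: contradiction.
(2) So `⁅N, N⁆` is not contained in `K'`. If `D = N` then `N / K'` has order `p`, so it is abelian, contradiction to (2). So `D < N` and there is a normal subgroup `M` of `X` with `D ≤ M < N` and `M.relIndex N = p`
(same fact as above). By induction `⁅M, V⁆ ≤ pw (p^2) M ≤ K ≤ K'`. Take `x ∈ N`, `x ∉ M`: `N = M ⊔ zpowers x`, and modulo `K'` the elements of `M` commute with all elements of `N ≤ V`, so `N / K'` is abelian: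
contradiction to (2).
General fact used twice (prove it as an auxiliary lemma): `X` finite `p`-group, `K0 < D0` normal subgroups: there is a normal subgroup `K1` with `K0 ≤ K1 < D0` and `K1.relIndex D0 = p` (take `K1` maximal with
`K0 ≤ K1 < D0`, normal; the image of `D0` in `X ⧸ K1` is a nontrivial normal subgroup of a `p`-group, so contains a central subgroup of order `p`, whose preimage is normal, so equal to `D0` by maximality).
-/

set_option autoImplicit false

namespace P9700d

namespace PEAux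

open scoped commutatorElement

theorem comm_normal {X : Type*} [Group X] {K : Subgroup X} (hK : K.Normal) {m : X} (hm : m ∈ K)
    (g : X) : ⁅m, g⁆ ∈ K := by
  haveI := hK
  have : ⁅m, g⁆ ∈ ⁅K, (⊤ : Subgroup X)⁆ :=
    Subgroup.commutator_mem_commutator hm (Subgroup.mem_top g)
  exact Subgroup.commutator_le_left K ⊤ this

/-- `N` is abelian modulo `K` if it is generated by `M` and one element `y` and `M` is central modulo `K` -/
theorem comm_of_cyclic {X : Type*} [Group X] {K M N : Subgroup X} (hK : K.Normal) {y : X}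
    (hyN : y ∈ N) (hN : N ≤ M ⊔ Subgroup.zpowers y) (hMN : ∀ m ∈ M, ∀ g ∈ N, ⁅m, g⁆ ∈ K) :
    ⁅N, N⁆ ≤ K := by
  haveI := hK
  -- commuting modulo `K`
  have key : ∀ a b : X, ⁅a, b⁆ ∈ K ↔ Commute (QuotientGroup.mk' K a) (QuotientGroup.mk' K b) := by
    intro a b
    rw [← commutatorElement_eq_one_iff_commute, ← map_commutatorElement]
    exact (QuotientGroup.eq_one_iff _).symm
  set π := QuotientGroup.mk' K with hπ
  have h1 : N ≤ (Subgroup.centralizer {π y}).comap π := by
    refine hN.trans (sup_le ?_ ?_)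
    · intro m hm
      rw [Subgroup.mem_comap, Subgroup.mem_centralizer_singleton_iff]
      exact ((key m y).1 (hMN m hm y hyN)).eq
    · rw [Subgroup.zpowers_le, Subgroup.mem_comap, Subgroup.mem_centralizer_singleton_iff]
  have h2 : N ≤ (Subgroup.centralizer ((N.map π : Subgroup (X ⧸ K)) : Set (X ⧸ K))).comap π := by
    refine hN.trans (sup_le ?_ ?_)
    · intro m hm
      rw [Subgroup.mem_comap, Subgroup.mem_centralizer_iff]
      rintro _ ⟨g, hg, rfl⟩
      exact (((key m g).1 (hMN m hm g hg)).eq).symm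
    · rw [Subgroup.zpowers_le, Subgroup.mem_comap, Subgroup.mem_centralizer_iff]
      rintro _ ⟨g, hg, rfl⟩
      have := h1 hg
      rw [Subgroup.mem_comap, Subgroup.mem_centralizer_singleton_iff] at this
      exact this
  rw [Subgroup.commutator_le]
  intro a ha b hb
  rw [key]
  have := h2 ha
  rw [Subgroup.mem_comap, Subgroup.mem_centralizer_iff] at this
  exact (this (π b) ⟨b, hb, rfl⟩).symm

/-- a nontrivial normal subgroup of a finite `p`-group contains a nontrivial central element -/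
theorem exists_central {Q : Type*} [Group Q] [Finite Q] {p : ℕ} [Fact p.Prime] (hQ : IsPGroup p Q)
    (E : Subgroup Q) [E.Normal] (hE : E ≠ ⊥) : ∃ z ∈ E, z ≠ 1 ∧ ∀ g : Q, g * z = z * g := by
  classical
  letI : MulAction Q E := MulAction.compHom E (MulAut.conjNormal (H := E))
  have hcard : p ∣ Nat.card E := by
    haveI : Nontrivial E := (Subgroup.nontrivial_iff_ne_bot E).2 hE
    obtain ⟨n, hn, hc⟩ := (hQ.to_subgroup E).nontrivial_iff_card.1 inferInstance
    rw [hc]
    exact dvd_pow_self p hn.ne'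
  have h1 : (1 : E) ∈ MulAction.fixedPoints Q E := by
    intro g
    change (MulAut.conjNormal g) (1 : E) = 1
    exact map_one _
  obtain ⟨b, hb, hb1⟩ := hQ.exists_fixed_point_of_prime_dvd_card_of_fixed_point E hcard h1
  refine ⟨b, b.2, ?_, ?_⟩
  · intro h
    exact hb1 (Subtype.ext h.symm)
  · intro g
    have h2 : (MulAut.conjNormal g) b = b := hb g
    have h3 := congrArg (fun e : E => (e : Q)) h2
    simp only [MulAut.conjNormal_apply] at h3
    calc g * (b : Q) = g * b * g⁻¹ * g := by group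
      _ = b * g := by rw [h3]

/-- between two normal subgroups `K0 < D0` there is a normal subgroup `K1 < D0` with `D0 / K1` cyclic -/
theorem chief {X : Type*} [Group X] [Finite X] {p : ℕ} [Fact p.Prime] (hX : IsPGroup p X)
    {K0 D0 : Subgroup X} (hK0 : K0.Normal) (hD0 : D0.Normal) (h : K0 < D0) :
    ∃ K1 : Subgroup X, K1.Normal ∧ K0 ≤ K1 ∧ K1 < D0 ∧
      ∃ x ∈ D0, D0 ≤ K1 ⊔ Subgroup.zpowers x := by
  classical
  have hfin : ({K1 : Subgroup X | K1.Normal ∧ K0 ≤ K1 ∧ K1 < D0}).Finite := Set.toFinite _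
  obtain ⟨K1, hK1, hmax⟩ := hfin.exists_maximal ⟨K0, hK0, le_refl _, h⟩
  obtain ⟨hK1n, hK01, hK1D⟩ := hK1
  refine ⟨K1, hK1n, hK01, hK1D, ?_⟩
  haveI := hK1n
  haveI := hD0
  set π := QuotientGroup.mk' K1 with hπ
  have hsurj : Function.Surjective π := QuotientGroup.mk'_surjective K1
  haveI : (D0.map π).Normal := hD0.map π hsurj
  have hE : D0.map π ≠ ⊥ := by
    intro hbot
    apply hK1D.not_ge
    intro d hd
    have : π d ∈ D0.map π := ⟨d, hd, rfl⟩
    rw [hbot, Subgroup.mem_bot] at this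
    exact (QuotientGroup.eq_one_iff d).1 this
  obtain ⟨z, hz, hz1, hzc⟩ := exists_central (hX.to_quotient K1) (D0.map π) hE
  obtain ⟨x, hxD, rfl⟩ := hz
  refine ⟨x, hxD, ?_⟩
  have hxK : x ∉ K1 := fun hx => hz1 ((QuotientGroup.eq_one_iff x).2 hx)
  have hK2n : (K1 ⊔ Subgroup.zpowers x).Normal := by
    have e : K1 ⊔ Subgroup.zpowers x = (Subgroup.zpowers (π x)).comap π := by
      have h4 : Subgroup.zpowers (π x) = (Subgroup.zpowers x).map π := (π.map_zpowers x).symm
      rw [h4, Subgroup.comap_map_eq, hπ, QuotientGroup.ker_mk', sup_comm]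
    rw [e]
    have h5 : (Subgroup.zpowers (π x)).Normal := by
      refine ⟨fun n hn g => ?_⟩
      obtain ⟨k, rfl⟩ := Subgroup.mem_zpowers_iff.1 hn
      have h6 : Commute g (π x) := hzc g
      have h7 : g * π x ^ k * g⁻¹ = π x ^ k := by
        rw [(h6.zpow_right k).eq, mul_assoc, mul_inv_cancel, mul_one]
      rw [h7]
      exact hn
    exact h5.comap π
  by_contra hcon
  have hlt : K1 ⊔ Subgroup.zpowers x < D0 := by
    refine lt_of_le_not_ge (sup_le hK1D.le ?_) hcon
    rw [Subgroup.zpowers_le]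
    exact hxD
  have h8 := hmax ⟨hK2n, hK01.trans le_sup_left, hlt⟩ le_sup_left
  exact hxK (h8 (le_sup_right (a := K1) (Subgroup.mem_zpowers x)))

end PEAux

theorem pe {X : Type*} [Group X] [Finite X] {p : ℕ} [Fact p.Prime] (hX : IsPGroup p X)
    (N : Subgroup X) (hN : N.Normal) (hNV : N ≤ VV p X) : ⁅N, VV p X⁆ ≤ pw (p ^ 2) N := by
  classical
  induction h : Nat.card N using Nat.strong_induction_on generalizing N with
  | _ n ih =>
  subst h
  by_contra hcon
  haveI := hN
  have hDn : (⁅N, VV p X⁆ ⊔ pw (p ^ 2) N).Normal := inferInstance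
  have hKn : (pw (p ^ 2) N).Normal := inferInstance
  have hKD : pw (p ^ 2) N < ⁅N, VV p X⁆ ⊔ pw (p ^ 2) N := by
    refine lt_of_le_not_ge le_sup_right ?_
    intro hle
    exact hcon (le_sup_left.trans hle)
  have hDN : ⁅N, VV p X⁆ ⊔ pw (p ^ 2) N ≤ N :=
    sup_le (Subgroup.commutator_le_left N (VV p X)) (pw_le _ _)
  obtain ⟨K', hK'n, hKK', hK'D, x, hxD, hDx⟩ := PEAux.chief hX hKn hDn hKD
  haveI := hK'n
  have h1 : ¬ ⁅N, N⁆ ≤ K' := by
    intro hc
    apply hK'D.not_ge
    refine sup_le ?_ hKK'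
    rw [Subgroup.commutator_le]
    intro m hm g hg
    exact hg N K' hN hK'n (hK'D.le.trans hDN) hc (fun y hy => hKK' (pow_mem_pw hy)) m hm
  have h2 : ⁅⁅N, VV p X⁆ ⊔ pw (p ^ 2) N, ⁅N, VV p X⁆ ⊔ pw (p ^ 2) N⁆ ≤ K' :=
    PEAux.comm_of_cyclic hK'n hxD hDx (fun m hm g _ => PEAux.comm_normal hK'n hm g)
  have hDN' : ⁅N, VV p X⁆ ⊔ pw (p ^ 2) N < N := by
    refine lt_of_le_of_ne hDN ?_
    intro heq
    rw [heq] at h2
    exact h1 h2
  obtain ⟨M, hMn, hDM, hMN, y, hyN, hNy⟩ := PEAux.chief hX hDn hN hDN'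
  have hcard : Nat.card M < Nat.card N := by
    have h3 : (M : Set X) ⊂ (N : Set X) := hMN
    have h4 := Set.ncard_lt_ncard h3 (Set.toFinite _)
    exact h4
  have hMV : ⁅M, VV p X⁆ ≤ pw (p ^ 2) M := ih _ hcard M hMn (hMN.le.trans hNV) rfl
  have hMK' : ⁅M, VV p X⁆ ≤ K' := hMV.trans ((pw_mono _ hMN.le).trans hKK')
  exact h1 (PEAux.comm_of_cyclic hK'n hyN hNy (fun m hm g hg =>
    hMK' (Subgroup.commutator_mem_commutator hm (hNV hg))))

end P9700d
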