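import Mathlib
import Pool.Agent.Lib.P9700d.Defs
import Pool.Agent.Lib.P9700d.Ord
import Pool.Agent.Lib.P9700d.Cnt

/-!
# The index of `VV p X`

`X` a finite `p`-group with `NAS e X`. For a normal abelian section `M / N` of exponent dividing `p^2`, generated by `s` (`s.card ≤ e`): `|M / N| ≤ (p^2)^e` (`relIndex_le_pow`), and
`C = {g : ⁅m, g⁆ ∈ N for all m ∈ M}` (a normal subgroup of `X`) has index `≤ ((p^2)^e)^e = p^(2 e e)` (`index_le_of_cent`); the index is a power of `p`, so it divides `p^(2 e e)`, and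
`g^(p^(2 e e)) ∈ C` for all `g`. Hence `g^(p^(2 e e)) ∈ VV p X` for all `g`: the quotient `Y = X ⧸ VV p X` has exponent dividing `p^k`, `k = 2 e e`. Abelian normal subgroups of `Y` are generated by
`≤ e` elements (`NAS e X` for their preimage `M` and `N = VV p X`). So `|Y| ≤ p^(k e (e+1))` by `card_le_of_exp`.
-/

set_option autoImplicit false

open scoped commutatorElement

namespace P9700d

namespace VIndAux

/-- the centralizer of the section `M / N` -/
private def CC {X : Type*} [Group X] (M N : Subgroup X) (hN : N.Normal) : Subgroup X where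
  carrier := {g | ∀ m ∈ M, ⁅m, g⁆ ∈ N}
  one_mem' := by
    intro m _
    rw [commutatorElement_one_right]
    exact N.one_mem
  mul_mem' := by
    intro g h hg hh m hm
    have e : ⁅m, g * h⁆ = ⁅m, g⁆ * (g * ⁅m, h⁆ * g⁻¹) := by
      simp only [commutatorElement_def]
      group
    rw [e]
    exact N.mul_mem (hg m hm) (hN.conj_mem _ (hh m hm) g)
  inv_mem' := by
    intro g hg m hm
    have e : ⁅m, g⁻¹⁆ = g⁻¹ * ⁅m, g⁆⁻¹ * g⁻¹⁻¹ := by
      simp only [commutatorElement_def]
      group
    rw [e]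
    exact hN.conj_mem _ (N.inv_mem (hg m hm)) g⁻¹

private theorem CC_normal {X : Type*} [Group X] (M N : Subgroup X) (hM : M.Normal) (hN : N.Normal) :
    (CC M N hN).Normal := by
  refine ⟨fun n hn g => ?_⟩
  change ∀ m ∈ M, ⁅m, g * n * g⁻¹⁆ ∈ N
  intro m hm
  have h4 : g⁻¹ * m * g ∈ M := by
    have := hM.conj_mem m hm g⁻¹
    rwa [inv_inv] at this
  have h5 := hN.conj_mem _ (hn _ h4) g
  have e : ⁅m, g * n * g⁻¹⁆ = g * ⁅g⁻¹ * m * g, n⁆ * g⁻¹ := by
    simp only [commutatorElement_def]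
    group
  rw [e]
  exact h5

private theorem pow_mem_VV {X : Type*} [Group X] [Finite X] {p : ℕ} [Fact p.Prime]
    (hX : IsPGroup p X) (e : ℕ) (h : NAS e X) (g : X) : g ^ (p ^ (2 * e * e)) ∈ VV p X := by
  have hp : p.Prime := Fact.out
  rw [mem_VV]
  intro M N hM hN hNM hab hexp
  obtain ⟨s, hs, hsM⟩ := h M N hM hN hNM hab
  have hp2 : 0 < p ^ 2 := Nat.pow_pos hp.pos
  obtain ⟨h1, h2⟩ := relIndex_le_pow M N hN hNM hab (p ^ 2) hp2 hexp s hsM
  obtain ⟨h3, h4⟩ := index_le_of_cent M N (CC M N hN) hM hN hNM h1 s hsM (fun g hg => hg)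
  have h5 : N.relIndex M ≤ (p ^ 2) ^ e := h2.trans (Nat.pow_le_pow_right hp2 hs)
  have h6 : (CC M N hN).index ≤ p ^ (2 * e * e) := by
    refine h4.trans ?_
    refine (Nat.pow_le_pow_left h5 _).trans ?_
    refine (Nat.pow_le_pow_right (Nat.pow_pos hp2) hs).trans ?_
    rw [← pow_mul, ← pow_mul, mul_assoc 2 e e]
  have := CC_normal M N hM hN
  have : (CC M N hN).FiniteIndex := ⟨h3⟩
  obtain ⟨n, hn⟩ := hX.index (CC M N hN)
  have h7 : (CC M N hN).index ∣ p ^ (2 * e * e) := by
    rw [hn] at h6 ⊢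
    exact pow_dvd_pow _ ((Nat.pow_le_pow_iff_right hp.one_lt).1 h6)
  obtain ⟨c, hc⟩ := h7
  have h8 : g ^ (p ^ (2 * e * e)) ∈ CC M N hN := by
    rw [hc, pow_mul]
    exact Subgroup.pow_mem _ (Subgroup.pow_index_mem _ g) c
  exact h8

end VIndAux

open VIndAux

theorem index_VV_le {X : Type*} [Group X] [Finite X] {p : ℕ} [Fact p.Prime] (hX : IsPGroup p X)
    (e : ℕ) (h : NAS e X) : (VV p X).index ≤ p ^ (2 * e * e * e * (e + 1)) := by
  have hY : IsPGroup p (X ⧸ VV p X) := hX.to_quotient _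
  refine card_le_of_exp hY e (2 * e * e) ?_ ?_
  · intro M hM hMc
    have hMn : (M.comap (QuotientGroup.mk' (VV p X))).Normal := hM.comap _
    obtain ⟨s, hs, hsM⟩ := h (M.comap (QuotientGroup.mk' (VV p X))) (VV p X) hMn inferInstance
      (by
        intro x hx
        rw [Subgroup.mem_comap, QuotientGroup.mk'_apply, (QuotientGroup.eq_one_iff x).2 hx]
        exact M.one_mem)
      (by
        rw [Subgroup.commutator_le]
        intro a ha b hb
        rw [← QuotientGroup.eq_one_iff, ← QuotientGroup.mk'_apply, map_commutatorElement,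
          commutatorElement_eq_one_iff_mul_comm]
        exact hMc _ ha _ hb)
    classical
    refine ⟨s.image (QuotientGroup.mk' (VV p X)), Finset.card_image_le.trans hs, ?_⟩
    have h1 := congrArg (Subgroup.map (QuotientGroup.mk' (VV p X))) hsM
    rw [Subgroup.map_sup, MonoidHom.map_closure,
      Subgroup.map_comap_eq_self_of_surjective (QuotientGroup.mk'_surjective _),
      QuotientGroup.map_mk'_self, sup_bot_eq] at h1
    rw [Finset.coe_image]
    exact h1
  · intro x
    obtain ⟨g, rfl⟩ := QuotientGroup.mk_surjective x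
    rw [← QuotientGroup.mk_pow, QuotientGroup.eq_one_iff]
    exact pow_mem_VV hX e h g

end P9700d
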