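import Mathlib
import Pool.Agent.Lib.P9700d.Defs
import Pool.Agent.Lib.P9700d.PE
import Pool.Agent.Lib.P9700d.VInd

/-!
# The subgroup `VV` of a quotient `S ⧸ N`, pulled back to `S`

`VN p N = (VV p (S ⧸ N)).comap mk`. 
* `VN_normal`, `le_VN : N ≤ VN p N` (clear: `1 ∈ VV`), `index_VN_le` (`Subgroup.index_comap_of_surjective` and `index_VV_le`).
* `VN_mono`: `N ≤ N'`: a normal abelian section `M / K` of `S ⧸ N'` of exponent dividing `p^2` pulls back to a section of `S` above `N'`, and its image in `S ⧸ N` is a normal abelian section of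
  exponent dividing `p^2` (the preimages in `S` of the subgroups of `S ⧸ N` are the subgroups containing `N`).
* `VN_pe`: the image of `M` in `S ⧸ N` is a normal subgroup contained in `VV p (S ⧸ N)`; apply `pe` and pull back (`Subgroup.map_commutator`; the image of `pw m M` is `pw m` of the image; a subgroup
  whose image is contained in the image of `pw (p^2) M` is contained in `pw (p^2) M ⊔ N`).
* `relIndex_le_of_NAS`: the images of `K ≤ M` in `S ⧸ N` form a normal abelian section of exponent dividing `p`; `NAS e` gives `≤ e` generators, lift them to `s ⊆ M` with `closure s ⊔ K = M` and apply `relIndex_le_pow` in `S`.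
-/

set_option autoImplicit false

open scoped commutatorElement

namespace P9700d

private theorem mem_of_mk_mem_map {S : Type*} [Group S] (N H : Subgroup S) [N.Normal] (h : N ≤ H) (x : S)
    (hx : QuotientGroup.mk' N x ∈ H.map (QuotientGroup.mk' N)) : x ∈ H := by
  obtain ⟨k, hk, hkx⟩ := hx
  have h1 : k⁻¹ * x ∈ N := by
    rw [QuotientGroup.mk'_apply, QuotientGroup.mk'_apply] at hkx
    exact QuotientGroup.eq.mp hkx
  have h2 : x = k * (k⁻¹ * x) := by group
  rw [h2]
  exact H.mul_mem hk (h h1)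

private theorem pw_map {X Y : Type*} [Group X] [Group Y] (f : X →* Y) (m : ℕ) (M : Subgroup X) :
    pw m (M.map f) = (pw m M).map f := by
  unfold pw
  rw [MonoidHom.map_closure]
  congr 1
  ext y
  constructor
  · rintro ⟨_, ⟨x, hx, rfl⟩, rfl⟩
    refine ⟨x ^ m, ⟨x, hx, rfl⟩, ?_⟩
    exact map_pow f x m
  · rintro ⟨_, ⟨x, hx, rfl⟩, rfl⟩
    refine ⟨f x, ⟨x, hx, rfl⟩, ?_⟩
    exact (map_pow f x m).symm

/-- the pull back of `VV p (S ⧸ N)` -/
def VN {S : Type*} [Group S] (p : ℕ) (N : Subgroup S) [N.Normal] : Subgroup S :=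
  (VV p (S ⧸ N)).comap (QuotientGroup.mk' N)

theorem VN_normal {S : Type*} [Group S] (p : ℕ) (N : Subgroup S) [N.Normal] : (VN p N).Normal := by
  exact (VV_normal p (S ⧸ N)).comap (QuotientGroup.mk' N)

theorem le_VN {S : Type*} [Group S] (p : ℕ) (N : Subgroup S) [N.Normal] : N ≤ VN p N := by
  intro x hx
  have h1 : QuotientGroup.mk' N x = 1 := by
    rw [QuotientGroup.mk'_apply]
    exact (QuotientGroup.eq_one_iff x).mpr hx
  change QuotientGroup.mk' N x ∈ VV p (S ⧸ N)
  rw [h1]
  exact one_mem _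

theorem index_VN_le {S : Type*} [Group S] {p : ℕ} [Fact p.Prime] (N : Subgroup S) [N.Normal]
    [Finite (S ⧸ N)] (hp : IsPGroup p (S ⧸ N)) (e : ℕ) (h : NAS e (S ⧸ N)) :
    (VN p N).index ≠ 0 ∧ (VN p N).index ≤ p ^ (2 * e * e * e * (e + 1)) := by
  have h1 : (VN p N).index = (VV p (S ⧸ N)).index :=
    Subgroup.index_comap_of_surjective _ (QuotientGroup.mk'_surjective N)
  rw [h1]
  exact ⟨Subgroup.index_ne_zero_of_finite, index_VV_le hp e h⟩

theorem VN_mono {S : Type*} [Group S] (p : ℕ) (N N' : Subgroup S) [N.Normal] [N'.Normal]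
    (h : N ≤ N') : VN p N ≤ VN p N' := by
  intro g hg
  change QuotientGroup.mk' N g ∈ VV p (S ⧸ N) at hg
  change QuotientGroup.mk' N' g ∈ VV p (S ⧸ N')
  rw [mem_VV] at hg ⊢
  intro M K hM hK h1 h2 h3 m hm
  obtain ⟨m', rfl⟩ := QuotientGroup.mk'_surjective N' m
  have hsur := QuotientGroup.mk'_surjective N
  have hNK : N ≤ K.comap (QuotientGroup.mk' N') := by
    intro x hx
    have h4 : QuotientGroup.mk' N' x = 1 := by
      rw [QuotientGroup.mk'_apply]
      exact (QuotientGroup.eq_one_iff x).mpr (h hx)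
    change QuotientGroup.mk' N' x ∈ K
    rw [h4]
    exact one_mem _
  have h5 := hg ((M.comap (QuotientGroup.mk' N')).map (QuotientGroup.mk' N))
    ((K.comap (QuotientGroup.mk' N')).map (QuotientGroup.mk' N))
    ((hM.comap _).map _ hsur) ((hK.comap _).map _ hsur)
    (Subgroup.map_mono (Subgroup.comap_mono h1))
    (by
      rw [← Subgroup.map_commutator]
      apply Subgroup.map_mono
      rw [Subgroup.commutator_le]
      intro a ha b hb
      change QuotientGroup.mk' N' ⁅a, b⁆ ∈ K
      rw [map_commutatorElement]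
      exact h2 (Subgroup.commutator_mem_commutator ha hb))
    (by
      rintro _ ⟨x, hx, rfl⟩
      rw [← map_pow]
      refine Subgroup.mem_map_of_mem _ ?_
      change QuotientGroup.mk' N' (x ^ (p ^ 2)) ∈ K
      rw [map_pow]
      exact h3 _ hx)
    (QuotientGroup.mk' N m') (Subgroup.mem_map_of_mem _ hm)
  rw [← map_commutatorElement] at h5
  have h6 := mem_of_mk_mem_map N _ hNK _ h5
  change QuotientGroup.mk' N' ⁅m', g⁆ ∈ K at h6
  rw [map_commutatorElement] at h6
  exact h6

theorem VN_pe {S : Type*} [Group S] {p : ℕ} [Fact p.Prime] (N : Subgroup S) [N.Normal]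
    [Finite (S ⧸ N)] (hp : IsPGroup p (S ⧸ N)) (M : Subgroup S) (hM : M.Normal) (hNM : N ≤ M)
    (hMV : M ≤ VN p N) : ⁅M, VN p N⁆ ≤ pw (p ^ 2) M ⊔ N := by
  have h1 : M.map (QuotientGroup.mk' N) ≤ VV p (S ⧸ N) := by
    rintro _ ⟨x, hx, rfl⟩
    exact hMV hx
  have h2 := pe hp (M.map (QuotientGroup.mk' N)) (hM.map _ (QuotientGroup.mk'_surjective N)) h1
  rw [Subgroup.commutator_le]
  intro m hm v hv
  have h3 : QuotientGroup.mk' N ⁅m, v⁆ ∈ pw (p ^ 2) (M.map (QuotientGroup.mk' N)) := by
    rw [map_commutatorElement]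
    exact h2 (Subgroup.commutator_mem_commutator (Subgroup.mem_map_of_mem _ hm) hv)
  rw [pw_map] at h3
  have h4 : QuotientGroup.mk' N ⁅m, v⁆ ∈ (pw (p ^ 2) M ⊔ N).map (QuotientGroup.mk' N) :=
    Subgroup.map_mono le_sup_left h3
  exact mem_of_mk_mem_map N _ le_sup_right _ h4

theorem relIndex_le_of_NAS {S : Type*} [Group S] {p : ℕ} [Fact p.Prime] (N : Subgroup S) [N.Normal]
    (e : ℕ) (h : NAS e (S ⧸ N)) (M K : Subgroup S) (hM : M.Normal) (hK : K.Normal) (hNK : N ≤ K)
    (hKM : K ≤ M) (hab : ⁅M, M⁆ ≤ K) (hexp : ∀ x ∈ M, x ^ p ∈ K) :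
    K.relIndex M ≠ 0 ∧ K.relIndex M ≤ p ^ e := by
  classical
  have hsur := QuotientGroup.mk'_surjective N
  obtain ⟨s1, hs1, hs2⟩ := h (M.map (QuotientGroup.mk' N)) (K.map (QuotientGroup.mk' N))
    (hM.map _ hsur) (hK.map _ hsur) (Subgroup.map_mono hKM)
    (by
      rw [← Subgroup.map_commutator]
      exact Subgroup.map_mono hab)
  choose f hf using hsur
  have himg : (QuotientGroup.mk' N) '' ((s1.image f : Finset S) : Set S) = (s1 : Set (S ⧸ N)) := by
    ext y
    constructor
    · rintro ⟨x, hx, rfl⟩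
      rw [Finset.mem_coe, Finset.mem_image] at hx
      obtain ⟨z, hz, rfl⟩ := hx
      rw [hf z]
      exact hz
    · intro hy
      refine ⟨f y, ?_, hf y⟩
      rw [Finset.mem_coe, Finset.mem_image]
      exact ⟨y, hy, rfl⟩
  have h1 : (Subgroup.closure ((s1.image f : Finset S) : Set S) ⊔ K).map (QuotientGroup.mk' N) =
      M.map (QuotientGroup.mk' N) := by
    rw [Subgroup.map_sup, MonoidHom.map_closure, himg]
    exact hs2
  have h2 : Subgroup.closure ((s1.image f : Finset S) : Set S) ⊔ K = M := by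
    have hker : (QuotientGroup.mk' N).ker = N := QuotientGroup.ker_mk' N
    have h3 := Subgroup.comap_map_eq_self (f := QuotientGroup.mk' N)
      (H := Subgroup.closure ((s1.image f : Finset S) : Set S) ⊔ K)
      (by rw [hker]; exact le_trans hNK le_sup_right)
    have h4 := Subgroup.comap_map_eq_self (f := QuotientGroup.mk' N) (H := M)
      (by rw [hker]; exact le_trans hNK hKM)
    rw [← h3, h1, h4]
  have h5 := relIndex_le_pow M K hK hKM hab p (Fact.out : p.Prime).pos hexp _ h2
  refine ⟨h5.1, le_trans h5.2 ?_⟩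
  exact Nat.pow_le_pow_right (Fact.out : p.Prime).pos (le_trans Finset.card_image_le hs1)

end P9700d
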