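import Mathlib
import Pool.Agent.Lib.P9700d.Defs
import Pool.Agent.Lib.P9700d.RelV
import Pool.Agent.Lib.P9700d.DirS

/-!
# A powerfully embedded normal subgroup of finite index

For a subgroup `N` of `G` put `N_S = N.subgroupOf S`; for `N ∈ 𝒩` it is normal in `S` and `S ⧸ N_S` is a finite `p`-group (`N.relIndex S = p^k`). `W N` = the image in `G` of `VN p N_S` (as `VN` needs a `Normal` instance, define `W N` by cases on `N.Normal`, or as the image of
`{g ∈ S : mk g ∈ VV p _}`). For `N ∈ 𝒩`: `N ≤ W N ≤ S`, `(W N).relIndex S` is nonzero and `≤ c = p^(2e^3(e+1))` (`index_VN_le`), and `N ≤ N'` implies `W N ≤ W N'` (`VN_mono`). By `exists_stab` (`L = S`) there is `N0 ∈ 𝒩` with `W N0 ≤ W N` for all `N ∈ 𝒩`.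
`V = (W N0).normalCore ⊓ G1`: normal, `N0 ≤ V` (`N0` normal, `N0 ≤ W N0`, `N0 ≤ G1`), so of finite index.
Let `N ∈ 𝒩`, `N ≤ M ≤ V`, `M` normal in `G`. `M_S = M.subgroupOf S` is normal in `S`, `N_S ≤ M_S ≤ VN p N_S` (`V ≤ W N0 ≤ W N`). `VN_pe`: `⁅M_S, VN p N_S⁆ ≤ pw (p^2) M_S ⊔ N_S`; apply `Subgroup.map S.subtype`: `⁅M, W N⁆ ≤ pw (p^2) M ⊔ N`, and `V ≤ W N`.
Index: `K = pw p M ⊔ N` is normal, `N ≤ K ≤ M`, `⁅M, M⁆ ≤ ⁅M, V⁆ ≤ pw (p^2) M ⊔ N ≤ K` (`x^(p^2) = (x^p)^p`), `x^p ∈ K` for `x ∈ M`: `relIndex_le_of_NAS` for `M_S`, `K_S`.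
-/

set_option autoImplicit false

open scoped commutatorElement

namespace P9700d

namespace VConAux

open Classical in
/-- the image in `G` of `VN p (N.subgroupOf S)` -/
noncomputable def W {G : Type*} [Group G] (p : ℕ) (S N : Subgroup G) : Subgroup G :=
  if h : N.Normal then
    haveI := h
    (VN p (N.subgroupOf S)).map S.subtype
  else ⊥

theorem W_eq {G : Type*} [Group G] (p : ℕ) (S N : Subgroup G) [h : N.Normal] :
    W p S N = (VN p (N.subgroupOf S)).map S.subtype := by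
  unfold W
  rw [dif_pos h]

theorem W_le {G : Type*} [Group G] (p : ℕ) (S N : Subgroup G) [h : N.Normal] : W p S N ≤ S := by
  rw [W_eq]
  exact Subgroup.map_subtype_le _

theorem mem_W {G : Type*} [Group G] (p : ℕ) (S N : Subgroup G) [h : N.Normal] (x : S) :
    (x : G) ∈ W p S N ↔ x ∈ VN p (N.subgroupOf S) := by
  rw [W_eq]
  constructor
  · rintro ⟨y, hy, hyx⟩
    have : y = x := Subtype.ext hyx
    rw [← this]
    exact hy
  · intro hx
    exact ⟨x, hx, rfl⟩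

theorem le_W {G : Type*} [Group G] (p : ℕ) (S N : Subgroup G) [h : N.Normal] (hN : N ≤ S) :
    N ≤ W p S N := by
  intro x hx
  have := (mem_W p S N ⟨x, hN hx⟩).2 (le_VN p _ (by
    rw [Subgroup.mem_subgroupOf]
    exact hx))
  exact this

theorem W_mono {G : Type*} [Group G] (p : ℕ) (S N N' : Subgroup G) [N.Normal] [N'.Normal] (h : N ≤ N') :
    W p S N ≤ W p S N' := by
  rw [W_eq, W_eq]
  exact Subgroup.map_mono (VN_mono p _ _ (Subgroup.comap_mono h))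

theorem W_index {G : Type*} [Group G] (p : ℕ) (S N : Subgroup G) [h : N.Normal] :
    (W p S N).relIndex S = (VN p (N.subgroupOf S)).index := by
  unfold Subgroup.relIndex
  congr 1
  ext x
  rw [Subgroup.mem_subgroupOf, mem_W]

theorem pw_sub {G : Type*} [Group G] (m : ℕ) (S M N : Subgroup G) :
    (pw m (M.subgroupOf S) ⊔ N.subgroupOf S).map S.subtype ≤ pw m M ⊔ N := by
  rw [Subgroup.map_sup]
  apply sup_le_sup
  · rw [Subgroup.map_le_iff_le_comap, pw_le_iff]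
    intro x hx
    rw [Subgroup.mem_subgroupOf] at hx
    rw [Subgroup.mem_comap]
    have := pow_mem_pw (m := m) hx
    simpa using this
  · rw [Subgroup.map_le_iff_le_comap]
    exact le_refl _

end VConAux

open VConAux

theorem exists_V {G : Type*} [Group G] {p : ℕ} [Fact p.Prime] (e : ℕ) (G1 S : Subgroup G)
    (𝒩 : Set (Subgroup G)) (hG1 : G1.Normal) (hS : G1 ≤ S) (hne : 𝒩.Nonempty)
    (hinf : ∀ N ∈ 𝒩, ∀ N' ∈ 𝒩, N ⊓ N' ∈ 𝒩)
    (h𝒩 : ∀ N ∈ 𝒩, N.Normal ∧ N.FiniteIndex ∧ N ≤ G1 ∧ ∃ k : ℕ, N.relIndex S = p ^ k)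
    (hnas : ∀ N ∈ 𝒩, ∀ _ : N.Normal, NAS e (S ⧸ N.subgroupOf S)) :
    ∃ V : Subgroup G, V.Normal ∧ V ≤ G1 ∧ (∃ N0 ∈ 𝒩, N0 ≤ V) ∧
      ∀ N ∈ 𝒩, ∀ M : Subgroup G, M.Normal → N ≤ M → M ≤ V →
        ⁅M, V⁆ ≤ pw (p ^ 2) M ⊔ N ∧ (pw p M ⊔ N).relIndex M ≤ p ^ e := by
  obtain ⟨N1, hN1⟩ := hne
  have hfin : ∀ N ∈ 𝒩, Finite (S ⧸ N.subgroupOf S) := by
    intro N hN
    have := (h𝒩 N hN).2.1
    infer_instance
  have hpg : ∀ N ∈ 𝒩, ∀ _ : N.Normal, IsPGroup p (S ⧸ N.subgroupOf S) := by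
    intro N hN hn
    obtain ⟨k, hk⟩ := (h𝒩 N hN).2.2.2
    exact IsPGroup.of_card (n := k) hk
  obtain ⟨N0, hN0, -, hst⟩ := exists_stab 𝒩 (fun N hN N' hN' => ⟨N ⊓ N', hinf N hN N' hN', inf_le_left,
    inf_le_right⟩) (W p S) (fun N hN N' hN' hle => by
      have := (h𝒩 N hN).1
      have := (h𝒩 N' hN').1
      exact W_mono p S N N' hle) S (p ^ (2 * e * e * e * (e + 1))) N1 hN1 (fun N hN _ => by
      have hn := (h𝒩 N hN).1
      have hf := hfin N hN
      have := index_VN_le (N.subgroupOf S) (hpg N hN hn) e (hnas N hN hn)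
      rw [W_index]
      exact ⟨W_le p S N, this.1, this.2⟩)
  have hn0 := (h𝒩 N0 hN0).1
  have hN0G := (h𝒩 N0 hN0).2.2.1
  refine ⟨(W p S N0).normalCore ⊓ G1, inferInstance, inf_le_right, ⟨N0, hN0, le_inf ?_ hN0G⟩, ?_⟩
  · rw [Subgroup.normal_le_normalCore]
    exact le_W p S N0 (hN0G.trans hS)
  intro N hN M hM hNM hMV
  have hn := (h𝒩 N hN).1
  have hf := hfin N hN
  have hpgN := hpg N hN hn
  have hVW : (W p S N0).normalCore ⊓ G1 ≤ W p S N :=
    inf_le_left.trans ((Subgroup.normalCore_le _).trans (hst N hN))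
  have hVS : (W p S N0).normalCore ⊓ G1 ≤ S := inf_le_right.trans hS
  have hMS : M ≤ S := hMV.trans hVS
  have hMS' : M.subgroupOf S ≤ VN p (N.subgroupOf S) := by
    intro x hx
    rw [Subgroup.mem_subgroupOf] at hx
    exact (mem_W p S N x).1 (hVW (hMV hx))
  have h1 := VN_pe (N.subgroupOf S) hpgN (M.subgroupOf S) inferInstance (Subgroup.comap_mono hNM) hMS'
  have h2 : ⁅M, (W p S N0).normalCore ⊓ G1⁆ ≤ pw (p ^ 2) M ⊔ N := by
    rw [Subgroup.commutator_le]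
    intro m hm v hv
    have h3 : ⁅(⟨m, hMS hm⟩ : S), (⟨v, hVS hv⟩ : S)⁆ ∈ pw (p ^ 2) (M.subgroupOf S) ⊔ N.subgroupOf S := by
      apply h1
      apply Subgroup.commutator_mem_commutator
      · rw [Subgroup.mem_subgroupOf]
        exact hm
      · exact (mem_W p S N ⟨v, hVS hv⟩).1 (hVW hv)
    have h4 := pw_sub (p ^ 2) S M N (Subgroup.mem_map_of_mem S.subtype h3)
    rw [map_commutatorElement] at h4
    exact h4
  refine ⟨h2, ?_⟩
  have hKn : (pw p M ⊔ N).Normal := inferInstance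
  have h5 : pw (p ^ 2) M ≤ pw p M := by
    rw [pw_le_iff]
    intro x hx
    rw [sq, pow_mul]
    exact pow_mem_pw (M.pow_mem hx p)
  have h6 := relIndex_le_of_NAS (N.subgroupOf S) e (hnas N hN hn) (M.subgroupOf S)
    ((pw p M ⊔ N).subgroupOf S) inferInstance inferInstance (Subgroup.comap_mono le_sup_right)
    (Subgroup.comap_mono (sup_le (pw_le p M) hNM))
    (by
      rw [Subgroup.commutator_le]
      intro a ha b hb
      rw [Subgroup.mem_subgroupOf] at ha hb ⊢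
      have h7 : ⁅(a : G), (b : G)⁆ ∈ pw (p ^ 2) M ⊔ N :=
        h2 (Subgroup.commutator_mem_commutator ha (hMV hb))
      exact sup_le_sup_right h5 N h7)
    (by
      intro x hx
      rw [Subgroup.mem_subgroupOf] at hx ⊢
      have h8 : (x : G) ^ p ∈ pw p M := pow_mem_pw hx
      exact (le_sup_left : pw p M ≤ pw p M ⊔ N) h8)
  rw [Subgroup.relIndex_subgroupOf hMS] at h6
  exact h6.2

end P9700d
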