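import Mathlib
import Pool.Agent.Lib.P9700a.Rank
import Pool.Agent.Lib.P9700b.MainV
import Pool.Agent.Lib.P9700d.Defs
import Pool.Agent.Lib.P9700d.Num
import Pool.Agent.Lib.P9700d.NasS
import Pool.Agent.Lib.P9700d.Fam
import Pool.Agent.Lib.P9700d.VCon
import Pool.Agent.Lib.P9700d.FilE
import Pool.Agent.Lib.P9700d.Stab
import Pool.Agent.Lib.P9700d.Rep
import Pool.Agent.Lib.P9700d.KerC
import Pool.Agent.Lib.P9700d.Fin

/-!
# Products of two subgroups of finite special rank in virtually residually-`p` groups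
-/

set_option autoImplicit false

universe v

namespace P9700d

open P9700a

theorem main {G : Type v} [Group G] {p : ℕ} [Fact p.Prime] (G0 : Subgroup G)
    (hfi : G0.FiniteIndex)
    (hres : ∀ g : G0, g ≠ 1 → ∃ N : Subgroup G0, N.Normal ∧ (∃ k : ℕ, N.index = p ^ k) ∧ g ∉ N)
    (A B : Subgroup G) (hA : FR A) (hB : FR B) (hAB : ∀ g : G, ∃ a ∈ A, ∃ b ∈ B, g = a * b) :
    FR G ∧ VS G := by
  classical
  obtain ⟨rA, hrA⟩ := (fr_iff A).1 hA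
  obtain ⟨rB, hrB⟩ := (fr_iff B).1 hB
  set r := max rA rB with hr
  have hA' : ∀ K : Subgroup G, K ≤ A → K.FG →
      ∃ s : Finset G, s.card ≤ r ∧ Subgroup.closure (s : Set G) = K := by
    intro K h1 h2
    obtain ⟨s, h3, h4⟩ := hrA K h1 h2
    exact ⟨s, h3.trans (le_max_left _ _), h4⟩
  have hB' : ∀ K : Subgroup G, K ≤ B → K.FG →
      ∃ s : Finset G, s.card ≤ r ∧ Subgroup.closure (s : Set G) = K := by
    intro K h1 h2
    obtain ⟨s, h3, h4⟩ := hrB K h1 h2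
    exact ⟨s, h3.trans (le_max_right _ _), h4⟩
  obtain ⟨e, he⟩ := exists_bound r
  have hp2 : 2 ≤ p := (Fact.out : p.Prime).two_le
  obtain ⟨G1, S, 𝒩, hG1n, hG1i, hG1S, hSi, hne, hinf, h𝒩, hint⟩ := exists_fam (p := p) G0 hfi hres
  have hnas : ∀ N ∈ 𝒩, ∀ _ : N.Normal, NAS e (S ⧸ N.subgroupOf S) := by
    intro N hN hNn
    obtain ⟨h1, h2, h3, h4⟩ := h𝒩 N hN
    exact nas_quot A B r e hA' hB' hAB (fun n hn => he p n hp2 hn) S N h2 (h3.trans hG1S) h4 hSi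
  obtain ⟨V, hVn, hVG, ⟨N0, hN0, hN0V⟩, hV⟩ := exists_V e G1 S 𝒩 hG1n hG1S hne hinf h𝒩 hnas
  have hVi : V.FiniteIndex := by
    have := (h𝒩 N0 hN0).2.1
    exact Subgroup.finiteIndex_of_le hN0V
  obtain ⟨L, hL0, hL⟩ := exists_fil (p := p) e V hVn hVi {N | N ∈ 𝒩 ∧ N ≤ V} ⟨N0, hN0, hN0V⟩
    (by
      rintro N ⟨h1, h2⟩ N' ⟨h3, h4⟩
      exact ⟨N ⊓ N', ⟨hinf N h1 N' h3, inf_le_left.trans h2⟩, inf_le_left, inf_le_right⟩)
    (fun N hN => (h𝒩 N hN.1).1) (fun N hN => (h𝒩 N hN.1).2.1) (fun N hN => hN.2)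
    (by
      rintro N ⟨h1, h2⟩ v hv
      obtain ⟨h3, h4, h5, k, hk⟩ := h𝒩 N h1
      refine ⟨k, ?_⟩
      rw [← hk]
      have h6 : v ∈ S := hG1S (hVG hv)
      have h7 : (⟨v, h6⟩ : S) ^ (N.subgroupOf S).index ∈ N.subgroupOf S :=
        Subgroup.pow_index_mem _ _
      exact h7)
    (by
      intro g hg
      refine hint g fun N hN => ?_
      exact (hg (N ⊓ N0) ⟨hinf N hN N0 hN0, inf_le_right.trans hN0V⟩).1)
    (fun N hN M h1 h2 h3 => (hV N hN.1 M h1 h2 h3).1)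
    (fun N hN M h1 h2 h3 => (hV N hN.1 M h1 h2 h3).2)
  obtain ⟨i0, D, hi0, hs⟩ := exists_stb L hL
  obtain ⟨F, iF, iC, ρ, hρ⟩ := exists_rep hL hi0 hs
  exact final ρ A B hA hB hAB (L i0) (hL.norm i0) (hL.fi i0)
    (fun g hg x hx => ker_cent hL hs g (hρ g hg) x hx)

end P9700d
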